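import Pool.Agent.Helper67.SC.Stmt
import Pool.Agent.Helper67.SC.G2
import Pool.Agent.Helper67.SC.L2
import Pool.Agent.Helper67.SC.T2
import Pool.Agent.Helper67.SC.C1a

/-!
Existence of the canonical form of the carpet: vertex energies and working vocabulary.
-/

open Filter Topology Pool.Agent.Helper67.SC

noncomputable section

namespace Pool.Agent.Helper67.CF

/-- The vertex energy of level `0`. -/
def Q (f g : K → ℝ) : ℝ := ∑ c ∈ corners, ∑ c' ∈ corners, (f c - f c') * (g c - g c')

/-- The vertex energy of level `M`. -/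
def EM (M : ℕ) (f g : K → ℝ) : ℝ :=
  ∑ w ∈ words M, Q (fun x => f (Fw w x)) (fun x => g (Fw w x))

/-- Functions equal to `0` on the left side and to `1` on the right side. -/
def IsCross (f : K → ℝ) : Prop := (∀ x ∈ left, f x = 0) ∧ ∀ x ∈ right, f x = 1

/-- Crossing conductance of level `M`. -/
def cap (M : ℕ) : ℝ := sInf {e : ℝ | ∃ f : K → ℝ, IsCross f ∧ EM M f f = e}

/-- The values of `g` at the vertices of the cells in `T` are within `t` of `a`. -/
def ValNear (g : K → ℝ) (T : Set (List Dig)) (a t : ℝ) : Prop :=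
  ∀ w ∈ T, ∀ c ∈ corners, |g (Fw w c) - a| ≤ t

/-- `T` is a connected set of words of length `M` reaching from the left to the right side. -/
def HCross (M : ℕ) (T : Set (List Dig)) : Prop :=
  (∀ w ∈ T, w.length = M) ∧ ∃ s ∈ T, (pos s).1 = 0 ∧ (∃ t ∈ T, (pos t).1 + 1 = 3 ^ M) ∧
    ∀ a ∈ T, Linked T s a

/-- `T` is a connected set of words of length `M` reaching from the bottom to the top side. -/
def VCross (M : ℕ) (T : Set (List Dig)) : Prop :=
  (∀ w ∈ T, w.length = M) ∧ ∃ s ∈ T, (pos s).2 = 0 ∧ (∃ t ∈ T, (pos t).2 + 1 = 3 ^ M) ∧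
    ∀ a ∈ T, Linked T s a

/-- The domain attached to the scaling factor `ρ`. -/
def Dom (ρ : ℝ) : Set (K → ℝ) := {f | Continuous f ∧ ∃ B : ℝ, ∀ M, ρ ^ M * EM M f f ≤ B}

end Pool.Agent.Helper67.CF
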