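import Pool.Agent.Helper67.CF.EnBasic

/-! Module Cap: the crossing conductance, near minimisers. -/

open Filter Topology Pool.Agent.Helper67.SC

noncomputable section

namespace Pool.Agent.Helper67.CF

theorem isCross_fst : IsCross (fun x => x.1.1) := ⟨fun _ h => h, fun _ h => h⟩

theorem cap_le (M : ℕ) {f : K → ℝ} (hf : IsCross f) : cap M ≤ EM M f f := by
  refine csInf_le ⟨0, ?_⟩ ⟨f, hf, rfl⟩
  rintro e ⟨g, _, rfl⟩
  exact EM_nonneg M g

theorem cap_dg_xy (i j : Fin 3) (h : (i, j) ≠ ((1 : Fin 3), (1 : Fin 3))) :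
    (dg i j).x = (i : ℤ) ∧ (dg i j).y = (j : ℤ) := by
  unfold dg
  rw [dif_pos h]
  exact ⟨rfl, rfl⟩

theorem cap_F_00_c00 : F (dg 0 0) c00 = c00 := by
  apply K_ext
  · rw [F_apply1, (cap_dg_xy 0 0 (by decide)).1]; simp [c00]
  · rw [F_apply2, (cap_dg_xy 0 0 (by decide)).2]; simp [c00]

theorem cap_F_20_c10 : F (dg 2 0) c10 = c10 := by
  apply K_ext
  · rw [F_apply1, (cap_dg_xy 2 0 (by decide)).1]; simp [c10]; norm_num
  · rw [F_apply2, (cap_dg_xy 2 0 (by decide)).2]; simp [c10]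

theorem cap_F_chain1 : F (dg 0 0) c10 = F (dg 1 0) c00 := by
  apply K_ext
  · rw [F_apply1, F_apply1, (cap_dg_xy 0 0 (by decide)).1, (cap_dg_xy 1 0 (by decide)).1]
    simp [c00, c10]
  · rw [F_apply2, F_apply2, (cap_dg_xy 0 0 (by decide)).2, (cap_dg_xy 1 0 (by decide)).2]
    simp [c00, c10]

theorem cap_F_chain2 : F (dg 1 0) c10 = F (dg 2 0) c00 := by
  apply K_ext
  · rw [F_apply1, F_apply1, (cap_dg_xy 1 0 (by decide)).1, (cap_dg_xy 2 0 (by decide)).1]
    simp [c00, c10]; norm_num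
  · rw [F_apply2, F_apply2, (cap_dg_xy 1 0 (by decide)).2, (cap_dg_xy 2 0 (by decide)).2]
    simp [c00, c10]

theorem cap_mem_c00 : c00 ∈ corners := mem_corners.2 ⟨Or.inl rfl, Or.inl rfl⟩
theorem cap_mem_c10 : c10 ∈ corners := mem_corners.2 ⟨Or.inr rfl, Or.inl rfl⟩

/-- Chain along the bottom side: `F (dg 0 0) c10 = F (dg 1 0) c00` etc. Induction on `M`. -/
theorem sq_le_EM (M : ℕ) (f : K → ℝ) : (f c10 - f c00) ^ 2 ≤ 3 ^ M * EM M f f := by
  induction M generalizing f with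
  | zero =>
    rw [EM_zero, pow_zero, one_mul]
    exact sq_le_Q f cap_mem_c10 cap_mem_c00
  | succ M ih =>
    rw [EM_succ]
    have h0 := ih (fun x => f (F (dg 0 0) x))
    have h1 := ih (fun x => f (F (dg 1 0) x))
    have h2 := ih (fun x => f (F (dg 2 0) x))
    have hsub : ∑ d ∈ ({dg 0 0, dg 1 0, dg 2 0} : Finset Dig),
        EM M (fun x => f (F d x)) (fun x => f (F d x)) ≤
        ∑ d : Dig, EM M (fun x => f (F d x)) (fun x => f (F d x)) :=
      Finset.sum_le_sum_of_subset_of_nonneg (Finset.subset_univ _) (fun d _ _ => EM_nonneg M _)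
    have hne1 : dg 0 0 ∉ ({dg 1 0, dg 2 0} : Finset Dig) := by decide
    have hne2 : dg 1 0 ∉ ({dg 2 0} : Finset Dig) := by decide
    rw [Finset.sum_insert hne1, Finset.sum_insert hne2, Finset.sum_singleton] at hsub
    simp only [cap_F_00_c00, cap_F_20_c10, cap_F_chain1, cap_F_chain2] at h0 h1 h2
    set a := f (F (dg 1 0) c00)
    set b := f (F (dg 2 0) c00)
    set E0 := EM M (fun x => f (F (dg 0 0) x)) (fun x => f (F (dg 0 0) x))
    set E1 := EM M (fun x => f (F (dg 1 0) x)) (fun x => f (F (dg 1 0) x))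
    set E2 := EM M (fun x => f (F (dg 2 0) x)) (fun x => f (F (dg 2 0) x))
    have h3 : (3 : ℝ) ^ (M + 1) * (E0 + (E1 + E2)) ≤ 3 ^ (M + 1) *
        ∑ d : Dig, EM M (fun x => f (F d x)) (fun x => f (F d x)) :=
      mul_le_mul_of_nonneg_left hsub (by positivity)
    refine le_trans ?_ h3
    have h4 : (f c10 - f c00) ^ 2 ≤
        3 * ((a - f c00) ^ 2 + (b - a) ^ 2 + (f c10 - b) ^ 2) := by
      nlinarith [sq_nonneg ((a - f c00) - (b - a)), sq_nonneg ((b - a) - (f c10 - b)),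
        sq_nonneg ((a - f c00) - (f c10 - b))]
    have h5 : (3 : ℝ) ^ (M + 1) * (E0 + (E1 + E2)) =
        3 * (3 ^ M * E0 + 3 ^ M * E1 + 3 ^ M * E2) := by ring
    rw [h5]
    linarith

theorem cap_cross_ge (M : ℕ) {f : K → ℝ} (hf : IsCross f) : 1 / 3 ^ M ≤ EM M f f := by
  have h := sq_le_EM M f
  have h1 : f c10 = 1 := hf.2 c10 rfl
  have h0 : f c00 = 0 := hf.1 c00 rfl
  rw [h1, h0] at h
  rw [div_le_iff₀ (by positivity)]
  linarith

theorem cap_pos (M : ℕ) : 0 < cap M := by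
  have h : (1 : ℝ) / 3 ^ M ≤ cap M := by
    refine le_csInf ⟨_, _, isCross_fst, rfl⟩ ?_
    rintro e ⟨f, hf, rfl⟩
    exact cap_cross_ge M hf
  exact lt_of_lt_of_le (by positivity) h

/-- test function `isCross_fst` -/
theorem cap_zero_le : cap 0 ≤ 8 := by
  refine (cap_le 0 isCross_fst).trans ?_
  rw [EM_zero]
  unfold Q
  simp only [sum_corners]
  norm_num [c00, c10, c01, c11]

/-- Near minimisers: truncate with `EM_mono`, then average `f` and `f ∘ flipY`. -/
theorem exists_near (M : ℕ) {ε : ℝ} (hε : 0 < ε) : ∃ u : K → ℝ, IsCross u ∧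
    (∀ x, u (flipY x) = u x) ∧ (∀ x, 0 ≤ u x ∧ u x ≤ 1) ∧ EM M u u ≤ cap M + ε := by
  obtain ⟨e, ⟨f, hf, rfl⟩, he⟩ := exists_lt_of_csInf_lt
    (s := {e : ℝ | ∃ f : K → ℝ, IsCross f ∧ EM M f f = e}) ⟨_, _, isCross_fst, rfl⟩
    (lt_add_of_pos_right _ hε)
  set g : K → ℝ := fun x => max 0 (min 1 (f x)) with hg
  have hg0 : ∀ x, 0 ≤ g x := fun x => le_max_left _ _
  have hg1 : ∀ x, g x ≤ 1 := fun x => max_le zero_le_one (min_le_left _ _)
  have hgE : EM M g g ≤ EM M f f := by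
    apply EM_mono
    intro x y
    simp only [hg]
    refine (abs_max_sub_max_le_max 0 (min 1 (f x)) 0 (min 1 (f y))).trans ?_
    rw [sub_self, abs_zero]
    refine max_le (abs_nonneg _) ?_
    refine (abs_min_sub_min_le_max 1 (f x) 1 (f y)).trans ?_
    rw [sub_self, abs_zero]
    exact max_le (abs_nonneg _) le_rfl
  have hflipL : ∀ x : K, x ∈ left → flipY x ∈ left := by
    intro x hx
    show (flipY x).1.1 = 0
    rw [flipY_apply]
    exact hx
  have hflipR : ∀ x : K, x ∈ right → flipY x ∈ right := by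
    intro x hx
    show (flipY x).1.1 = 1
    rw [flipY_apply]
    exact hx
  have hgl : ∀ x ∈ left, g x = 0 := by
    intro x hx
    simp only [hg]
    rw [hf.1 x hx]
    simp
  have hgr : ∀ x ∈ right, g x = 1 := by
    intro x hx
    simp only [hg]
    rw [hf.2 x hx]
    simp
  refine ⟨fun x => (1 / 2) * (g x + g (flipY x)), ⟨?_, ?_⟩, ?_, ?_, ?_⟩
  · intro x hx
    simp only
    rw [hgl x hx, hgl _ (hflipL x hx)]
    norm_num
  · intro x hx
    simp only
    rw [hgr x hx, hgr _ (hflipR x hx)]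
    norm_num
  · intro x
    simp only
    rw [flipY_flipY]
    ring
  · intro x
    have h1 := hg0 x
    have h2 := hg0 (flipY x)
    have h3 := hg1 x
    have h4 := hg1 (flipY x)
    constructor
    · linarith
    · linarith
  · rw [EM_smul M (1 / 2) (fun x => g x + g (flipY x))]
    have h1 := EM_add_le M g (fun x => g (flipY x))
    rw [EM_flipY] at h1
    have h2 : EM M f f < cap M + ε := he
    linarith

end Pool.Agent.Helper67.CF
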