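import Pool.Agent.Helper67.CF.Cap

/-! Module Cross: crossing sets along which a function varies little. -/

open Filter Topology Pool.Agent.Helper67.SC

noncomputable section

namespace Pool.Agent.Helper67.CF

/-- `x` can be reached from the left side with cost `s`. -/
inductive Reach (M : ℕ) (r : List Dig → ℝ) : K → ℝ → Prop
  | base {x : K} (hx : x ∈ left) : Reach M r x 0
  | step {w : List Dig} {c c' : K} {s : ℝ} (hw : w.length = M) (hc : c ∈ corners)
      (hc' : c' ∈ corners) (h : Reach M r (Fw w c) s) : Reach M r (Fw w c') (s + r w)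

theorem cross_reach_nonneg {M : ℕ} {r : List Dig → ℝ} (hr : ∀ w, 0 ≤ r w) {x : K} {s : ℝ}
    (h : Reach M r x s) : 0 ≤ s := by
  induction h with
  | base _ => exact le_rfl
  | step _ _ _ _ ih => exact add_nonneg ih (hr _)

/-- If the right side cannot be reached with cost less than `τ`, then
`u x = sInf ({s | Reach M r x s} ∪ {τ}) / τ` is a crossing function with `|u x - u y| ≤ r w / τ` for
vertices `x`, `y` of the cell of `w`, and `cap M ≤ EM M u u ≤ 16 ∑ r(w)^2 / τ^2`. -/
theorem reach_right (M : ℕ) {r : List Dig → ℝ} (hr : ∀ w, 0 ≤ r w) {τ : ℝ} (hτ : 0 < τ)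
    (h : 16 * ∑ w ∈ words M, r w ^ 2 < τ ^ 2 * cap M) :
    ∃ x ∈ right, ∃ s < τ, Reach M r x s := by
  by_contra hcon
  push Not at hcon
  set A : K → Set ℝ := fun x => {s | Reach M r x s} ∪ {τ} with hA
  have hbdd : ∀ x, BddBelow (A x) := by
    intro x
    refine ⟨0, ?_⟩
    rintro s (hs | hs)
    · exact cross_reach_nonneg hr hs
    · rw [Set.mem_singleton_iff.1 hs]
      exact hτ.le
  have hne : ∀ x, (A x).Nonempty := fun x => ⟨τ, Or.inr rfl⟩
  set u : K → ℝ := fun x => sInf (A x) / τ with hu
  have hcross : IsCross u := by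
    constructor
    · intro x hx
      have h1 : sInf (A x) = 0 := by
        refine le_antisymm (csInf_le (hbdd x) (Or.inl (Reach.base hx))) ?_
        refine le_csInf (hne x) ?_
        rintro s (hs | hs)
        · exact cross_reach_nonneg hr hs
        · rw [Set.mem_singleton_iff.1 hs]
          exact hτ.le
      show sInf (A x) / τ = 0
      rw [h1, zero_div]
    · intro x hx
      have h1 : sInf (A x) = τ := by
        refine le_antisymm (csInf_le (hbdd x) (Or.inr rfl)) ?_
        refine le_csInf (hne x) ?_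
        rintro s (hs | hs)
        · by_contra hlt
          exact hcon x hx s (not_le.1 hlt) hs
        · rw [Set.mem_singleton_iff.1 hs]
      show sInf (A x) / τ = 1
      rw [h1, div_self hτ.ne']
  have hstep : ∀ w : List Dig, w.length = M → ∀ c ∈ corners, ∀ c' ∈ corners,
      sInf (A (Fw w c')) ≤ sInf (A (Fw w c)) + r w := by
    intro w hw c hc c' hc'
    rw [← sub_le_iff_le_add]
    refine le_csInf (hne _) ?_
    rintro s (hs | hs)
    · rw [sub_le_iff_le_add]
      exact csInf_le (hbdd _) (Or.inl (Reach.step hw hc hc' hs))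
    · rw [sub_le_iff_le_add, Set.mem_singleton_iff.1 hs]
      have h1 : sInf (A (Fw w c')) ≤ τ := csInf_le (hbdd _) (Or.inr rfl)
      have h2 := hr w
      linarith
  have hosc := EM_le_of_osc M u (fun w => (r w / τ) ^ 2) (by
    intro w hw c hc c' hc'
    have hw' := mem_words.1 hw
    have h1 := hstep w hw' c hc c' hc'
    have h2 := hstep w hw' c' hc' c hc
    have h3 : |u (Fw w c) - u (Fw w c')| ≤ r w / τ := by
      show |sInf (A (Fw w c)) / τ - sInf (A (Fw w c')) / τ| ≤ r w / τ
      rw [← sub_div, abs_div, abs_of_pos hτ]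
      refine div_le_div_of_nonneg_right ?_ hτ.le
      rw [abs_le]
      constructor <;> linarith
    have h4 := pow_le_pow_left₀ (abs_nonneg _) h3 2
    rwa [sq_abs] at h4)
  have hcap := cap_le M hcross
  have h1 : 16 * ∑ w ∈ words M, (r w / τ) ^ 2 = (16 * ∑ w ∈ words M, r w ^ 2) / τ ^ 2 := by
    rw [mul_div_assoc, Finset.sum_div]
    congr 1
    exact Finset.sum_congr rfl fun w _ => div_pow _ _ _
  rw [h1] at hosc
  have h2 := hcap.trans hosc
  rw [le_div_iff₀ (by positivity)] at h2
  linarith

/-- A connected set of words from the left side to the point `x`. -/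
def CrossTo (M : ℕ) (g k : K → ℝ) (x : K) (s : ℝ) : Prop :=
  ∃ T : Set (List Dig), (∀ w ∈ T, w.length = M) ∧ (∃ s0 ∈ T, (pos s0).1 = 0 ∧
    ∀ a ∈ T, Linked T s0 a) ∧ (∃ t ∈ T, ∃ c ∈ corners, Fw t c = x) ∧
    ValNear g T (g x) s ∧ ValNear k T (k x) s

theorem cross_osc (g : K → ℝ) (w : List Dig) {c c' : K} (hc : c ∈ corners) (hc' : c' ∈ corners) :
    |g (Fw w c) - g (Fw w c')| ≤ √(Q (fun x => g (Fw w x)) (fun x => g (Fw w x))) :=
  Real.abs_le_sqrt (sq_le_Q (fun x => g (Fw w x)) hc hc')

theorem cross_reach {M : ℕ} (g k : K → ℝ) {x : K} {s : ℝ}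
    (h : Reach M (fun w => √(Q (fun x => g (Fw w x)) (fun x => g (Fw w x))) +
      √(Q (fun x => k (Fw w x)) (fun x => k (Fw w x)))) x s) :
    x ∈ left ∨ CrossTo M g k x s := by
  induction h with
  | base hx => exact Or.inl hx
  | @step w c c' s hw hc hc' h ih =>
    right
    have hs : 0 ≤ s := cross_reach_nonneg (fun w => by positivity) h
    set rg := √(Q (fun x => g (Fw w x)) (fun x => g (Fw w x))) with hrg
    set rk := √(Q (fun x => k (Fw w x)) (fun x => k (Fw w x))) with hrk
    have hrg0 : 0 ≤ rg := Real.sqrt_nonneg _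
    have hrk0 : 0 ≤ rk := Real.sqrt_nonneg _
    rcases ih with hx | ⟨T, hT1, ⟨s0, hs0, hs0p, hs0l⟩, ⟨t, ht, c1, hc1, hct⟩, hg, hk⟩
    · refine ⟨{w}, ?_, ⟨w, rfl, (Fw_mem_left hx).2, ?_⟩, ⟨w, rfl, c', hc', rfl⟩, ?_, ?_⟩
      · rintro _ rfl
        exact hw
      · rintro _ rfl
        exact Relation.ReflTransGen.refl
      · intro a ha c'' hc''
        rw [Set.mem_singleton_iff.1 ha]
        have := cross_osc g w hc'' hc'
        rw [← hrg] at this
        linarith
      · intro a ha c'' hc''
        rw [Set.mem_singleton_iff.1 ha]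
        have := cross_osc k w hc'' hc'
        rw [← hrk] at this
        linarith
    · have htw : near 1 t w := near_of_mem ((hT1 t ht).trans hw.symm)
        (x := Fw w c) ⟨c1, hct⟩ ⟨c, rfl⟩
      refine ⟨insert w T, ?_, ⟨s0, Or.inr hs0, hs0p, ?_⟩, ⟨w, Or.inl rfl, c', hc', rfl⟩, ?_, ?_⟩
      · rintro a (rfl | ha)
        · exact hw
        · exact hT1 a ha
      · rintro a (rfl | ha)
        · exact (l2_linked_mono (Set.subset_insert _ _) (hs0l t ht)).tail ⟨Or.inl rfl, htw⟩
        · exact l2_linked_mono (Set.subset_insert _ _) (hs0l a ha)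
      · rintro a (rfl | ha) c'' hc''
        · have := cross_osc g a hc'' hc'
          rw [← hrg] at this
          linarith
        · have h1 := hg a ha c'' hc''
          have h2 := cross_osc g w hc hc'
          rw [← hrg] at h2
          have h3 := abs_sub_le (g (Fw a c'')) (g (Fw w c)) (g (Fw w c'))
          linarith
      · rintro a (rfl | ha) c'' hc''
        · have := cross_osc k a hc'' hc'
          rw [← hrk] at this
          linarith
        · have h1 := hk a ha c'' hc''
          have h2 := cross_osc k w hc hc'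
          rw [← hrk] at h2
          have h3 := abs_sub_le (k (Fw a c'')) (k (Fw w c)) (k (Fw w c'))
          linarith

/-- Apply `reach_right` with `r w = sqrt (Q (g ∘ Fw w)) + sqrt (Q (k ∘ Fw w))`; then follow the
definition of `Reach`: for `Reach M r x s` either `x ∈ left`, or there is a connected set `T` of words
reaching from the left side to a word with vertex `x`, with `ValNear g T (g x) s` and
`ValNear k T (k x) s`. -/
theorem exists_hcross (M : ℕ) (g k : K → ℝ) {τ : ℝ} (hτ : 0 < τ)
    (h : 32 * (EM M g g + EM M k k) < τ ^ 2 * cap M) :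
    ∃ T, HCross M T ∧ ∃ x ∈ right, ValNear g T (g x) τ ∧ ValNear k T (k x) τ := by
  have h1 : 16 * ∑ w ∈ words M, (√(Q (fun x => g (Fw w x)) (fun x => g (Fw w x))) +
      √(Q (fun x => k (Fw w x)) (fun x => k (Fw w x)))) ^ 2 < τ ^ 2 * cap M := by
    refine lt_of_le_of_lt ?_ h
    unfold EM
    rw [← Finset.sum_add_distrib, Finset.mul_sum, Finset.mul_sum]
    refine Finset.sum_le_sum fun w _ => ?_
    have e1 := Real.sq_sqrt (Q_nonneg (fun x => g (Fw w x)))
    have e2 := Real.sq_sqrt (Q_nonneg (fun x => k (Fw w x)))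
    set p := √(Q (fun x => g (Fw w x)) (fun x => g (Fw w x)))
    set q := √(Q (fun x => k (Fw w x)) (fun x => k (Fw w x)))
    rw [← e1, ← e2]
    nlinarith [sq_nonneg (p - q)]
  obtain ⟨x, hx, s, hs, hR⟩ := reach_right M (fun w => by positivity) hτ h1
  rcases cross_reach g k hR with hl | ⟨T, hT1, ⟨s0, hs0, hs0p, hs0l⟩, ⟨t, ht, c1, hc1, hct⟩,
    hg, hk⟩
  · exfalso
    have e1 : x.1.1 = 0 := hl
    have e2 : x.1.1 = 1 := hx
    rw [e1] at e2
    exact zero_ne_one e2
  · refine ⟨T, ⟨hT1, s0, hs0, hs0p, ⟨t, ht, ?_⟩, hs0l⟩, x, hx, ?_, ?_⟩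
    · rw [← hct] at hx
      have := (Fw_mem_right hx).2
      rw [hT1 t ht] at this
      rw [this, sub_add_cancel]
    · intro w hw c hc
      exact (hg w hw c hc).trans hs.le
    · intro w hw c hc
      exact (hk w hw c hc).trans hs.le

theorem cross_pos_swap (w : List Dig) : pos (w.map Dig.swap) = ((pos w).2, (pos w).1) := by
  induction w with
  | nil => rfl
  | cons d w ih =>
    simp only [List.map_cons, pos, ih, List.length_map, Dig.swap_x, Dig.swap_y]

theorem cross_swap_swap (w : List Dig) : (w.map Dig.swap).map Dig.swap = w := by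
  rw [List.map_map]
  have : Dig.swap ∘ Dig.swap = id := by
    funext d
    exact Dig.ext' rfl rfl
  rw [this, List.map_id]

theorem cross_near_swap {u v : List Dig} (h : near 1 u v) :
    near 1 (u.map Dig.swap) (v.map Dig.swap) := by
  unfold near at h ⊢
  rw [cross_pos_swap, cross_pos_swap]
  exact ⟨h.2, h.1⟩

/-- `exists_hcross` for `g ∘ swapXY`, `k ∘ swapXY`. -/
theorem exists_vcross (M : ℕ) (g k : K → ℝ) {τ : ℝ} (hτ : 0 < τ)
    (h : 32 * (EM M g g + EM M k k) < τ ^ 2 * cap M) :
    ∃ T, VCross M T ∧ ∃ x ∈ top, ValNear g T (g x) τ ∧ ValNear k T (k x) τ := by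
  obtain ⟨T, ⟨hT1, s0, hs0, hs0p, ⟨t, ht, htp⟩, hs0l⟩, x, hx, hg, hk⟩ :=
    exists_hcross M (fun x => g (swapXY x)) (fun x => k (swapXY x)) hτ
      (by rw [EM_swapXY, EM_swapXY]; exact h)
  have hFw : ∀ (w : List Dig) (c : K), Fw w c = swapXY (Fw (w.map Dig.swap) (swapXY c)) := by
    intro w c
    have h1 := congrArg (fun f : C(K, K) => f c) (swapXY_Fw w)
    simp only [ContinuousMap.comp_apply] at h1
    rw [← h1, swapXY_swapXY]
  have hval : ∀ (f : K → ℝ) (a : ℝ), ValNear (fun x => f (swapXY x)) T a τ →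
      ValNear f {w | w.map Dig.swap ∈ T} a τ := by
    intro f a hf w hw c hc
    rw [hFw w c]
    exact hf _ hw _ (swapXY_corners hc)
  refine ⟨{w | w.map Dig.swap ∈ T}, ⟨?_, s0.map Dig.swap, ?_, ?_, ⟨t.map Dig.swap, ?_, ?_⟩, ?_⟩,
    swapXY x, hx, hval g _ hg, hval k _ hk⟩
  · intro w hw
    have := hT1 _ hw
    rwa [List.length_map] at this
  · show (s0.map Dig.swap).map Dig.swap ∈ T
    rw [cross_swap_swap]
    exact hs0
  · rw [cross_pos_swap]
    exact hs0p
  · show (t.map Dig.swap).map Dig.swap ∈ T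
    rw [cross_swap_swap]
    exact ht
  · rw [cross_pos_swap]
    exact htp
  · intro a ha
    have h1 := hs0l _ ha
    have h2 : Linked {w : List Dig | w.map Dig.swap ∈ T} (s0.map Dig.swap)
        ((a.map Dig.swap).map Dig.swap) := by
      generalize a.map Dig.swap = b at h1
      induction h1 with
      | refl => exact Relation.ReflTransGen.refl
      | @tail p q h3 h4 ih =>
        refine ih.tail ⟨?_, cross_near_swap h4.2⟩
        show (q.map Dig.swap).map Dig.swap ∈ T
        rw [cross_swap_swap]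
        exact h4.1
    rw [cross_swap_swap] at h2
    exact h2

end Pool.Agent.Helper67.CF
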