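import Pool.Agent.Helper67.CF.Cap

/-! Module Glue: gluing of functions on cells (no continuity needed), columns. -/

open Filter Topology Pool.Agent.Helper67.SC

noncomputable section

namespace Pool.Agent.Helper67.CF

/-- Gluing of arbitrary functions on the cells of level `n` (see `SC.glue` in SC/G3). -/
theorem glueP (n : ℕ) (g : List Dig → K → ℝ)
    (h : ∀ u v : List Dig, u.length = n → v.length = n → ∀ x y, Fw u x = Fw v y → g u x = g v y) :
    ∃ f : K → ℝ, ∀ u : List Dig, u.length = n → ∀ x, f (Fw u x) = g u x := by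
  have hex : ∀ x : K, ∃ p : List Dig × K, p.1.length = n ∧ Fw p.1 p.2 = x := by
    intro x
    obtain ⟨w, hw, y, hy⟩ := exists_cell n x
    exact ⟨(w, y), hw, hy⟩
  choose p hp1 hp2 using hex
  refine ⟨fun x => g (p x).1 (p x).2, fun u hu y => ?_⟩
  exact h _ _ (hp1 _) hu _ _ (hp2 _)

theorem glueP_continuous (n : ℕ) {f : K → ℝ}
    (h : ∀ u : List Dig, u.length = n → Continuous fun x => f (Fw u x)) : Continuous f := by
  rw [continuous_iff_isClosed]
  intro C hC
  have e : f ⁻¹' C = ⋃ u ∈ words n, Fw u '' ((fun x => f (Fw u x)) ⁻¹' C) := by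
    ext x
    simp only [Set.mem_preimage, Set.mem_iUnion, Set.mem_image, exists_prop]
    constructor
    · intro hx
      obtain ⟨w, hw, y, hy⟩ := exists_cell n x
      refine ⟨w, mem_words.2 hw, y, ?_, hy⟩
      rw [hy]
      exact hx
    · rintro ⟨u, hu, y, hy, rfl⟩
      exact hy
  rw [e]
  refine (words n).finite_toSet.isClosed_biUnion fun u hu => ?_
  have hc : IsClosed ((fun x => f (Fw u x)) ⁻¹' C) := hC.preimage (h u (mem_words.1 hu))
  exact (hc.isCompact.image (Fw u).continuous).isClosed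

theorem flipY_F (d : Dig) : ∃ e : Dig, e.x = d.x ∧ ∀ x, flipY (F d x) = F e (flipY x) := by
  refine ⟨d.swap.flip.swap, rfl, fun x => ?_⟩
  apply K_ext
  · rfl
  · rw [flipY_apply, F_apply2, F_apply2, flipY_apply]
    have h : ((d.swap.flip.swap.y : ℤ) : ℝ) = 2 - d.y := by
      rw [Dig.swap_y, Dig.flip_x, Dig.swap_x]
    rw [h]
    ring

theorem col_glue_aux {u : K → ℝ} (hu : IsCross u) (hy : ∀ x, u (flipY x) = u x) (A : ℤ → ℝ → ℝ)
    (h0 : A 0 1 = A 1 0) (h1 : A 1 1 = A 2 0) (d e : Dig) (x y : K) (hxy : F d x = F e y) :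
    A d.x (u x) = A e.x (u y) := by
  have hx1 : (F d x).1.1 = (F e y).1.1 := by rw [hxy]
  have hx2 : (F d x).1.2 = (F e y).1.2 := by rw [hxy]
  rw [F_apply1, F_apply1] at hx1
  rw [F_apply2, F_apply2] at hx2
  have bx := K_bounds x
  have by' := K_bounds y
  have k1 : (x.1.1 : ℝ) + d.x = y.1.1 + e.x := by linarith
  have k2 : (x.1.2 : ℝ) + d.y = y.1.2 + e.y := by linarith
  have u1 : (d.x - e.x : ℤ) ≤ 1 := by
    have : ((d.x - e.x : ℤ) : ℝ) ≤ 1 := by push_cast; linarith [bx.1, by'.2.1]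
    exact_mod_cast this
  have u2 : -1 ≤ (d.x - e.x : ℤ) := by
    have : (-1 : ℝ) ≤ ((d.x - e.x : ℤ) : ℝ) := by push_cast; linarith [by'.1, bx.2.1]
    exact_mod_cast this
  have v1 : (d.y - e.y : ℤ) ≤ 1 := by
    have : ((d.y - e.y : ℤ) : ℝ) ≤ 1 := by push_cast; linarith [bx.2.2.1, by'.2.2.2]
    exact_mod_cast this
  have v2 : -1 ≤ (d.y - e.y : ℤ) := by
    have : (-1 : ℝ) ≤ ((d.y - e.y : ℤ) : ℝ) := by push_cast; linarith [by'.2.2.1, bx.2.2.2]
    exact_mod_cast this
  have dx0 := d.x_nonneg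
  have dx2 := d.x_le
  have ex0 := e.x_nonneg
  have ex2 := e.x_le
  have hc : d.x = e.x ∨ d.x = e.x + 1 ∨ e.x = d.x + 1 := by omega
  have key : ∀ (i j : ℤ), 0 ≤ i → j ≤ 2 → j = i + 1 → A i 1 = A j 0 := by
    intro i j hi hj hij
    have : i = 0 ∨ i = 1 := by omega
    rcases this with rfl | rfl
    · rw [hij]; exact h0
    · rw [hij]; exact h1
  rcases hc with hc | hc | hc
  · have e1 : x.1.1 = y.1.1 := by rw [hc] at k1; linarith
    have hd : d.y = e.y ∨ d.y = e.y + 1 ∨ e.y = d.y + 1 := by omega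
    rw [hc]
    congr 1
    rcases hd with hd | hd | hd
    · have e2 : x.1.2 = y.1.2 := by rw [hd] at k2; linarith
      rw [K_ext e1 e2]
    · have e2 : x.1.2 + 1 = y.1.2 := by rw [hd] at k2; push_cast at k2; linarith
      have e3 : y = flipY x := by
        apply K_ext
        · rw [flipY_apply]; exact e1.symm
        · rw [flipY_apply]
          linarith [bx.2.2.1, by'.2.2.2]
      rw [e3, hy]
    · have e2 : x.1.2 = y.1.2 + 1 := by rw [hd] at k2; push_cast at k2; linarith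
      have e3 : y = flipY x := by
        apply K_ext
        · rw [flipY_apply]; exact e1.symm
        · rw [flipY_apply]
          linarith [bx.2.2.2, by'.2.2.1]
      rw [e3, hy]
  · have e1 : x.1.1 + 1 = y.1.1 := by rw [hc] at k1; push_cast at k1; linarith
    have hx0 : x.1.1 = 0 := by linarith [bx.1, by'.2.1]
    have hy1 : y.1.1 = 1 := by linarith [bx.1, by'.2.1]
    rw [hu.1 x hx0, hu.2 y hy1]
    exact (key e.x d.x ex0 dx2 hc).symm
  · have e1 : x.1.1 = y.1.1 + 1 := by rw [hc] at k1; push_cast at k1; linarith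
    have hx0 : x.1.1 = 1 := by linarith [by'.1, bx.2.1]
    have hy1 : y.1.1 = 0 := by linarith [by'.1, bx.2.1]
    rw [hu.2 x hx0, hu.1 y hy1]
    exact key d.x e.x dx0 ex2 hc

/-- A function which on every cell of level one in column `i` is `A i ∘ u`. The digits `d`, `e`
with `F d x = F e y`: if `d.x = e.x` then `y = x` or `y = flipY x`; if `e.x = d.x + 1` then `x ∈ right`
and `y ∈ left`. -/
theorem col_glue {u : K → ℝ} (hu : IsCross u) (hy : ∀ x, u (flipY x) = u x) (A : ℤ → ℝ → ℝ)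
    (h0 : A 0 1 = A 1 0) (h1 : A 1 1 = A 2 0) :
    ∃ f : K → ℝ, (∀ (d : Dig) (x : K), f (F d x) = A d.x (u x)) ∧ (∀ x, f (flipY x) = f x) ∧
      (A 0 0 = 0 → A 2 1 = 1 → IsCross f) ∧
      (Continuous u → (∀ i, Continuous (A i)) → Continuous f) := by
  have hlen : ∀ w : List Dig, w.length = 1 → ∃ d, w = [d] := fun w hw => List.length_eq_one_iff.1 hw
  obtain ⟨f, hf⟩ := glueP 1 (fun w x => A (w.headD (dg 0 0)).x (u x)) (by
    intro s t hs ht x y hxy
    obtain ⟨d, rfl⟩ := hlen s hs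
    obtain ⟨e, rfl⟩ := hlen t ht
    exact col_glue_aux hu hy A h0 h1 d e x y hxy)
  have hf' : ∀ (d : Dig) (x : K), f (F d x) = A d.x (u x) := fun d x => hf [d] rfl x
  refine ⟨f, hf', fun x => ?_, fun ha hb => ⟨fun x hx => ?_, fun x hx => ?_⟩, fun hu' hA => ?_⟩
  · obtain ⟨d, y, rfl⟩ := exists_F x
    obtain ⟨e, he, he'⟩ := flipY_F d
    rw [he', hf', hf', he, hy]
  · obtain ⟨d, y, rfl⟩ := exists_F x
    have hx' : (F d y).1.1 = 0 := hx
    rw [F_apply1] at hx'
    have by' := K_bounds y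
    have hd : (0 : ℝ) ≤ d.x := by exact_mod_cast d.x_nonneg
    have e1 : y.1.1 = 0 := by linarith [by'.1]
    have e2 : (d.x : ℝ) = 0 := by linarith [by'.1]
    have e3 : d.x = 0 := by exact_mod_cast e2
    rw [hf', e3, hu.1 y e1, ha]
  · obtain ⟨d, y, rfl⟩ := exists_F x
    have hx' : (F d y).1.1 = 1 := hx
    rw [F_apply1] at hx'
    have by' := K_bounds y
    have hd : (d.x : ℝ) ≤ 2 := by exact_mod_cast d.x_le
    have e1 : y.1.1 = 1 := by linarith [by'.2.1]
    have e2 : (d.x : ℝ) = 2 := by linarith [by'.2.1]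
    have e3 : d.x = 2 := by exact_mod_cast e2
    rw [hf', e3, hu.2 y e1, hb]
  · refine glueP_continuous 1 fun w hw => ?_
    obtain ⟨d, rfl⟩ := hlen w hw
    have : (fun x => f (Fw [d] x)) = fun x => A d.x (u x) := by
      funext x
      exact hf' d x
    rw [this]
    exact (hA d.x).comp hu'

theorem glue_EM_affine (M : ℕ) (a b : ℝ) (u : K → ℝ) :
    EM M (fun x => a + b * u x) (fun x => a + b * u x) = b ^ 2 * EM M u u := by
  have h1 := EM_add_left M (fun _ => a) (fun x => b * u x) (fun x => a + b * u x)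
  rw [h1, EM_const, zero_add, EM_comm]
  have h2 := EM_add_left M (fun _ => a) (fun x => b * u x) (fun x => b * u x)
  rw [h2, EM_const, zero_add, EM_smul]

theorem glue_sum_Dig (φ : ℤ → ℝ) : ∑ d : Dig, φ d.x = 3 * φ 0 + 2 * φ 1 + 3 * φ 2 := by
  have h : ∑ d : Dig, φ d.x = ∑ p ∈ (Finset.univ : Finset (Fin 3 × Fin 3)).filter (fun d => d ≠ (1, 1)),
      φ ((p.1 : ℕ) : ℤ) := by
    rw [← Finset.sum_subtype_eq_sum_filter]
    refine Finset.sum_congr ?_ fun d _ => rfl
    ext d
    simp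
  rw [h, Finset.sum_filter, Fintype.sum_prod_type]
  simp [Fin.sum_univ_three]
  ring

/-- Apply `col_glue` with `A 0 t = 2/7 t`, `A 1 t = 2/7 + 3/7 t`, `A 2 t = 5/7 + 2/7 t`; there are
`3`, `2`, `3` digits in the columns, and `6 (2/7)^2 + 2 (3/7)^2 = 6/7`. -/
theorem cap_succ_le (M : ℕ) : cap (M + 1) ≤ 6 / 7 * cap M := by
  refine le_of_forall_pos_le_add fun ε hε => ?_
  obtain ⟨u, hu, huy, -, huE⟩ := exists_near M hε
  set a : ℤ → ℝ := fun i => if i = 0 then 0 else if i = 1 then 2 / 7 else 5 / 7 with ha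
  set b : ℤ → ℝ := fun i => if i = 1 then 3 / 7 else 2 / 7 with hb
  obtain ⟨f, hf, -, hfc, -⟩ := col_glue hu huy (fun i t => a i + b i * t)
    (by norm_num [ha, hb]) (by norm_num [ha, hb])
  have hc := hfc (by norm_num [ha, hb]) (by norm_num [ha, hb])
  have h1 : EM (M + 1) f f = 6 / 7 * EM M u u := by
    rw [EM_succ]
    have h2 : ∀ d : Dig, EM M (fun x => f (F d x)) (fun x => f (F d x)) = b d.x ^ 2 * EM M u u := by
      intro d
      have : (fun x => f (F d x)) = fun x => a d.x + b d.x * u x := by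
        funext x
        exact hf d x
      rw [this, glue_EM_affine]
    rw [Finset.sum_congr rfl fun d _ => h2 d]
    rw [← Finset.sum_mul, glue_sum_Dig (fun i => b i ^ 2)]
    norm_num [hb]
  have h3 := cap_le (M + 1) hc
  rw [h1] at h3
  linarith

end Pool.Agent.Helper67.CF
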