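import Pool.Agent.Helper67.CF.DomB
import Pool.Agent.Helper67.CF.Glue

/-! Module Dense: the domain is uniformly dense. -/

open Filter Topology Pool.Agent.Helper67.SC

noncomputable section

namespace Pool.Agent.Helper67.CF

/-- `f_0 = u`, `f_(n+1) ∘ F d = (d.x + f_n) / 3` (`col_glue` with `A i t = (i + t) / 3`, `dom_of_comp_F`). -/
theorem approx_fst {ρ : ℝ} (hρ : 0 < ρ) {u : K → ℝ} (hu : u ∈ Dom ρ) (h : IsCross u)
    (hy : ∀ x, u (flipY x) = u x) {B : ℝ} (hB : ∀ x, |u x - x.1.1| ≤ B) (n : ℕ) :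
    ∃ f ∈ Dom ρ, IsCross f ∧ (∀ x, f (flipY x) = f x) ∧ ∀ x, |f x - x.1.1| ≤ B / 3 ^ n := by
  induction n with
  | zero => exact ⟨u, hu, h, hy, by simpa using hB⟩
  | succ n ih =>
    obtain ⟨f, hf, hfc, hfy, hfB⟩ := ih
    obtain ⟨g, hg, hgy, hgc, hgcont⟩ := col_glue hfc hfy (fun i t => ((i : ℝ) + t) / 3)
      (by norm_num) (by norm_num)
    refine ⟨g, ?_, hgc (by norm_num) (by norm_num), hgy, ?_⟩
    · refine dom_of_comp_F hρ (hgcont hf.1 fun i => by fun_prop) fun d => ?_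
      have e : (fun x => g (F d x)) = fun x => (fun _ : K => ((d.x : ℤ) : ℝ) / 3) x +
          (fun x => (1 / 3 : ℝ) * f x) x := by
        funext x
        rw [hg]
        ring
      rw [e]
      exact dom_add hρ (dom_const _) (dom_smul hρ _ hf)
    · intro x
      obtain ⟨d, y, rfl⟩ := exists_F x
      rw [hg, F_apply1]
      have e : ((d.x : ℝ) + f y) / 3 - (y.1.1 + (d.x : ℝ)) / 3 = (f y - y.1.1) / 3 := by ring
      rw [e, abs_div, abs_of_pos (by norm_num : (0 : ℝ) < 3), pow_succ, ← div_div]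
      exact div_le_div_of_nonneg_right (hfB y) (by norm_num)

/-- the domain as a subalgebra of the continuous functions -/
def dense_alg {ρ : ℝ} (hρ : 0 < ρ) : Subalgebra ℝ C(K, ℝ) where
  carrier := {f | (f : K → ℝ) ∈ Dom ρ}
  mul_mem' := fun {f g} hf hg => dom_mul hρ hf hg
  add_mem' := fun {f g} hf hg => dom_add hρ hf hg
  algebraMap_mem' := fun r => dom_const r

/-- Stone-Weierstrass: the closure of the subalgebra `Dom ρ` of `C(K, ℝ)` contains both coordinate
functions (`approx_fst`, `dom_swapXY`), hence separates points. -/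
theorem dom_dense {ρ : ℝ} (hρ : 0 < ρ) {u : K → ℝ} (hu : u ∈ Dom ρ) (h : IsCross u)
    (hy : ∀ x, u (flipY x) = u x) (f : K → ℝ) (hf : Continuous f) {ε : ℝ} (hε : 0 < ε) :
    ∃ g ∈ Dom ρ, ∀ x, |f x - g x| < ε := by
  have hcont : Continuous fun x : K => u x - x.1.1 := hu.1.sub (by fun_prop)
  obtain ⟨B, hB⟩ : ∃ B, ∀ x, |u x - x.1.1| ≤ B := by
    obtain ⟨x0, -, hx0⟩ := isCompact_univ.exists_isMaxOn (⟨c00, Set.mem_univ _⟩ : Set.univ.Nonempty)
      (hcont.abs).continuousOn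
    exact ⟨_, fun x => hx0 (Set.mem_univ x)⟩
  have hB0 : 0 ≤ B := (abs_nonneg _).trans (hB c00)
  have hsmall : ∀ δ > 0, ∃ n : ℕ, B / 3 ^ n < δ := by
    intro δ hδ
    obtain ⟨n, hn⟩ := exists_pow_lt_of_lt_one (show 0 < δ / (B + 1) by positivity)
      (show (1 / 3 : ℝ) < 1 by norm_num)
    refine ⟨n, ?_⟩
    have h1 : B / 3 ^ n = B * (1 / 3) ^ n := by rw [one_div, inv_pow]; rfl
    rw [h1]
    rw [lt_div_iff₀ (by positivity)] at hn
    have h3 : (0 : ℝ) < (1 / 3) ^ n := by positivity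
    nlinarith
  have happ : ∀ δ > 0, ∃ g ∈ Dom ρ, ∀ x : K, |g x - x.1.1| < δ := by
    intro δ hδ
    obtain ⟨n, hn⟩ := hsmall δ hδ
    obtain ⟨g, hg, -, -, hgB⟩ := approx_fst hρ hu h hy hB n
    exact ⟨g, hg, fun x => (hgB x).trans_lt hn⟩
  have hsep : (dense_alg hρ).SeparatesPoints := by
    intro x y hxy
    by_cases h1 : x.1.1 = y.1.1
    · have h2 : x.1.2 ≠ y.1.2 := fun h2 => hxy (K_ext h1 h2)
      obtain ⟨g, hg, hgB⟩ := happ (|x.1.2 - y.1.2| / 2) (by
        have := abs_pos.2 (sub_ne_zero.2 h2)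
        positivity)
      refine ⟨fun z => g (swapXY z), ⟨⟨fun z => g (swapXY z), (dom_swapXY hg).1⟩,
        dom_swapXY hg, rfl⟩, ?_⟩
      intro he
      have e1 := hgB (swapXY x)
      have e2 := hgB (swapXY y)
      simp only [swapXY_apply] at e1 e2
      have he' : g (swapXY x) = g (swapXY y) := he
      rw [he'] at e1
      have : |x.1.2 - y.1.2| < |x.1.2 - y.1.2| / 2 + |x.1.2 - y.1.2| / 2 := by
        calc |x.1.2 - y.1.2| = |(g (swapXY y) - y.1.2) - (g (swapXY y) - x.1.2)| := by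
              congr 1; ring
          _ ≤ |g (swapXY y) - y.1.2| + |g (swapXY y) - x.1.2| := abs_sub _ _
          _ < _ := add_lt_add e2 e1
      linarith
    · obtain ⟨g, hg, hgB⟩ := happ (|x.1.1 - y.1.1| / 2) (by
        have := abs_pos.2 (sub_ne_zero.2 h1)
        positivity)
      refine ⟨g, ⟨⟨g, hg.1⟩, hg, rfl⟩, ?_⟩
      intro he
      have e1 := hgB x
      have e2 := hgB y
      rw [he] at e1
      have : |x.1.1 - y.1.1| < |x.1.1 - y.1.1| / 2 + |x.1.1 - y.1.1| / 2 := by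
        calc |x.1.1 - y.1.1| = |(g y - y.1.1) - (g y - x.1.1)| := by
              congr 1; ring
          _ ≤ |g y - y.1.1| + |g y - x.1.1| := abs_sub _ _
          _ < _ := add_lt_add e2 e1
      linarith
  obtain ⟨g, hg⟩ := ContinuousMap.exists_mem_subalgebra_near_continuous_of_separatesPoints
    (dense_alg hρ) hsep f hf ε hε
  refine ⟨_, g.2, fun x => ?_⟩
  have := hg x
  rw [Real.norm_eq_abs, abs_sub_comm] at this
  exact this

end Pool.Agent.Helper67.CF
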