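import Pool.Agent.Helper67.CF.EnBasic

/-! Module DomB: the domain is an algebra stable under all operations. -/

open Filter Topology Pool.Agent.Helper67.SC

noncomputable section

namespace Pool.Agent.Helper67.CF

variable {ρ : ℝ}

theorem dom_const (c : ℝ) : (fun _ => c) ∈ Dom ρ := by
  refine ⟨continuous_const, 0, fun M => ?_⟩
  rw [EM_const, mul_zero]

theorem dom_add (hρ : 0 < ρ) {f g : K → ℝ} (hf : f ∈ Dom ρ) (hg : g ∈ Dom ρ) :
    (fun x => f x + g x) ∈ Dom ρ := by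
  obtain ⟨hf1, B, hB⟩ := hf
  obtain ⟨hg1, B', hB'⟩ := hg
  refine ⟨hf1.add hg1, 2 * B + 2 * B', fun M => ?_⟩
  have h1 := mul_le_mul_of_nonneg_left (EM_add_le M f g) (pow_nonneg hρ.le M)
  have h2 := hB M
  have h3 := hB' M
  linarith

theorem dom_smul (hρ : 0 < ρ) (c : ℝ) {f : K → ℝ} (hf : f ∈ Dom ρ) :
    (fun x => c * f x) ∈ Dom ρ := by
  obtain ⟨hf1, B, hB⟩ := hf
  refine ⟨continuous_const.mul hf1, c ^ 2 * B, fun M => ?_⟩
  rw [EM_smul]
  have h2 := mul_le_mul_of_nonneg_left (hB M) (sq_nonneg c)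
  linarith

theorem domB_bdd {f : K → ℝ} (hf : Continuous f) : ∃ A : ℝ, ∀ x, |f x| ≤ A := by
  obtain ⟨A, hA⟩ := (isCompact_range hf).isBounded.exists_norm_le
  exact ⟨A, fun x => hA _ ⟨x, rfl⟩⟩

theorem dom_mul (hρ : 0 < ρ) {f g : K → ℝ} (hf : f ∈ Dom ρ) (hg : g ∈ Dom ρ) :
    (fun x => f x * g x) ∈ Dom ρ := by
  obtain ⟨hf1, B, hB⟩ := hf
  obtain ⟨hg1, B', hB'⟩ := hg
  obtain ⟨A, hA⟩ := domB_bdd hf1
  obtain ⟨A', hA'⟩ := domB_bdd hg1
  refine ⟨hf1.mul hg1, 2 * A' ^ 2 * B + 2 * A ^ 2 * B', fun M => ?_⟩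
  have h1 := mul_le_mul_of_nonneg_left (EM_mul_le M f g hA hA') (pow_nonneg hρ.le M)
  have h2 := mul_le_mul_of_nonneg_left (hB M) (sq_nonneg A')
  have h3 := mul_le_mul_of_nonneg_left (hB' M) (sq_nonneg A)
  linarith

theorem domB_trunc_le (f : K → ℝ) (x y : K) : |trunc f x - trunc f y| ≤ |f x - f y| := by
  unfold trunc
  have h1 : |min (f x) 1 - min (f y) 1| ≤ |f x - f y| := by
    have := abs_min_sub_min_le_max (f x) 1 (f y) 1
    rwa [sub_self, abs_zero, max_eq_left (abs_nonneg _)] at this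
  have h2 : |max 0 (min (f x) 1) - max 0 (min (f y) 1)| ≤ |min (f x) 1 - min (f y) 1| := by
    have := abs_max_sub_max_le_max 0 (min (f x) 1) 0 (min (f y) 1)
    refine this.trans (max_le ?_ le_rfl)
    rw [sub_self, abs_zero]
    exact abs_nonneg _
  exact h2.trans h1

theorem EM_trunc_le (M : ℕ) (f : K → ℝ) : EM M (trunc f) (trunc f) ≤ EM M f f :=
  EM_mono (domB_trunc_le f)

theorem dom_trunc (hρ : 0 < ρ) {f : K → ℝ} (hf : f ∈ Dom ρ) : trunc f ∈ Dom ρ := by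
  obtain ⟨hf1, B, hB⟩ := hf
  refine ⟨continuous_const.max (hf1.min continuous_const), B, fun M => ?_⟩
  exact (mul_le_mul_of_nonneg_left (EM_trunc_le M f) (pow_nonneg hρ.le M)).trans (hB M)

theorem dom_comp_F (hρ : 0 < ρ) {f : K → ℝ} (hf : f ∈ Dom ρ) (d : Dig) :
    (fun x => f (F d x)) ∈ Dom ρ := by
  obtain ⟨hf1, B, hB⟩ := hf
  refine ⟨hf1.comp (F d).continuous, ρ⁻¹ * B, fun M => ?_⟩
  have h1 : EM M (fun x => f (F d x)) (fun x => f (F d x)) ≤ EM (M + 1) f f := by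
    rw [EM_succ]
    exact Finset.single_le_sum (f := fun d : Dig => EM M (fun x => f (F d x))
      (fun x => f (F d x))) (fun _ _ => EM_nonneg _ _) (Finset.mem_univ d)
  have h2 := mul_le_mul_of_nonneg_left h1 (pow_nonneg hρ.le M)
  have h3 : ρ ^ M * EM (M + 1) f f = ρ⁻¹ * (ρ ^ (M + 1) * EM (M + 1) f f) := by
    rw [pow_succ]
    field_simp
  rw [h3] at h2
  exact h2.trans (mul_le_mul_of_nonneg_left (hB (M + 1)) (inv_nonneg.2 hρ.le))

theorem dom_of_comp_F (hρ : 0 < ρ) {f : K → ℝ} (hc : Continuous f)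
    (h : ∀ d, (fun x => f (F d x)) ∈ Dom ρ) : f ∈ Dom ρ := by
  choose B hB using fun d => (h d).2
  have hB0 : 0 ≤ ρ * ∑ d, B d := by
    refine mul_nonneg hρ.le (Finset.sum_nonneg fun d _ => ?_)
    have := hB d 0
    rw [pow_zero, one_mul] at this
    exact (EM_nonneg _ _).trans this
  refine ⟨hc, EM 0 f f + ρ * ∑ d, B d, fun M => ?_⟩
  rcases M with _ | M
  · rw [pow_zero, one_mul]
    linarith
  · have h1 : ρ ^ (M + 1) * EM (M + 1) f f =
        ρ * ∑ d : Dig, ρ ^ M * EM M (fun x => f (F d x)) (fun x => f (F d x)) := by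
      rw [EM_succ, ← Finset.mul_sum, pow_succ]
      ring
    rw [h1]
    have h2 := mul_le_mul_of_nonneg_left (Finset.sum_le_sum fun d (_ : d ∈ Finset.univ) =>
      hB d M) hρ.le
    have h3 := EM_nonneg 0 f
    linarith

theorem dom_flipX {f : K → ℝ} (hf : f ∈ Dom ρ) : (fun x => f (flipX x)) ∈ Dom ρ := by
  obtain ⟨hf1, B, hB⟩ := hf
  refine ⟨hf1.comp flipX.continuous, B, fun M => ?_⟩
  rw [EM_flipX]
  exact hB M

theorem dom_swapXY {f : K → ℝ} (hf : f ∈ Dom ρ) : (fun x => f (swapXY x)) ∈ Dom ρ := by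
  obtain ⟨hf1, B, hB⟩ := hf
  refine ⟨hf1.comp swapXY.continuous, B, fun M => ?_⟩
  rw [EM_swapXY]
  exact hB M

end Pool.Agent.Helper67.CF
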