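import Pool.Agent.Helper67.CF.Base

/-! Module EnBasic: elementary properties of the vertex energies. -/

open Filter Topology Pool.Agent.Helper67.SC

noncomputable section

namespace Pool.Agent.Helper67.CF

theorem mem_corners' {c : K} : c ∈ corners ↔ c = c00 ∨ c = c10 ∨ c = c01 ∨ c = c11 := by
  simp [corners]

theorem mem_corners {c : K} :
    c ∈ corners ↔ (c.1.1 = 0 ∨ c.1.1 = 1) ∧ (c.1.2 = 0 ∨ c.1.2 = 1) := by
  rw [mem_corners']
  constructor
  · rintro (rfl | rfl | rfl | rfl)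
    · exact ⟨Or.inl rfl, Or.inl rfl⟩
    · exact ⟨Or.inr rfl, Or.inl rfl⟩
    · exact ⟨Or.inl rfl, Or.inr rfl⟩
    · exact ⟨Or.inr rfl, Or.inr rfl⟩
  · rintro ⟨h1 | h1, h2 | h2⟩
    · exact Or.inl (K_ext h1 h2)
    · exact Or.inr (Or.inr (Or.inl (K_ext h1 h2)))
    · exact Or.inr (Or.inl (K_ext h1 h2))
    · exact Or.inr (Or.inr (Or.inr (K_ext h1 h2)))

theorem enb_ne : c00 ≠ c10 ∧ c00 ≠ c01 ∧ c00 ≠ c11 ∧ c10 ≠ c01 ∧ c10 ≠ c11 ∧ c01 ≠ c11 := by
  have a1 : c00.1.1 = 0 := rfl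
  have a2 : c00.1.2 = 0 := rfl
  have b1 : c10.1.1 = 1 := rfl
  have b2 : c10.1.2 = 0 := rfl
  have d1 : c01.1.1 = 0 := rfl
  have d2 : c01.1.2 = 1 := rfl
  have e1 : c11.1.1 = 1 := rfl
  have e2 : c11.1.2 = 1 := rfl
  refine ⟨fun h => ?_, fun h => ?_, fun h => ?_, fun h => ?_, fun h => ?_, fun h => ?_⟩
  · rw [h, b1] at a1; norm_num at a1
  · rw [h, d2] at a2; norm_num at a2
  · rw [h, e1] at a1; norm_num at a1
  · rw [h, d1] at b1; norm_num at b1
  · rw [h, e2] at b2; norm_num at b2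
  · rw [h, e1] at d1; norm_num at d1

theorem sum_corners (f : K → ℝ) : ∑ c ∈ corners, f c = f c00 + f c10 + f c01 + f c11 := by
  classical
  obtain ⟨h1, h2, h3, h4, h5, h6⟩ := enb_ne
  have e : corners = {c00, c10, c01, c11} := by
    ext c
    rw [mem_corners']
    simp
  rw [e, Finset.sum_insert (by simp [h1, h2, h3]), Finset.sum_insert (by simp [h4, h5]),
    Finset.sum_insert (by simp [h6]), Finset.sum_singleton]
  ring

theorem flipX_corners {c : K} (h : c ∈ corners) : flipX c ∈ corners := by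
  rw [mem_corners] at h ⊢
  rw [flipX_apply]
  obtain ⟨h1 | h1, h2⟩ := h
  · exact ⟨Or.inr (by simp [h1]), h2⟩
  · exact ⟨Or.inl (by simp [h1]), h2⟩

theorem flipY_corners {c : K} (h : c ∈ corners) : flipY c ∈ corners := by
  rw [mem_corners] at h ⊢
  rw [flipY_apply]
  obtain ⟨h1, h2 | h2⟩ := h
  · exact ⟨h1, Or.inr (by simp [h2])⟩
  · exact ⟨h1, Or.inl (by simp [h2])⟩

theorem swapXY_corners {c : K} (h : c ∈ corners) : swapXY c ∈ corners := by
  rw [mem_corners] at h ⊢
  rw [swapXY_apply]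
  exact ⟨h.2, h.1⟩

/-- see the proof of `exists_common` in SC/G1 -/
theorem exists_common_corner {u v : List Dig} (h : u.length = v.length) (hn : near 1 u v) :
    ∃ c ∈ corners, ∃ c' ∈ corners, Fw u c = Fw v c' := by
  obtain ⟨h1, h2⟩ := hn
  rw [abs_le] at h1 h2
  have hc : ∀ a b : ℤ, (a = 0 ∨ a = 1) → (b = 0 ∨ b = 1) →
      ∃ c ∈ corners, c.1.1 = a ∧ c.1.2 = b := by
    intro a b ha hb
    rcases ha with rfl | rfl <;> rcases hb with rfl | rfl
    · exact ⟨c00, mem_corners'.2 (by simp), by simp [c00], by simp [c00]⟩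
    · exact ⟨c01, mem_corners'.2 (by simp), by simp [c01], by simp [c01]⟩
    · exact ⟨c10, mem_corners'.2 (by simp), by simp [c10], by simp [c10]⟩
    · exact ⟨c11, mem_corners'.2 (by simp), by simp [c11], by simp [c11]⟩
  have ex : ∃ a a' : ℤ, (a = 0 ∨ a = 1) ∧ (a' = 0 ∨ a' = 1) ∧ (pos u).1 + a = (pos v).1 + a' := by
    have : (pos u).1 - (pos v).1 = -1 ∨ (pos u).1 - (pos v).1 = 0 ∨ (pos u).1 - (pos v).1 = 1 := by
      omega
    rcases this with e | e | e
    · exact ⟨1, 0, Or.inr rfl, Or.inl rfl, by omega⟩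
    · exact ⟨0, 0, Or.inl rfl, Or.inl rfl, by omega⟩
    · exact ⟨0, 1, Or.inl rfl, Or.inr rfl, by omega⟩
  have ey : ∃ a a' : ℤ, (a = 0 ∨ a = 1) ∧ (a' = 0 ∨ a' = 1) ∧ (pos u).2 + a = (pos v).2 + a' := by
    have : (pos u).2 - (pos v).2 = -1 ∨ (pos u).2 - (pos v).2 = 0 ∨ (pos u).2 - (pos v).2 = 1 := by
      omega
    rcases this with e | e | e
    · exact ⟨1, 0, Or.inr rfl, Or.inl rfl, by omega⟩
    · exact ⟨0, 0, Or.inl rfl, Or.inl rfl, by omega⟩
    · exact ⟨0, 1, Or.inl rfl, Or.inr rfl, by omega⟩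
  obtain ⟨a, a', ha, ha', e1⟩ := ex
  obtain ⟨b, b', hb, hb', e2⟩ := ey
  obtain ⟨c, hcc, hc1, hc2⟩ := hc a b ha hb
  obtain ⟨c', hcc', hc1', hc2'⟩ := hc a' b' ha' hb'
  refine ⟨c, hcc, c', hcc', ?_⟩
  apply K_ext
  · rw [Fw_apply1, Fw_apply1, hc1, hc1', h]
    congr 1
    exact_mod_cast e1
  · rw [Fw_apply2, Fw_apply2, hc2, hc2', h]
    congr 1
    exact_mod_cast e2

theorem Q_nonneg (f : K → ℝ) : 0 ≤ Q f f :=
  Finset.sum_nonneg fun _ _ => Finset.sum_nonneg fun _ _ => mul_self_nonneg _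

theorem sq_le_Q (f : K → ℝ) {c c' : K} (hc : c ∈ corners) (hc' : c' ∈ corners) :
    (f c - f c') ^ 2 ≤ Q f f := by
  rw [sq]
  have h1 : (f c - f c') * (f c - f c') ≤ ∑ c' ∈ corners, (f c - f c') * (f c - f c') :=
    Finset.single_le_sum (f := fun c' => (f c - f c') * (f c - f c'))
      (fun _ _ => mul_self_nonneg _) hc'
  have h2 : ∑ c' ∈ corners, (f c - f c') * (f c - f c') ≤ Q f f :=
    Finset.single_le_sum (f := fun c => ∑ c' ∈ corners, (f c - f c') * (f c - f c'))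
      (fun _ _ => Finset.sum_nonneg fun _ _ => mul_self_nonneg _) hc
  exact h1.trans h2

theorem enb_card : corners.card = 4 := by
  have h := sum_corners (fun _ => 1)
  simp only [Finset.sum_const, nsmul_eq_mul, mul_one] at h
  have h2 : ((corners.card : ℕ) : ℝ) = (4 : ℕ) := by rw [h]; norm_num
  exact_mod_cast h2

theorem Q_le (f : K → ℝ) {B : ℝ} (h : ∀ c ∈ corners, ∀ c' ∈ corners, (f c - f c') ^ 2 ≤ B) :
    Q f f ≤ 16 * B := by
  have h1 : Q f f ≤ ∑ c ∈ corners, ∑ c' ∈ corners, B := by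
    refine Finset.sum_le_sum fun c hc => Finset.sum_le_sum fun c' hc' => ?_
    rw [← sq]
    exact h c hc c' hc'
  refine h1.trans (le_of_eq ?_)
  simp only [Finset.sum_const, enb_card, nsmul_eq_mul]
  push_cast
  ring

theorem EM_zero (f g : K → ℝ) : EM 0 f g = Q f g := by
  unfold EM
  rw [sum_words_zero]
  rfl

theorem EM_nonneg (M : ℕ) (f : K → ℝ) : 0 ≤ EM M f f :=
  Finset.sum_nonneg fun _ _ => Q_nonneg _

theorem EM_comm (M : ℕ) (f g : K → ℝ) : EM M f g = EM M g f :=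
  Finset.sum_congr rfl fun _ _ => Finset.sum_congr rfl fun _ _ => Finset.sum_congr rfl fun _ _ =>
    mul_comm _ _

theorem EM_add_left (M : ℕ) (f g h : K → ℝ) :
    EM M (fun x => f x + g x) h = EM M f h + EM M g h := by
  unfold EM Q
  rw [← Finset.sum_add_distrib]
  refine Finset.sum_congr rfl fun _ _ => ?_
  rw [← Finset.sum_add_distrib]
  refine Finset.sum_congr rfl fun _ _ => ?_
  rw [← Finset.sum_add_distrib]
  refine Finset.sum_congr rfl fun _ _ => ?_
  ring

theorem EM_smul_left (M : ℕ) (c : ℝ) (f g : K → ℝ) :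
    EM M (fun x => c * f x) g = c * EM M f g := by
  unfold EM Q
  rw [Finset.mul_sum]
  refine Finset.sum_congr rfl fun _ _ => ?_
  rw [Finset.mul_sum]
  refine Finset.sum_congr rfl fun _ _ => ?_
  rw [Finset.mul_sum]
  refine Finset.sum_congr rfl fun _ _ => ?_
  ring

theorem EM_smul (M : ℕ) (c : ℝ) (f : K → ℝ) :
    EM M (fun x => c * f x) (fun x => c * f x) = c ^ 2 * EM M f f := by
  rw [EM_smul_left, EM_comm, EM_smul_left]
  ring

theorem EM_const (M : ℕ) (c : ℝ) (g : K → ℝ) : EM M (fun _ => c) g = 0 := by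
  unfold EM Q
  refine Finset.sum_eq_zero fun _ _ => Finset.sum_eq_zero fun _ _ => Finset.sum_eq_zero fun _ _ => ?_
  ring

theorem abs_EM_le (M : ℕ) (f g : K → ℝ) : |EM M f g| ≤ EM M f f + EM M g g := by
  unfold EM Q
  rw [← Finset.sum_add_distrib]
  refine (Finset.abs_sum_le_sum_abs _ _).trans (Finset.sum_le_sum fun w _ => ?_)
  rw [← Finset.sum_add_distrib]
  refine (Finset.abs_sum_le_sum_abs _ _).trans (Finset.sum_le_sum fun c _ => ?_)
  rw [← Finset.sum_add_distrib]
  refine (Finset.abs_sum_le_sum_abs _ _).trans (Finset.sum_le_sum fun c' _ => ?_)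
  generalize f (Fw w c) - f (Fw w c') = a
  generalize g (Fw w c) - g (Fw w c') = b
  rw [abs_le]
  constructor <;> nlinarith [sq_nonneg (a + b), sq_nonneg (a - b), sq_nonneg a, sq_nonneg b]

theorem EM_append (n M : ℕ) (f g : K → ℝ) : EM (n + M) f g =
    ∑ w ∈ words n, EM M (fun x => f (Fw w x)) (fun x => g (Fw w x)) := by
  unfold EM
  rw [sum_words_append]
  refine Finset.sum_congr rfl fun u _ => Finset.sum_congr rfl fun v _ => ?_
  rw [Fw_append]
  rfl

theorem EM_succ (M : ℕ) (f g : K → ℝ) : EM (M + 1) f g =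
    ∑ d : Dig, EM M (fun x => f (F d x)) (fun x => g (F d x)) := by
  unfold EM
  rw [sum_words_cons]
  rfl

/-- energy of a cell is at most the energy -/
theorem EM_cell_le (n M : ℕ) (f : K → ℝ) {w : List Dig} (hw : w.length = n) :
    EM M (fun x => f (Fw w x)) (fun x => f (Fw w x)) ≤ EM (n + M) f f := by
  rw [EM_append]
  exact Finset.single_le_sum (f := fun w => EM M (fun x => f (Fw w x)) (fun x => f (Fw w x)))
    (fun _ _ => EM_nonneg _ _) (mem_words.2 hw)

/-- Two digits: the sum of the energies of two different children is at most the energy. -/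
theorem EM_two_le (M : ℕ) (f : K → ℝ) {d e : Dig} (h : d ≠ e) :
    EM M (fun x => f (F d x)) (fun x => f (F d x)) + EM M (fun x => f (F e x)) (fun x => f (F e x))
      ≤ EM (M + 1) f f := by
  classical
  rw [EM_succ, ← Finset.sum_pair (f := fun d => EM M (fun x => f (F d x)) (fun x => f (F d x))) h]
  exact Finset.sum_le_sum_of_subset_of_nonneg (Finset.subset_univ _) fun _ _ _ => EM_nonneg _ _

theorem EM_mono {M : ℕ} {f g : K → ℝ} (h : ∀ x y, |g x - g y| ≤ |f x - f y|) :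
    EM M g g ≤ EM M f f := by
  refine Finset.sum_le_sum fun _ _ => Finset.sum_le_sum fun _ _ => Finset.sum_le_sum fun _ _ => ?_
  rw [← sq, ← sq]
  exact sq_le_sq.2 (h _ _)

theorem EM_add_le (M : ℕ) (f g : K → ℝ) :
    EM M (fun x => f x + g x) (fun x => f x + g x) ≤ 2 * EM M f f + 2 * EM M g g := by
  unfold EM Q
  rw [Finset.mul_sum, Finset.mul_sum, ← Finset.sum_add_distrib]
  refine Finset.sum_le_sum fun w _ => ?_
  rw [Finset.mul_sum, Finset.mul_sum, ← Finset.sum_add_distrib]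
  refine Finset.sum_le_sum fun c _ => ?_
  rw [Finset.mul_sum, Finset.mul_sum, ← Finset.sum_add_distrib]
  refine Finset.sum_le_sum fun c' _ => ?_
  have e : f (Fw w c) + g (Fw w c) - (f (Fw w c') + g (Fw w c')) =
    (f (Fw w c) - f (Fw w c')) + (g (Fw w c) - g (Fw w c')) := by ring
  rw [e]
  generalize f (Fw w c) - f (Fw w c') = a
  generalize g (Fw w c) - g (Fw w c') = b
  nlinarith [sq_nonneg (a - b)]

theorem EM_mul_le (M : ℕ) (f g : K → ℝ) {A B : ℝ} (hf : ∀ x, |f x| ≤ A) (hg : ∀ x, |g x| ≤ B) :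
    EM M (fun x => f x * g x) (fun x => f x * g x) ≤
      2 * B ^ 2 * EM M f f + 2 * A ^ 2 * EM M g g := by
  unfold EM Q
  rw [Finset.mul_sum, Finset.mul_sum, ← Finset.sum_add_distrib]
  refine Finset.sum_le_sum fun w _ => ?_
  rw [Finset.mul_sum, Finset.mul_sum, ← Finset.sum_add_distrib]
  refine Finset.sum_le_sum fun c _ => ?_
  rw [Finset.mul_sum, Finset.mul_sum, ← Finset.sum_add_distrib]
  refine Finset.sum_le_sum fun c' _ => ?_
  beta_reduce
  generalize Fw w c = x
  generalize Fw w c' = y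
  have h1 : f x ^ 2 ≤ A ^ 2 := by
    rw [← sq_abs]
    exact pow_le_pow_left₀ (abs_nonneg _) (hf x) 2
  have h2 : g y ^ 2 ≤ B ^ 2 := by
    rw [← sq_abs]
    exact pow_le_pow_left₀ (abs_nonneg _) (hg y) 2
  have e : f x * g x - f y * g y = f x * (g x - g y) + g y * (f x - f y) := by ring
  rw [e]
  have h3 : (f x * (g x - g y)) ^ 2 ≤ A ^ 2 * (g x - g y) ^ 2 := by
    rw [mul_pow]
    exact mul_le_mul_of_nonneg_right h1 (sq_nonneg _)
  have h4 : (g y * (f x - f y)) ^ 2 ≤ B ^ 2 * (f x - f y) ^ 2 := by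
    rw [mul_pow]
    exact mul_le_mul_of_nonneg_right h2 (sq_nonneg _)
  nlinarith [sq_nonneg (f x * (g x - g y) - g y * (f x - f y))]

/-- A bound for the energy from bounds on the oscillations on the cells. -/
theorem EM_le_of_osc (M : ℕ) (f : K → ℝ) (r : List Dig → ℝ) (h : ∀ w ∈ words M,
    ∀ c ∈ corners, ∀ c' ∈ corners, (f (Fw w c) - f (Fw w c')) ^ 2 ≤ r w) :
    EM M f f ≤ 16 * ∑ w ∈ words M, r w := by
  unfold EM
  rw [Finset.mul_sum]
  exact Finset.sum_le_sum fun w hw => Q_le _ (h w hw)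

theorem enb_flip_flip (d : Dig) : d.flip.flip = d := by
  apply Dig.ext'
  · have h1 := Dig.flip_x d.flip
    have h2 := Dig.flip_x d
    have h3 : ((d.flip.flip.x : ℤ) : ℝ) = d.x := by rw [h1, h2]; ring
    exact_mod_cast h3
  · rfl

theorem enb_Q_flipX (f g : K → ℝ) : Q (fun x => f (flipX x)) (fun x => g (flipX x)) = Q f g := by
  have key : ∀ h : K → ℝ, ∑ c ∈ corners, h (flipX c) = ∑ c ∈ corners, h c := fun h =>
    Finset.sum_bij' (fun c _ => flipX c) (fun c _ => flipX c) (fun _ h => flipX_corners h)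
      (fun _ h => flipX_corners h) (fun c _ => flipX_flipX c) (fun c _ => flipX_flipX c)
      (fun _ _ => rfl)
  unfold Q
  rw [← key (fun c => ∑ c' ∈ corners, (f c - f c') * (g c - g c'))]
  refine Finset.sum_congr rfl fun c _ => ?_
  rw [← key (fun c' => (f (flipX c) - f c') * (g (flipX c) - g c'))]

theorem enb_Q_swapXY (f g : K → ℝ) :
    Q (fun x => f (swapXY x)) (fun x => g (swapXY x)) = Q f g := by
  have key : ∀ h : K → ℝ, ∑ c ∈ corners, h (swapXY c) = ∑ c ∈ corners, h c := fun h =>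
    Finset.sum_bij' (fun c _ => swapXY c) (fun c _ => swapXY c) (fun _ h => swapXY_corners h)
      (fun _ h => swapXY_corners h) (fun c _ => swapXY_swapXY c) (fun c _ => swapXY_swapXY c)
      (fun _ _ => rfl)
  unfold Q
  rw [← key (fun c => ∑ c' ∈ corners, (f c - f c') * (g c - g c'))]
  refine Finset.sum_congr rfl fun c _ => ?_
  rw [← key (fun c' => (f (swapXY c) - f c') * (g (swapXY c) - g c'))]

theorem EM_flipX (M : ℕ) (f g : K → ℝ) :
    EM M (fun x => f (flipX x)) (fun x => g (flipX x)) = EM M f g := by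
  induction M generalizing f g with
  | zero => rw [EM_zero, EM_zero, enb_Q_flipX]
  | succ M ih =>
    rw [EM_succ, EM_succ]
    refine Finset.sum_bij' (fun d _ => d.flip) (fun d _ => d.flip) (fun _ _ => Finset.mem_univ _)
      (fun _ _ => Finset.mem_univ _) (fun d _ => enb_flip_flip d) (fun d _ => enb_flip_flip d)
      (fun d _ => ?_)
    have e : ∀ x, flipX (F d x) = F d.flip (flipX x) := fun x =>
      congrArg (fun f : C(K, K) => f x) (flipX_F d)
    simp only [e]
    exact ih (fun x => f (F d.flip x)) (fun x => g (F d.flip x))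

theorem EM_swapXY (M : ℕ) (f g : K → ℝ) :
    EM M (fun x => f (swapXY x)) (fun x => g (swapXY x)) = EM M f g := by
  induction M generalizing f g with
  | zero => rw [EM_zero, EM_zero, enb_Q_swapXY]
  | succ M ih =>
    rw [EM_succ, EM_succ]
    refine Finset.sum_bij' (fun d _ => d.swap) (fun d _ => d.swap) (fun _ _ => Finset.mem_univ _)
      (fun _ _ => Finset.mem_univ _) (fun d _ => rfl) (fun d _ => rfl)
      (fun d _ => ?_)
    have e : ∀ x, swapXY (F d x) = F d.swap (swapXY x) := fun x =>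
      congrArg (fun f : C(K, K) => f x) (swapXY_F d)
    simp only [e]
    exact ih (fun x => f (F d.swap x)) (fun x => g (F d.swap x))

theorem EM_flipY (M : ℕ) (f g : K → ℝ) :
    EM M (fun x => f (flipY x)) (fun x => g (flipY x)) = EM M f g := by
  have h1 := EM_swapXY M (fun x => f (swapXY (flipX x))) (fun x => g (swapXY (flipX x)))
  have h2 := EM_flipX M (fun x => f (swapXY x)) (fun x => g (swapXY x))
  have h3 := EM_swapXY M f g
  rw [← h3, ← h2, ← h1]
  rfl

end Pool.Agent.Helper67.CF
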