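import Pool.Agent.Helper67.CF.Fun
import Pool.Agent.Helper67.CF.Dense

/-! Module Exist: existence of a canonical form. -/

open Filter Topology Pool.Agent.Helper67.SC

noncomputable section

namespace Pool.Agent.Helper67.CF

theorem ex_pow_tendsto : Tendsto (fun M : ℕ => (1 : ℝ) / 3 ^ M) atTop (𝓝 0) := by
  have h := tendsto_pow_atTop_nhds_zero_of_lt_one (r := (1 / 3 : ℝ)) (by norm_num) (by norm_num)
  refine h.congr fun M => ?_
  rw [div_pow, one_pow]

/-- Points: `morrey` at level `M`, then `M → ∞` by continuity (every point of a cell of level `M` is within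
`3^(-M)` of a vertex). -/
theorem sq_le_of_bound {ρ C B : ℝ} (hρ : 0 < ρ) (hcap : ∀ n, 1 ≤ C * (ρ ^ n * cap n)) (hC : 0 < C)
    {f : K → ℝ} (hf : Continuous f) (hB : ∀ M, ρ ^ M * EM M f f ≤ B) (x y : K) :
    (f x - f y) ^ 2 ≤ 40960000 * C * B := by
  have hx : ∀ M : ℕ, ∃ w : List Dig, w.length = M ∧ x ∈ cell w := fun M => exists_cell M x
  have hy : ∀ M : ℕ, ∃ w : List Dig, w.length = M ∧ y ∈ cell w := fun M => exists_cell M y
  choose u hu hu' using hx
  choose v hv hv' using hy
  have hconv : ∀ (z : K) (w : ℕ → List Dig), (∀ M, (w M).length = M) → (∀ M, z ∈ cell (w M)) →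
      Tendsto (fun M => Fw (w M) c00) atTop (𝓝 z) := by
    intro z w hw hz
    rw [tendsto_iff_dist_tendsto_zero]
    refine squeeze_zero (fun _ => dist_nonneg) (fun M => ?_) ex_pow_tendsto
    have := dist_cell_le (w := w M) (x := Fw (w M) c00) (y := z) ⟨c00, rfl⟩ (hz M)
    rw [hw M] at this
    exact this
  have h1 := (hf.tendsto x).comp (hconv x u hu hu')
  have h2 := (hf.tendsto y).comp (hconv y v hv hv')
  have h3 := (h1.sub h2).pow 2
  have h00 : c00 ∈ corners := mem_corners'.2 (Or.inl rfl)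
  refine le_of_tendsto h3 (Eventually.of_forall fun M => ?_)
  have h4 := morrey M f (hu M) (hv M) h00 h00
  simp only [Function.comp_apply]
  set s := (f (Fw (u M) c00) - f (Fw (v M) c00)) ^ 2 with hs
  have hs0 : 0 ≤ s := sq_nonneg _
  have hρM : 0 < ρ ^ M := pow_pos hρ M
  have h5 := hcap M
  have h6 := hB M
  calc s ≤ (C * (ρ ^ M * cap M)) * s := by nlinarith
    _ = C * ρ ^ M * (s * cap M) := by ring
    _ ≤ C * ρ ^ M * (40960000 * EM M f f) := by gcongr
    _ = 40960000 * C * (ρ ^ M * EM M f f) := by ring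
    _ ≤ 40960000 * C * B := by gcongr

/-- pointwise limits of energies -/
theorem ex_EM_tendsto (M : ℕ) {f : ℕ → K → ℝ} {g : K → ℝ}
    (h : ∀ x, Tendsto (fun n => f n x) atTop (𝓝 (g x))) :
    Tendsto (fun n => EM M (f n) (f n)) atTop (𝓝 (EM M g g)) := by
  unfold EM Q
  refine tendsto_finsetSum _ fun w _ => tendsto_finsetSum _ fun c _ => tendsto_finsetSum _
    fun c' _ => ?_
  exact ((h _).sub (h _)).mul ((h _).sub (h _))

theorem ex_EM_sub_const (M : ℕ) (f : K → ℝ) (c : ℝ) :
    EM M (fun x => f x - c) (fun x => f x - c) = EM M f f := by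
  unfold EM Q
  refine Finset.sum_congr rfl fun _ _ => Finset.sum_congr rfl fun _ _ =>
    Finset.sum_congr rfl fun _ _ => ?_
  ring

theorem exists_canonical : ∃ (D : Set (K → ℝ)) (E : (K → ℝ) → (K → ℝ) → ℝ), IsCanonicalForm D E := by
  obtain ⟨ρ, C, hρ, hC, hcap1, hcap2, hmono⟩ := scaling
  obtain ⟨E, hadd, hsmul, hsymm, hnonneg, hlow, hup, hle, hself⟩ := exists_form hρ hC hmono
  obtain ⟨u, huD, hu, huy⟩ := exists_cross_fun hρ hC hcap1 hmono
  have hres : ∀ f ∈ Dom ρ, ∀ x y, (f x - f y) ^ 2 ≤ 40960000 * C * (C * E f f) := fun f hf x y =>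
    sq_le_of_bound hρ hcap2 hC hf.1 (hlow f hf) x y
  have hsub : ∀ f ∈ Dom ρ, ∀ g ∈ Dom ρ, (fun x => f x - g x) ∈ Dom ρ := by
    intro f hf g hg
    have h1 := dom_add hρ hf (dom_smul hρ (-1) hg)
    have e : (fun x => f x + -1 * g x) = fun x => f x - g x := by
      funext x; ring
    rwa [e] at h1
  refine ⟨Dom ρ, E, ⟨⟨⟨fun f hf => hf.1, dom_const 1, fun f hf g hg => dom_add hρ hf hg,
    fun c f hf => dom_smul hρ c hf, hadd, hsmul, hsymm, hnonneg⟩, ?_, ?_, ?_, ?_, ?_⟩, ?_, ?_, ?_, ?_⟩⟩
  · -- zero_iff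
    intro f hf
    constructor
    · intro h
      refine ⟨f c00, fun x => ?_⟩
      have h1 := hres f hf x c00
      rw [h] at h1
      have h2 : (f x - f c00) ^ 2 = 0 := le_antisymm (by simpa using h1) (sq_nonneg _)
      have h3 := pow_eq_zero_iff (two_ne_zero) |>.1 h2
      linarith
    · rintro ⟨c, hc⟩
      have e : f = fun _ => c := funext hc
      refine le_antisymm (hup f hf 0 fun n => ?_) (hnonneg f hf)
      rw [e, EM_const, mul_zero]
  · -- complete
    intro f hf hcauchy
    -- normalised functions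
    have hcont : ∀ n, Continuous (fun x => f n x - f n c00) := fun n =>
      (hf n).1.sub continuous_const
    set H : ℕ → C(K, ℝ) := fun n => ⟨fun x => f n x - f n c00, hcont n⟩ with hH
    have hHC : CauchySeq H := by
      rw [Metric.cauchySeq_iff]
      intro ε hε
      set η : ℝ := (ε / 2) ^ 2 / (40960000 * C * C) with hη
      have hη0 : 0 < η := by positivity
      obtain ⟨N, hN⟩ := hcauchy η hη0
      refine ⟨N, fun m hm n hn => ?_⟩
      have h1 := hN m hm n hn
      refine lt_of_le_of_lt ((ContinuousMap.dist_le (by positivity : 0 ≤ ε / 2)).2 fun x => ?_)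
        (half_lt_self hε)
      have h2 := hres _ (hsub _ (hf m) _ (hf n)) x c00
      have h3 : 40960000 * C * (C * E (fun x => f m x - f n x) (fun x => f m x - f n x)) ≤
          (ε / 2) ^ 2 := by
        have h4 : 40960000 * C * (C * η) = (ε / 2) ^ 2 := by
          rw [hη]; field_simp
        rw [← h4]
        have h5 : C * E (fun x => f m x - f n x) (fun x => f m x - f n x) ≤ C * η :=
          mul_le_mul_of_nonneg_left h1.le hC.le
        exact mul_le_mul_of_nonneg_left h5 (by positivity)
      have h4 := h2.trans h3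
      change |f m x - f m c00 - (f n x - f n c00)| ≤ ε / 2
      have e : f m x - f m c00 - (f n x - f n c00) = f m x - f n x - (f m c00 - f n c00) := by ring
      rw [e]
      exact abs_le_of_sq_le_sq h4 (by positivity)
    obtain ⟨G, hG⟩ := cauchySeq_tendsto_of_complete hHC
    have hGx : ∀ x, Tendsto (fun n => f n x - f n c00) atTop (𝓝 (G x)) := fun x =>
      ((ContinuousMap.evalCLM ℝ x).continuous.tendsto G).comp hG
    -- the main estimate
    have hmain : ∀ ε > 0, ∃ N, ∀ n ≥ N, ∀ M,
        ρ ^ M * EM M (fun x => f n x - G x) (fun x => f n x - G x) ≤ C * ε := by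
      intro ε hε
      obtain ⟨N, hN⟩ := hcauchy ε hε
      refine ⟨N, fun n hn M => ?_⟩
      have h1 : Tendsto (fun m => ρ ^ M * EM M (fun x => (f n x - f n c00) - (f m x - f m c00))
          (fun x => (f n x - f n c00) - (f m x - f m c00))) atTop
          (𝓝 (ρ ^ M * EM M (fun x => (f n x - f n c00) - G x)
            (fun x => (f n x - f n c00) - G x))) :=
        (ex_EM_tendsto M fun x => tendsto_const_nhds.sub (hGx x)).const_mul _
      have e1 : EM M (fun x => (f n x - f n c00) - G x) (fun x => (f n x - f n c00) - G x) =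
          EM M (fun x => f n x - G x) (fun x => f n x - G x) := by
        rw [← ex_EM_sub_const M (fun x => f n x - G x) (f n c00)]
        congr 1 <;> funext x <;> ring
      rw [e1] at h1
      refine le_of_tendsto h1 (eventually_atTop.2 ⟨N, fun m hm => ?_⟩)
      have e2 : EM M (fun x => (f n x - f n c00) - (f m x - f m c00))
          (fun x => (f n x - f n c00) - (f m x - f m c00)) =
          EM M (fun x => f n x - f m x) (fun x => f n x - f m x) := by
        rw [← ex_EM_sub_const M (fun x => f n x - f m x) (f n c00 - f m c00)]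
        congr 1 <;> funext x <;> ring
      rw [e2]
      refine (hlow _ (hsub _ (hf n) _ (hf m)) M).trans ?_
      exact mul_le_mul_of_nonneg_left (hN n hn m hm).le hC.le
    have hdiff : ∀ ε > 0, ∃ N, ∀ n ≥ N, (fun x => f n x - G x) ∈ Dom ρ ∧
        E (fun x => f n x - G x) (fun x => f n x - G x) ≤ C * ε := by
      intro ε hε
      obtain ⟨N, hN⟩ := hmain ε hε
      refine ⟨N, fun n hn => ?_⟩
      have h1 : (fun x => f n x - G x) ∈ Dom ρ := ⟨(hf n).1.sub G.continuous, C * ε, hN n hn⟩
      exact ⟨h1, hup _ h1 _ (hN n hn)⟩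
    refine ⟨G, ?_, ?_⟩
    · obtain ⟨N, hN⟩ := hdiff 1 one_pos
      have h1 := hsub _ (hf N) _ (hN N le_rfl).1
      have e : (fun x => f N x - (f N x - G x)) = ⇑G := by funext x; ring
      rwa [e] at h1
    · intro ε hε
      obtain ⟨N, hN⟩ := hdiff (ε / (2 * C)) (by positivity)
      refine ⟨N, fun n hn => lt_of_le_of_lt (hN n hn).2 ?_⟩
      have : C * (ε / (2 * C)) = ε / 2 := by field_simp
      rw [this]
      exact half_lt_self hε
  · -- resistance
    intro x y
    refine ⟨40960000 * C * C, fun f hf => ?_⟩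
    have := hres f hf x y
    rw [← mul_assoc] at this
    exact this
  · -- markov
    intro f hf
    exact ⟨dom_trunc hρ hf, hle f hf _ (dom_trunc hρ hf) fun n => EM_trunc_le n f⟩
  · -- regular
    intro f hf ε hε
    exact dom_dense hρ huD hu huy f hf hε
  · intro f hf h
    exact dom_of_comp_F hρ hf h
  · exact ⟨ρ, hρ, fun f hf => ⟨fun d => dom_comp_F hρ hf d, hself f hf⟩⟩
  · intro f hf
    refine ⟨dom_flipX hf, le_antisymm ?_ ?_⟩
    · exact hle f hf _ (dom_flipX hf) fun n => (EM_flipX n f f).le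
    · exact hle _ (dom_flipX hf) f hf fun n => (EM_flipX n f f).ge
  · intro f hf
    refine ⟨dom_swapXY hf, le_antisymm ?_ ?_⟩
    · exact hle f hf _ (dom_swapXY hf) fun n => (EM_swapXY n f f).le
    · exact hle _ (dom_swapXY hf) f hf fun n => (EM_swapXY n f f).ge

end Pool.Agent.Helper67.CF
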