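import Pool.Agent.Helper67.CF.DomB

/-! Module Form: the limit form, by an ultrafilter limit of Cesaro means. -/

open Filter Topology Pool.Agent.Helper67.SC

noncomputable section

namespace Pool.Agent.Helper67.CF

/-- Limit along a fixed non-principal ultrafilter. -/
def ulim (a : ℕ → ℝ) : ℝ := limUnder (hyperfilter ℕ : Filter ℕ) a

/-- bounded sequences converge along the ultrafilter (`isCompact_Icc.ultrafilter_le_nhds`) -/
theorem tendsto_ulim {a : ℕ → ℝ} {B : ℝ} (h : ∀ n, |a n| ≤ B) :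
    Tendsto a (hyperfilter ℕ : Filter ℕ) (𝓝 (ulim a)) := by
  refine tendsto_nhds_limUnder ?_
  have h1 : ((hyperfilter ℕ).map a : Filter ℝ) ≤ 𝓟 (Set.Icc (-B) B) := by
    rw [le_principal_iff, Ultrafilter.coe_map, mem_map]
    exact univ_mem' fun n => abs_le.1 (h n)
  obtain ⟨x, -, hx⟩ := isCompact_Icc.ultrafilter_le_nhds _ h1
  exact ⟨x, hx⟩

theorem ulim_eq {a : ℕ → ℝ} {L : ℝ} (h : Tendsto a (hyperfilter ℕ : Filter ℕ) (𝓝 L)) :
    ulim a = L := h.limUnder_eq

/-- Cesaro means of the rescaled energies. -/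
def Av (ρ : ℝ) (f g : K → ℝ) (N : ℕ) : ℝ :=
  (∑ M ∈ Finset.range (N + 1), ρ ^ M * EM M f g) / (N + 1)

section form
variable {ρ : ℝ}

theorem form_bound (hρ : 0 < ρ) {f g : K → ℝ} (hf : f ∈ Dom ρ) (hg : g ∈ Dom ρ) :
    ∃ B : ℝ, ∀ M, |ρ ^ M * EM M f g| ≤ B := by
  obtain ⟨-, B, hB⟩ := hf
  obtain ⟨-, B', hB'⟩ := hg
  refine ⟨B + B', fun M => ?_⟩
  rw [abs_mul, abs_of_nonneg (pow_nonneg hρ.le M)]
  have h1 := mul_le_mul_of_nonneg_left (abs_EM_le M f g) (pow_nonneg hρ.le M)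
  have h2 := hB M
  have h3 := hB' M
  linarith

theorem form_Av_bound (hρ : 0 < ρ) {f g : K → ℝ} (hf : f ∈ Dom ρ) (hg : g ∈ Dom ρ) :
    ∃ B : ℝ, ∀ N, |Av ρ f g N| ≤ B := by
  obtain ⟨B, hB⟩ := form_bound hρ hf hg
  refine ⟨B, fun N => ?_⟩
  have hN : (0 : ℝ) < (N : ℝ) + 1 := by positivity
  unfold Av
  rw [abs_div, abs_of_pos hN, div_le_iff₀ hN]
  refine (Finset.abs_sum_le_sum_abs _ _).trans ?_
  refine (Finset.sum_le_sum fun M _ => hB M).trans (le_of_eq ?_)
  rw [Finset.sum_const, Finset.card_range, nsmul_eq_mul]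
  push_cast
  ring

theorem form_tendsto (hρ : 0 < ρ) {f g : K → ℝ} (hf : f ∈ Dom ρ) (hg : g ∈ Dom ρ) :
    Tendsto (Av ρ f g) (hyperfilter ℕ : Filter ℕ) (𝓝 (ulim (Av ρ f g))) := by
  obtain ⟨B, hB⟩ := form_Av_bound hρ hf hg
  exact tendsto_ulim hB

theorem form_Av_mono (hρ : 0 < ρ) {f g : K → ℝ} (h : ∀ n, EM n g g ≤ EM n f f) (N : ℕ) :
    Av ρ g g N ≤ Av ρ f f N := by
  unfold Av
  refine div_le_div_of_nonneg_right (Finset.sum_le_sum fun M _ => ?_) (by positivity)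
  exact mul_le_mul_of_nonneg_left (h M) (pow_nonneg hρ.le M)

/-- The Cesaro means of the shifted sequence. -/
theorem form_shift (f : K → ℝ) (N : ℕ) :
    ρ * ∑ d : Dig, Av ρ (fun x => f (F d x)) (fun x => f (F d x)) N =
      Av ρ f f N + (ρ ^ (N + 1) * EM (N + 1) f f - EM 0 f f) / (N + 1) := by
  have h1 : ρ * ∑ d : Dig, Av ρ (fun x => f (F d x)) (fun x => f (F d x)) N =
      (∑ M ∈ Finset.range (N + 1), ρ ^ (M + 1) * EM (M + 1) f f) / (N + 1) := by
    unfold Av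
    rw [← Finset.sum_div, Finset.sum_comm, mul_div_assoc', Finset.mul_sum]
    congr 1
    refine Finset.sum_congr rfl fun M _ => ?_
    rw [EM_succ, ← Finset.mul_sum, pow_succ]
    ring
  rw [h1]
  unfold Av
  rw [← add_div]
  congr 1
  have h2 := Finset.sum_range_succ (fun M => ρ ^ M * EM M f f) (N + 1)
  have h3 := Finset.sum_range_succ' (fun M => ρ ^ M * EM M f f) (N + 1)
  simp only [pow_zero, one_mul] at h3
  rw [h2] at h3
  linarith

end form

/-- The form is `E f g = ulim (Av ρ f g)`. Self-similarity: `ρ^(M+1) EM (M+1) f f = ρ ∑_d ρ^M EM M (f ∘ F d)`, and the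
Cesaro means of a bounded sequence and of the shifted sequence have the same limit. -/
theorem exists_form {ρ C : ℝ} (hρ : 0 < ρ) (hC : 0 < C)
    (hmono : ∀ (n m : ℕ) (f : K → ℝ), ρ ^ n * EM n f f ≤ C * (ρ ^ (n + m) * EM (n + m) f f)) :
    ∃ E : (K → ℝ) → (K → ℝ) → ℝ,
      (∀ f ∈ Dom ρ, ∀ g ∈ Dom ρ, ∀ h ∈ Dom ρ, E (fun x => f x + g x) h = E f h + E g h) ∧
      (∀ c : ℝ, ∀ f ∈ Dom ρ, ∀ g ∈ Dom ρ, E (fun x => c * f x) g = c * E f g) ∧
      (∀ f ∈ Dom ρ, ∀ g ∈ Dom ρ, E f g = E g f) ∧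
      (∀ f ∈ Dom ρ, 0 ≤ E f f) ∧
      (∀ f ∈ Dom ρ, ∀ n, ρ ^ n * EM n f f ≤ C * E f f) ∧
      (∀ f ∈ Dom ρ, ∀ B : ℝ, (∀ n, ρ ^ n * EM n f f ≤ B) → E f f ≤ B) ∧
      (∀ f ∈ Dom ρ, ∀ g ∈ Dom ρ, (∀ n, EM n g g ≤ EM n f f) → E g g ≤ E f f) ∧
      (∀ f ∈ Dom ρ, E f f = ρ * ∑ d : Dig, E (fun x => f (F d x)) (fun x => f (F d x))) := by
  refine ⟨fun f g => ulim (Av ρ f g), ?_, ?_, ?_, ?_, ?_, ?_, ?_, ?_⟩
  · intro f hf g hg h hh
    refine ulim_eq ?_
    refine ((form_tendsto hρ hf hh).add (form_tendsto hρ hg hh)).congr fun N => ?_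
    unfold Av
    rw [← add_div, ← Finset.sum_add_distrib]
    congr 1
    refine Finset.sum_congr rfl fun M _ => ?_
    rw [EM_add_left]
    ring
  · intro c f hf g hg
    refine ulim_eq ?_
    refine ((form_tendsto hρ hf hg).const_mul c).congr fun N => ?_
    unfold Av
    rw [mul_div_assoc', Finset.mul_sum]
    congr 1
    refine Finset.sum_congr rfl fun M _ => ?_
    rw [EM_smul_left]
    ring
  · intro f hf g hg
    show ulim (Av ρ f g) = ulim (Av ρ g f)
    congr 1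
    funext N
    unfold Av
    congr 1
    exact Finset.sum_congr rfl fun M _ => by rw [EM_comm]
  · intro f hf
    refine ge_of_tendsto' (form_tendsto hρ hf hf) fun N => ?_
    unfold Av
    exact div_nonneg (Finset.sum_nonneg fun M _ =>
      mul_nonneg (pow_nonneg hρ.le M) (EM_nonneg M f)) (by positivity)
  · intro f hf n
    have h1 := (form_tendsto hρ hf hf).const_mul C
    set L := ρ ^ n * EM n f f with hL
    have hL0 : 0 ≤ L := mul_nonneg (pow_nonneg hρ.le n) (EM_nonneg n f)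
    have h2 : Tendsto (fun N : ℕ => L - (n : ℝ) * L / ((N : ℝ) + 1)) atTop (𝓝 L) := by
      have h3 : Tendsto (fun N : ℕ => (n : ℝ) * L / ((N : ℝ) + 1)) atTop (𝓝 0) := by
        have h4 := (tendsto_one_div_add_atTop_nhds_zero_nat (𝕜 := ℝ)).const_mul ((n : ℝ) * L)
        simpa [div_eq_mul_inv] using h4
      simpa using tendsto_const_nhds.sub h3
    have h5 : Tendsto (fun N : ℕ => L - (n : ℝ) * L / ((N : ℝ) + 1)) (hyperfilter ℕ : Filter ℕ)
        (𝓝 L) := h2.mono_left Nat.hyperfilter_le_atTop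
    refine le_of_tendsto_of_tendsto h5 h1 ?_
    refine Eventually.filter_mono Nat.hyperfilter_le_atTop ?_
    filter_upwards [eventually_ge_atTop n] with N hN
    have hN0 : (0 : ℝ) < (N : ℝ) + 1 := by positivity
    unfold Av
    have h6 : ∑ M ∈ Finset.Ico n (N + 1), L ≤
        C * ∑ M ∈ Finset.range (N + 1), ρ ^ M * EM M f f := by
      have h7 : ∑ M ∈ Finset.Ico n (N + 1), L ≤
          ∑ M ∈ Finset.Ico n (N + 1), C * (ρ ^ M * EM M f f) := by
        refine Finset.sum_le_sum fun M hM => ?_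
        obtain ⟨k, rfl⟩ := Nat.exists_eq_add_of_le (Finset.mem_Ico.1 hM).1
        exact hmono n k f
      have h8 : ∑ M ∈ Finset.Ico n (N + 1), C * (ρ ^ M * EM M f f) =
          C * ∑ M ∈ Finset.Ico n (N + 1), ρ ^ M * EM M f f := (Finset.mul_sum _ _ _).symm
      refine (h7.trans (le_of_eq h8)).trans (mul_le_mul_of_nonneg_left ?_ hC.le)
      refine Finset.sum_le_sum_of_subset_of_nonneg ?_ fun M _ _ =>
        mul_nonneg (pow_nonneg hρ.le M) (EM_nonneg M f)
      intro M hM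
      exact Finset.mem_range.2 (Finset.mem_Ico.1 hM).2
    rw [Finset.sum_const, Nat.card_Ico, nsmul_eq_mul, Nat.cast_sub (by omega)] at h6
    push_cast at h6
    rw [mul_div_assoc', le_div_iff₀ hN0, sub_mul, div_mul_cancel₀ _ hN0.ne']
    linarith
  · intro f hf B hB
    refine le_of_tendsto' (form_tendsto hρ hf hf) fun N => ?_
    have hN0 : (0 : ℝ) < (N : ℝ) + 1 := by positivity
    unfold Av
    rw [div_le_iff₀ hN0]
    refine (Finset.sum_le_sum fun M _ => hB M).trans (le_of_eq ?_)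
    rw [Finset.sum_const, Finset.card_range, nsmul_eq_mul]
    push_cast
    ring
  · intro f hf g hg h
    exact le_of_tendsto_of_tendsto' (form_tendsto hρ hg hg) (form_tendsto hρ hf hf)
      (form_Av_mono hρ h)
  · intro f hf
    obtain ⟨B, hB⟩ := form_bound hρ hf hf
    have h1 : Tendsto (fun N : ℕ => ρ * ∑ d : Dig,
        Av ρ (fun x => f (F d x)) (fun x => f (F d x)) N) (hyperfilter ℕ : Filter ℕ)
        (𝓝 (ρ * ∑ d : Dig, ulim (Av ρ (fun x => f (F d x)) (fun x => f (F d x))))) :=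
      (tendsto_finsetSum _ fun d _ =>
        form_tendsto hρ (dom_comp_F hρ hf d) (dom_comp_F hρ hf d)).const_mul ρ
    have h2 : Tendsto (fun N : ℕ => (ρ ^ (N + 1) * EM (N + 1) f f - EM 0 f f) / ((N : ℝ) + 1))
        atTop (𝓝 0) := by
      have h4 := (tendsto_one_div_add_atTop_nhds_zero_nat (𝕜 := ℝ)).const_mul (2 * B)
      rw [mul_zero] at h4
      refine squeeze_zero_norm (fun N => ?_) h4
      have hN0 : (0 : ℝ) < (N : ℝ) + 1 := by positivity
      rw [Real.norm_eq_abs, abs_div, abs_of_pos hN0, mul_one_div]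
      refine div_le_div_of_nonneg_right ?_ hN0.le
      refine (abs_sub _ _).trans ?_
      have h5 := hB (N + 1)
      have h6 := hB 0
      rw [pow_zero, one_mul] at h6
      linarith
    have h3 := (form_tendsto hρ hf hf).add (h2.mono_left Nat.hyperfilter_le_atTop)
    rw [add_zero] at h3
    have h4 := h3.congr fun N => (form_shift (ρ := ρ) f N).symm
    exact tendsto_nhds_unique h4 h1

end Pool.Agent.Helper67.CF
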