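import Pool.Agent.Helper67.CF.Rho
import Pool.Agent.Helper67.CF.Form

/-! Module Fun: a continuous crossing function of finite energy. -/

open Filter Topology Pool.Agent.Helper67.SC

noncomputable section

namespace Pool.Agent.Helper67.CF

/-- Oscillation on a cell of level `n` of a function `u` at the vertices of level `n + m`:
`morrey` for `u ∘ Fw v`. -/
theorem osc_cell (n m : ℕ) (u : K → ℝ) {v w w' : List Dig} (hv : v.length = n)
    (hw : w.length = m) (hw' : w'.length = m) {c c' : K} (hc : c ∈ corners) (hc' : c' ∈ corners) :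
    (u (Fw (v ++ w) c) - u (Fw (v ++ w') c')) ^ 2 * cap m ≤ 40960000 * EM (n + m) u u := by
  have h1 := morrey m (fun x => u (Fw v x)) hw hw' hc hc'
  have h2 := EM_cell_le n m u hv
  rw [Fw_append, Fw_append]
  exact h1.trans (by linarith)

/-- Iterate `cap_succ_le`. -/
theorem cap_add_le (n m : ℕ) : cap (n + m) ≤ (6 / 7) ^ n * cap m := by
  induction n with
  | zero => simp
  | succ n ih =>
    have h1 := cap_succ_le (n + m)
    have e : n + 1 + m = n + m + 1 := by ring
    rw [e, pow_succ]
    calc cap (n + m + 1) ≤ 6 / 7 * cap (n + m) := h1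
      _ ≤ 6 / 7 * ((6 / 7) ^ n * cap m) := by linarith
      _ = (6 / 7) ^ n * (6 / 7) * cap m := by ring

/-- the oscillation scale -/
def crossDl (n : ℕ) : ℝ := 10000 * Real.sqrt (6 / 7) ^ n

theorem crossDl_nonneg (n : ℕ) : 0 ≤ crossDl n := by unfold crossDl; positivity

theorem crossDl_sq (n : ℕ) : crossDl n ^ 2 = 100000000 * (6 / 7) ^ n := by
  unfold crossDl
  rw [mul_pow, ← pow_mul, mul_comm n 2, pow_mul, Real.sq_sqrt (by norm_num)]
  norm_num

theorem crossDl_tendsto : Tendsto crossDl atTop (𝓝 0) := by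
  have h : Real.sqrt (6 / 7) < 1 := by
    rw [Real.sqrt_lt' (by norm_num)]; norm_num
  have h2 := (tendsto_pow_atTop_nhds_zero_of_lt_one (Real.sqrt_nonneg _) h).const_mul 10000
  rw [mul_zero] at h2
  exact h2

theorem fun_cross_osc {M n : ℕ} (hnM : n ≤ M) {u : K → ℝ} (he : EM M u u ≤ cap M + cap M)
    {v w w' : List Dig} (hv : v.length = n) (hw : w.length = M - n) (hw' : w'.length = M - n)
    {c c' : K} (hc : c ∈ corners) (hc' : c' ∈ corners) :
    |u (Fw (v ++ w) c) - u (Fw (v ++ w') c')| ≤ crossDl n := by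
  obtain ⟨m, rfl⟩ := Nat.exists_eq_add_of_le hnM
  rw [Nat.add_sub_cancel_left] at hw hw'
  have h1 := osc_cell n m u hv hw hw' hc hc'
  have h2 := cap_add_le n m
  have hm := cap_pos m
  set z := u (Fw (v ++ w) c) - u (Fw (v ++ w') c') with hz
  have h3 : z ^ 2 * cap m ≤ (81920000 * (6 / 7) ^ n) * cap m := by nlinarith
  have h4 : z ^ 2 ≤ 81920000 * (6 / 7) ^ n := le_of_mul_le_mul_right h3 hm
  apply abs_le_of_sq_le_sq _ (crossDl_nonneg n)
  rw [crossDl_sq]
  have : (0 : ℝ) ≤ (6 / 7) ^ n := by positivity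
  linarith

theorem corner_fix {c : K} (hc : c ∈ corners) (k : ℕ) :
    ∃ w : List Dig, w.length = k ∧ Fw w c = c := by
  have hd : ∃ d : Dig, F d c = c := by
    obtain ⟨h1, h2⟩ := mem_corners.1 hc
    rcases h1 with h1 | h1 <;> rcases h2 with h2 | h2
    · obtain ⟨d, hd1, hd2⟩ := exists_dig (a := 0) (b := 0) (by norm_num) (by norm_num)
        (by norm_num) (by norm_num) (by norm_num)
      refine ⟨d, K_ext ?_ ?_⟩
      · rw [F_apply1, h1, hd1]; norm_num
      · rw [F_apply2, h2, hd2]; norm_num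
    · obtain ⟨d, hd1, hd2⟩ := exists_dig (a := 0) (b := 2) (by norm_num) (by norm_num)
        (by norm_num) (by norm_num) (by norm_num)
      refine ⟨d, K_ext ?_ ?_⟩
      · rw [F_apply1, h1, hd1]; norm_num
      · rw [F_apply2, h2, hd2]; norm_num
    · obtain ⟨d, hd1, hd2⟩ := exists_dig (a := 2) (b := 0) (by norm_num) (by norm_num)
        (by norm_num) (by norm_num) (by norm_num)
      refine ⟨d, K_ext ?_ ?_⟩
      · rw [F_apply1, h1, hd1]; norm_num
      · rw [F_apply2, h2, hd2]; norm_num
    · obtain ⟨d, hd1, hd2⟩ := exists_dig (a := 2) (b := 2) (by norm_num) (by norm_num)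
        (by norm_num) (by norm_num) (by norm_num)
      refine ⟨d, K_ext ?_ ?_⟩
      · rw [F_apply1, h1, hd1]; norm_num
      · rw [F_apply2, h2, hd2]; norm_num
  obtain ⟨d, hd⟩ := hd
  induction k with
  | zero => exact ⟨[], rfl, rfl⟩
  | succ k ih =>
    obtain ⟨w, hw, hw'⟩ := ih
    refine ⟨d :: w, by simp [hw], ?_⟩
    show F d (Fw w c) = c
    rw [hw', hd]

theorem Fw_append_apply (v w : List Dig) (x : K) : Fw (v ++ w) x = Fw v (Fw w x) := by
  rw [Fw_append]; rfl

theorem cross_c00_mem : c00 ∈ corners := mem_corners.2 ⟨Or.inl rfl, Or.inl rfl⟩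

theorem cross_near {M n : ℕ} (hnM : n ≤ M) {u : K → ℝ} (he : EM M u u ≤ cap M + cap M)
    {x : K} {v q : List Dig} (hv : v.length = n) (hq : q.length = M) (hxv : x ∈ cell v)
    (hxq : x ∈ cell q) {c : K} (hc : c ∈ corners) :
    |u (Fw q c00) - u (Fw v c)| ≤ 2 * crossDl n := by
  have e : q.take n ++ q.drop n = q := List.take_append_drop n q
  have hp : (q.take n).length = n := by rw [List.length_take, hq]; omega
  have hs : (q.drop n).length = M - n := by rw [List.length_drop, hq]
  have hxp : x ∈ cell (q.take n) := cell_append_subset _ (q.drop n) (by rwa [e])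
  obtain ⟨c1, hc1, c2, hc2, h12⟩ := exists_common_corner (hp.trans hv.symm)
    (near_of_mem (hp.trans hv.symm) hxp hxv)
  obtain ⟨w1, hw1, hw1'⟩ := corner_fix hc1 (M - n)
  obtain ⟨w2, hw2, hw2'⟩ := corner_fix hc2 (M - n)
  obtain ⟨w3, hw3, hw3'⟩ := corner_fix hc (M - n)
  have a1 := fun_cross_osc hnM he hp hs hw1 cross_c00_mem hc1
  have a2 := fun_cross_osc hnM he hv hw2 hw3 hc2 hc
  rw [e, Fw_append_apply, hw1', h12] at a1
  rw [Fw_append_apply, Fw_append_apply, hw2', hw3'] at a2
  rw [abs_le] at a1 a2 ⊢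
  constructor <;> linarith [a1.1, a1.2, a2.1, a2.2]

theorem ulim_abs_le {a b : ℕ → ℝ} {B t : ℝ} {n : ℕ} (ha : ∀ k, |a k| ≤ B) (hb : ∀ k, |b k| ≤ B)
    (h : ∀ k, n ≤ k → |a k - b k| ≤ t) : |ulim a - ulim b| ≤ t := by
  have h1 := ((tendsto_ulim ha).sub (tendsto_ulim hb)).abs
  have hev : ∀ᶠ k in (hyperfilter ℕ : Filter ℕ), |a k - b k| ≤ t :=
    Nat.hyperfilter_le_atTop ((eventually_ge_atTop n).mono h)
  exact le_of_tendsto h1 hev

theorem ulim_const (c : ℝ) : ulim (fun _ => c) = c := ulim_eq tendsto_const_nhds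

theorem flipY_Fw_apply (w : List Dig) (x : K) :
    flipY (Fw w x) = Fw (((w.map Dig.swap).map Dig.flip).map Dig.swap) (flipY x) := by
  have h1 : ∀ (w : List Dig) (x : K), swapXY (Fw w x) = Fw (w.map Dig.swap) (swapXY x) := by
    intro w x
    have := congrArg (fun f : C(K, K) => f x) (swapXY_Fw w)
    exact this
  have h2 : ∀ (w : List Dig) (x : K), flipX (Fw w x) = Fw (w.map Dig.flip) (flipX x) := by
    intro w x
    have := congrArg (fun f : C(K, K) => f x) (flipX_Fw w)
    exact this
  show swapXY (flipX (swapXY (Fw w x))) = Fw _ (swapXY (flipX (swapXY x)))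
  rw [h1, h2, h1]

/-- Let `u_M` be near minimisers (`exists_near` with `ε = cap M`), and for `x : K` let `φ_M x` be a vertex of a
cell of level `M` containing `x`. Put `u x = ulim (fun M => u_M (φ_M x))`. By `osc_cell`, `cap_add_le`, on a cell
of level `n` all the values of `u_M` at vertices of level `M ≥ n` are within `C (6/7)^(n/2)`; cells of level
`n` at index distance one share a corner; so `u` is continuous. If `x` is a vertex of level `n` then
`u_M (φ_M x) - u_M x → 0`. Hence `u` vanishes at the vertices on the left side, so (continuity) on the left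
side, etc., and `ρ^n EM n u u = ulim (ρ^n EM n u_M u_M) ≤ C^2 * 2`. -/
theorem exists_cross_fun {ρ C : ℝ} (hρ : 0 < ρ) (hC : 0 < C) (hcap : ∀ n, ρ ^ n * cap n ≤ C)
    (hmono : ∀ (n m : ℕ) (f : K → ℝ), ρ ^ n * EM n f f ≤ C * (ρ ^ (n + m) * EM (n + m) f f)) :
    ∃ u ∈ Dom ρ, IsCross u ∧ ∀ x, u (flipY x) = u x := by
  choose U hU hUy hU01 hUe using fun M => exists_near M (cap_pos M)
  choose W hWl hWx using fun (M : ℕ) (x : K) => exists_cell M x
  have hUb : ∀ (φ : ℕ → K) (k : ℕ), |U k (φ k)| ≤ 1 := fun φ k =>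
    abs_le.2 ⟨by linarith [(hU01 k (φ k)).1], (hU01 k (φ k)).2⟩
  obtain ⟨u, hu⟩ : ∃ u : K → ℝ, ∀ x, u x = ulim (fun M => U M (Fw (W M x) c00)) :=
    ⟨_, fun x => rfl⟩
  -- basic approximation
  have hA : ∀ (n : ℕ) (v : List Dig) (x c : K), v.length = n → x ∈ cell v → c ∈ corners →
      |u x - ulim (fun M => U M (Fw v c))| ≤ 2 * crossDl n := by
    intro n v x c hv hx hc
    rw [hu]
    refine ulim_abs_le (n := n) (B := 1) (fun k => hUb (fun M => Fw (W M x) c00) k)
      (fun k => hUb (fun M => Fw v c) k) ?_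
    intro k hk
    exact cross_near hk (hUe k) hv (hWl k x) hx (hWx k x) hc
  have hlim : ∀ a : ℝ, ∀ t : ℝ, (∀ n, |a| ≤ t * crossDl n) → a = 0 := by
    intro a t h
    have h1 : Tendsto (fun n => t * crossDl n) atTop (𝓝 (t * 0)) :=
      crossDl_tendsto.const_mul t
    rw [mul_zero] at h1
    have h2 : |a| ≤ 0 := ge_of_tendsto' h1 h
    exact abs_eq_zero.1 (le_antisymm h2 (abs_nonneg a))
  -- values at vertices
  have hB : ∀ (v : List Dig) (c : K), c ∈ corners →
      u (Fw v c) = ulim (fun M => U M (Fw v c)) := by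
    intro v c hc
    have h : u (Fw v c) - ulim (fun M => U M (Fw v c)) = 0 := by
      have key : ∀ m, |u (Fw v c) - ulim (fun M => U M (Fw v c))| ≤
          2 * crossDl (v.length + m) := by
        intro m
        obtain ⟨w, hw, hw'⟩ := corner_fix hc m
        have e : Fw (v ++ w) c = Fw v c := by rw [Fw_append_apply, hw']
        have := hA (v.length + m) (v ++ w) (Fw v c) c (by simp [hw]) ⟨c, e⟩ hc
        rwa [e] at this
      have h1 : Tendsto (fun m => 2 * crossDl (v.length + m)) atTop (𝓝 (2 * 0)) := by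
        apply Tendsto.const_mul
        have := crossDl_tendsto.comp (tendsto_add_atTop_nat v.length)
        refine this.congr fun m => ?_
        show crossDl (m + v.length) = _
        rw [add_comm]
      rw [mul_zero] at h1
      have h2 := ge_of_tendsto' h1 key
      exact abs_eq_zero.1 (le_antisymm h2 (abs_nonneg _))
    linarith
  -- continuity
  have hcont : Continuous u := by
    rw [Metric.continuous_iff]
    intro x ε hε
    have h1 : Tendsto (fun n => 4 * crossDl n) atTop (𝓝 (4 * 0)) := crossDl_tendsto.const_mul 4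
    rw [mul_zero] at h1
    obtain ⟨n, hn⟩ := (h1.eventually (gt_mem_nhds hε)).exists
    refine ⟨1 / 3 ^ n, by positivity, fun y hy => ?_⟩
    obtain ⟨v, hv, hxv⟩ := exists_cell n x
    obtain ⟨v', hv', hyv'⟩ := exists_cell n y
    have hnear : near 1 v' v := by
      apply near_of_dist (hv'.trans hv.symm) hyv' hxv
      rw [hv']
      rw [lt_div_iff₀ (by positivity)] at hy
      push_cast
      linarith
    obtain ⟨c, hc, c', hc', hcc⟩ := exists_common_corner (hv'.trans hv.symm) hnear
    have a1 := hA n v' y c hv' hyv' hc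
    have a2 := hA n v x c' hv hxv hc'
    rw [hcc] at a1
    rw [Real.dist_eq]
    refine lt_of_le_of_lt ?_ hn
    rw [abs_le] at a1 a2 ⊢
    constructor <;> linarith [a1.1, a1.2, a2.1, a2.2]
  refine ⟨u, ⟨hcont, 2 * C ^ 2, fun n => ?_⟩, ⟨fun x hx => ?_, fun x hx => ?_⟩, fun x => ?_⟩
  · -- energy bound
    have hT : ∀ (v : List Dig) (c : K), c ∈ corners →
        Tendsto (fun M => U M (Fw v c)) (hyperfilter ℕ : Filter ℕ) (𝓝 (u (Fw v c))) := by
      intro v c hc
      rw [hB v c hc]
      exact tendsto_ulim (fun k => hUb (fun _ => Fw v c) k)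
    have hE : Tendsto (fun M => EM n (U M) (U M)) (hyperfilter ℕ : Filter ℕ)
        (𝓝 (EM n u u)) := by
      unfold EM Q
      refine tendsto_finsetSum _ fun w _ => tendsto_finsetSum _ fun c hc =>
        tendsto_finsetSum _ fun c' hc' => ?_
      exact ((hT w c hc).sub (hT w c' hc')).mul ((hT w c hc).sub (hT w c' hc'))
    have hE' := hE.const_mul (ρ ^ n)
    have hev : ∀ᶠ M in (hyperfilter ℕ : Filter ℕ), ρ ^ n * EM n (U M) (U M) ≤ 2 * C ^ 2 := by
      refine Nat.hyperfilter_le_atTop ((eventually_ge_atTop n).mono fun M hM => ?_)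
      obtain ⟨m, rfl⟩ := Nat.exists_eq_add_of_le hM
      refine (hmono n m (U (n + m))).trans ?_
      have h1 := hUe (n + m)
      have h2 := hcap (n + m)
      have h3 : (0 : ℝ) < ρ ^ (n + m) := by positivity
      have h4 : ρ ^ (n + m) * EM (n + m) (U (n + m)) (U (n + m)) ≤ 2 * C := by nlinarith
      nlinarith
    exact le_of_tendsto hE' hev
  · apply hlim (u x) 2
    intro n
    obtain ⟨s, hs, hp, hxs⟩ := exists_cell_left n hx
    have h1 := hA n s x c00 hs hxs cross_c00_mem
    have h2 : ulim (fun M => U M (Fw s c00)) = 0 := by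
      have : (fun M => U M (Fw s c00)) = fun _ => (0 : ℝ) := by
        funext M
        apply (hU M).1
        show (Fw s c00).1.1 = 0
        rw [Fw_apply1, hp]; simp [c00]
      rw [this, ulim_const]
    rwa [h2, sub_zero] at h1
  · have : u x - 1 = 0 := by
      apply hlim (u x - 1) 2
      intro n
      obtain ⟨s, hs, hp, hxs⟩ := exists_cell_right n hx
      have hc10 : c10 ∈ corners := mem_corners.2 ⟨Or.inr rfl, Or.inl rfl⟩
      have h1 := hA n s x c10 hs hxs hc10
      have hp' : ((pos s).1 : ℝ) + 1 = 3 ^ n := by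
        have : (pos s).1 + 1 = 3 ^ n := by omega
        exact_mod_cast this
      have h2 : ulim (fun M => U M (Fw s c10)) = 1 := by
        have : (fun M => U M (Fw s c10)) = fun _ => (1 : ℝ) := by
          funext M
          apply (hU M).2
          show (Fw s c10).1.1 = 1
          have e : (c10 : K).1.1 = 1 := rfl
          rw [Fw_apply1, e, hp', hs]
          exact div_self (by positivity)
        rw [this, ulim_const]
      rwa [h2] at h1
    linarith
  · have : u (flipY x) - u x = 0 := by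
      apply hlim (u (flipY x) - u x) 4
      intro n
      obtain ⟨v, hv, y, rfl⟩ := exists_cell n x
      have h1 := hA n v (Fw v y) c00 hv ⟨y, rfl⟩ cross_c00_mem
      have h2 := hA n (((v.map Dig.swap).map Dig.flip).map Dig.swap) (flipY (Fw v y))
        (flipY c00) (by simp [hv]) ⟨flipY y, (flipY_Fw_apply v y).symm⟩
        (flipY_corners cross_c00_mem)
      have h3 : (fun M => U M (Fw (((v.map Dig.swap).map Dig.flip).map Dig.swap) (flipY c00))) =
          fun M => U M (Fw v c00) := by
        funext M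
        rw [← flipY_Fw_apply, hUy]
      rw [h3] at h2
      rw [abs_le] at h1 h2 ⊢
      constructor <;> linarith [h1.1, h1.2, h2.1, h2.2]
    linarith

end Pool.Agent.Helper67.CF
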