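import Pool.Agent.Helper67.CF.Glue

/-! Module Interp: interpolation of vertex functions, submultiplicativity. -/

open Filter Topology Pool.Agent.Helper67.SC

noncomputable section

namespace Pool.Agent.Helper67.CF

/-- bilinear interpolation of the corner values of `v` on the cell of `w` with profile `u` -/
def interpG (u v : K → ℝ) (w : List Dig) (x : K) : ℝ :=
  v (Fw w c00) * ((1 - u x) * (1 - u (swapXY x))) + v (Fw w c10) * (u x * (1 - u (swapXY x))) +
    v (Fw w c01) * ((1 - u x) * u (swapXY x)) + v (Fw w c11) * (u x * u (swapXY x))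

theorem interp_eqs {w s : List Dig} {x y : K} (hl : w.length = s.length) (h : Fw w x = Fw s y) :
    ((pos w).1 : ℝ) + x.1.1 = (pos s).1 + y.1.1 ∧
      ((pos w).2 : ℝ) + x.1.2 = (pos s).2 + y.1.2 := by
  constructor
  · have := congrArg (fun z : K => z.1.1) h
    simp only [Fw_apply1, hl] at this
    have h3 : (3 : ℝ) ^ s.length ≠ 0 := by positivity
    field_simp at this
    exact this
  · have := congrArg (fun z : K => z.1.2) h
    simp only [Fw_apply2, hl] at this
    have h3 : (3 : ℝ) ^ s.length ≠ 0 := by positivity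
    field_simp at this
    exact this

theorem interp_corner {w s : List Dig} {x y : K} (hl : w.length = s.length)
    (h1 : ((pos w).1 : ℝ) + x.1.1 = (pos s).1 + y.1.1)
    (h2 : ((pos w).2 : ℝ) + x.1.2 = (pos s).2 + y.1.2) : Fw w x = Fw s y := by
  apply K_ext
  · rw [Fw_apply1, Fw_apply1, h1, hl]
  · rw [Fw_apply2, Fw_apply2, h2, hl]

theorem interp_right {w s : List Dig} {x y : K} {u v : K → ℝ} (hu : IsCross u)
    (hy : ∀ x, u (flipY x) = u x) (hl : w.length = s.length)
    (h1 : (pos w).1 = (pos s).1 + 1) (h2 : (pos w).2 = (pos s).2) (hx : x.1.1 = 0)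
    (hy1 : y.1.1 = 1) (h3 : x.1.2 = y.1.2) : interpG u v w x = interpG u v s y := by
  have h1' : ((pos w).1 : ℝ) = (pos s).1 + 1 := by exact_mod_cast h1
  have h2' : ((pos w).2 : ℝ) = (pos s).2 := by exact_mod_cast h2
  have e1 : Fw w c00 = Fw s c10 := interp_corner hl
    (by rw [h1']; simp [c00, c10]) (by rw [h2']; simp [c00, c10])
  have e2 : Fw w c01 = Fw s c11 := interp_corner hl
    (by rw [h1']; simp [c01, c11]) (by rw [h2']; simp [c01, c11])
  have e3 : u x = 0 := hu.1 x hx
  have e4 : u y = 1 := hu.2 y hy1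
  have e5 : u (swapXY x) = u (swapXY y) := by
    rw [← hy (swapXY y)]
    congr 1
    apply K_ext
    · exact h3
    · show x.1.1 = 1 - y.1.1
      rw [hx, hy1]; norm_num
  unfold interpG
  rw [e1, e2, e3, e4, e5]
  ring

theorem interp_top {w s : List Dig} {x y : K} {u v : K → ℝ} (hu : IsCross u)
    (hy : ∀ x, u (flipY x) = u x) (hl : w.length = s.length)
    (h1 : (pos w).1 = (pos s).1) (h2 : (pos w).2 = (pos s).2 + 1) (hx : x.1.2 = 0)
    (hy1 : y.1.2 = 1) (h3 : x.1.1 = y.1.1) : interpG u v w x = interpG u v s y := by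
  have h1' : ((pos w).1 : ℝ) = (pos s).1 := by exact_mod_cast h1
  have h2' : ((pos w).2 : ℝ) = (pos s).2 + 1 := by exact_mod_cast h2
  have e1 : Fw w c00 = Fw s c01 := interp_corner hl
    (by rw [h1']; simp [c00, c01]) (by rw [h2']; simp [c00, c01])
  have e2 : Fw w c10 = Fw s c11 := interp_corner hl
    (by rw [h1']; simp [c10, c11]) (by rw [h2']; simp [c10, c11])
  have e3 : u (swapXY x) = 0 := hu.1 _ hx
  have e4 : u (swapXY y) = 1 := hu.2 _ hy1
  have e5 : u x = u y := by
    rw [← hy y]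
    congr 1
    apply K_ext
    · exact h3
    · show x.1.2 = 1 - y.1.2
      rw [hx, hy1]; norm_num
  unfold interpG
  rw [e1, e2, e3, e4, e5]
  ring

theorem interp_diag {w s : List Dig} {x y : K} {u v : K → ℝ} (hu : IsCross u)
    (hl : w.length = s.length)
    (h1 : (pos w).1 = (pos s).1 + 1) (h2 : (pos w).2 = (pos s).2 + 1) (hx : x.1.1 = 0)
    (hx2 : x.1.2 = 0) (hy1 : y.1.1 = 1) (hy2 : y.1.2 = 1) :
    interpG u v w x = interpG u v s y := by
  have h1' : ((pos w).1 : ℝ) = (pos s).1 + 1 := by exact_mod_cast h1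
  have h2' : ((pos w).2 : ℝ) = (pos s).2 + 1 := by exact_mod_cast h2
  have e1 : Fw w c00 = Fw s c11 := interp_corner hl
    (by rw [h1']; simp [c00, c11]) (by rw [h2']; simp [c00, c11])
  have e3 : u (swapXY x) = 0 := hu.1 _ hx2
  have e4 : u (swapXY y) = 1 := hu.2 _ hy2
  have e5 : u x = 0 := hu.1 _ hx
  have e6 : u y = 1 := hu.2 _ hy1
  unfold interpG
  rw [e1, e3, e4, e5, e6]
  ring

theorem interp_anti {w s : List Dig} {x y : K} {u v : K → ℝ} (hu : IsCross u)
    (hl : w.length = s.length)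
    (h1 : (pos w).1 = (pos s).1 + 1) (h2 : (pos w).2 = (pos s).2 - 1) (hx : x.1.1 = 0)
    (hx2 : x.1.2 = 1) (hy1 : y.1.1 = 1) (hy2 : y.1.2 = 0) :
    interpG u v w x = interpG u v s y := by
  have h1' : ((pos w).1 : ℝ) = (pos s).1 + 1 := by exact_mod_cast h1
  have h2' : ((pos w).2 : ℝ) = (pos s).2 - 1 := by exact_mod_cast h2
  have e1 : Fw w c01 = Fw s c10 := interp_corner hl
    (by rw [h1']; simp [c01, c10]) (by rw [h2']; simp [c01, c10])
  have e3 : u (swapXY x) = 1 := hu.2 _ hx2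
  have e4 : u (swapXY y) = 0 := hu.1 _ hy2
  have e5 : u x = 0 := hu.1 _ hx
  have e6 : u y = 1 := hu.2 _ hy1
  unfold interpG
  rw [e1, e3, e4, e5, e6]
  ring

theorem interp_compat {u : K → ℝ} (hu : IsCross u) (hy : ∀ x, u (flipY x) = u x) (v : K → ℝ)
    {w s : List Dig} (hl : w.length = s.length) {x y : K} (h : Fw w x = Fw s y) :
    interpG u v w x = interpG u v s y := by
  obtain ⟨h1, h2⟩ := interp_eqs hl h
  have hx' := K_bounds x
  have hy' := K_bounds y
  rcases offset_cases h1 hx'.1 hx'.2.1 hy'.1 hy'.2.1 with e | ⟨e, e'⟩ | ⟨e, e'⟩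
  · have ex : x.1.1 = y.1.1 := by rw [e] at h1; linarith
    rcases offset_cases h2 hx'.2.2.1 hx'.2.2.2 hy'.2.2.1 hy'.2.2.2 with f | ⟨f, f'⟩ | ⟨f, f'⟩
    · have fx : x.1.2 = y.1.2 := by rw [f] at h2; linarith
      have hw : w = s := pos_inj hl (Prod.ext e f)
      rw [hw, K_ext ex fx]
    · have fx : x.1.2 = 0 := by rw [f, f'] at h2; push_cast at h2; linarith
      exact interp_top hu hy hl e f fx f' ex
    · have fx : x.1.2 = 1 := by rw [f, f'] at h2; push_cast at h2; linarith
      exact (interp_top hu hy hl.symm e.symm (by omega) f' fx ex.symm).symm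
  · have ex : x.1.1 = 0 := by rw [e, e'] at h1; push_cast at h1; linarith
    rcases offset_cases h2 hx'.2.2.1 hx'.2.2.2 hy'.2.2.1 hy'.2.2.2 with f | ⟨f, f'⟩ | ⟨f, f'⟩
    · have fx : x.1.2 = y.1.2 := by rw [f] at h2; linarith
      exact interp_right hu hy hl e f ex e' fx
    · have fx : x.1.2 = 0 := by rw [f, f'] at h2; push_cast at h2; linarith
      exact interp_diag hu hl e f ex fx e' f'
    · have fx : x.1.2 = 1 := by rw [f, f'] at h2; push_cast at h2; linarith
      exact interp_anti hu hl e f ex fx e' f'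
  · have ex : x.1.1 = 1 := by rw [e, e'] at h1; push_cast at h1; linarith
    rcases offset_cases h2 hx'.2.2.1 hx'.2.2.2 hy'.2.2.1 hy'.2.2.2 with f | ⟨f, f'⟩ | ⟨f, f'⟩
    · have fx : x.1.2 = y.1.2 := by rw [f] at h2; linarith
      exact (interp_right hu hy hl.symm (by omega) f.symm e' ex fx.symm).symm
    · have fx : x.1.2 = 0 := by rw [f, f'] at h2; push_cast at h2; linarith
      exact (interp_anti hu hl.symm (by omega) (by omega) e' f' ex fx).symm
    · have fx : x.1.2 = 1 := by rw [f, f'] at h2; push_cast at h2; linarith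
      exact (interp_diag hu hl.symm (by omega) (by omega) e' f' ex fx).symm

theorem interp_at_corner {u : K → ℝ} (hu : IsCross u) (v : K → ℝ) (w : List Dig) {c : K}
    (hc : c ∈ corners) : interpG u v w c = v (Fw w c) := by
  have h := mem_corners.1 hc
  have a0 : ∀ x : K, x.1.1 = 0 → u x = 0 := fun x hx => hu.1 x hx
  have a1 : ∀ x : K, x.1.1 = 1 → u x = 1 := fun x hx => hu.2 x hx
  obtain ⟨h1, h2⟩ := h
  unfold interpG
  rcases h1 with h1 | h1 <;> rcases h2 with h2 | h2
  · have e : c = c00 := K_ext h1 h2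
    rw [a0 c h1, a0 (swapXY c) h2, e]; ring
  · have e : c = c01 := K_ext h1 h2
    rw [a0 c h1, a1 (swapXY c) h2, e]; ring
  · have e : c = c10 := K_ext h1 h2
    rw [a1 c h1, a0 (swapXY c) h2, e]; ring
  · have e : c = c11 := K_ext h1 h2
    rw [a1 c h1, a1 (swapXY c) h2, e]; ring

theorem c00_mem : c00 ∈ corners := mem_corners.2 ⟨Or.inl rfl, Or.inl rfl⟩
theorem c10_mem : c10 ∈ corners := mem_corners.2 ⟨Or.inr rfl, Or.inl rfl⟩
theorem c01_mem : c01 ∈ corners := mem_corners.2 ⟨Or.inl rfl, Or.inr rfl⟩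
theorem c11_mem : c11 ∈ corners := mem_corners.2 ⟨Or.inr rfl, Or.inr rfl⟩

theorem interp_energy {u : K → ℝ} (h01 : ∀ x, 0 ≤ u x ∧ u x ≤ 1) (m : ℕ) (v : K → ℝ)
    (w : List Dig) : EM m (interpG u v w) (interpG u v w) ≤
      100 * EM m u u * Q (fun x => v (Fw w x)) (fun x => v (Fw w x)) := by
  set a00 := v (Fw w c00) with h00
  set a10 := v (Fw w c10) with h10
  set a01 := v (Fw w c01) with h01'
  set a11 := v (Fw w c11) with h11
  set q := Q (fun x => v (Fw w x)) (fun x => v (Fw w x)) with hq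
  have q1 : (a10 - a00) ^ 2 ≤ q := sq_le_Q (fun x => v (Fw w x)) c10_mem c00_mem
  have q2 : (a01 - a00) ^ 2 ≤ q := sq_le_Q (fun x => v (Fw w x)) c01_mem c00_mem
  have q3 : (a11 - a10) ^ 2 ≤ q := sq_le_Q (fun x => v (Fw w x)) c11_mem c10_mem
  have hP : 0 ≤ EM m u u := EM_nonneg m u
  have hV : EM m (fun x => u (swapXY x)) (fun x => u (swapXY x)) = EM m u u := EM_swapXY m u u
  have hb : ∀ x, |u x| ≤ 1 := fun x => abs_le.2 ⟨by linarith [(h01 x).1], (h01 x).2⟩
  have hUV : EM m (fun x => u x * u (swapXY x)) (fun x => u x * u (swapXY x)) ≤ 4 * EM m u u := by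
    refine (EM_mul_le m u (fun x => u (swapXY x)) hb (fun x => hb (swapXY x))).trans ?_
    rw [hV]; linarith
  -- first step: remove the constant
  have s1 : EM m (interpG u v w) (interpG u v w) ≤
      EM m (fun x => ((a10 - a00) * u x + (a01 - a00) * u (swapXY x)) +
        (a11 - a10 - (a01 - a00)) * (u x * u (swapXY x)))
        (fun x => ((a10 - a00) * u x + (a01 - a00) * u (swapXY x)) +
        (a11 - a10 - (a01 - a00)) * (u x * u (swapXY x))) := by
    apply EM_mono
    intro x y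
    apply le_of_eq
    congr 1
    unfold interpG
    rw [← h00, ← h10, ← h01', ← h11]
    ring
  have s2 := EM_add_le m (fun x => (a10 - a00) * u x + (a01 - a00) * u (swapXY x))
    (fun x => (a11 - a10 - (a01 - a00)) * (u x * u (swapXY x)))
  have s3 := EM_add_le m (fun x => (a10 - a00) * u x) (fun x => (a01 - a00) * u (swapXY x))
  have s4 := EM_smul m (a10 - a00) u
  have s5 := EM_smul m (a01 - a00) (fun x => u (swapXY x))
  have s6 := EM_smul m (a11 - a10 - (a01 - a00)) (fun x => u x * u (swapXY x))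
  rw [s4, s5, hV] at s3
  rw [s6] at s2
  have s7 : (a11 - a10 - (a01 - a00)) ^ 2 ≤ 4 * q := by
    nlinarith [sq_nonneg (a11 - a10 + (a01 - a00))]
  have s8 : (a11 - a10 - (a01 - a00)) ^ 2 *
      EM m (fun x => u x * u (swapXY x)) (fun x => u x * u (swapXY x)) ≤
      4 * q * (4 * EM m u u) :=
    mul_le_mul s7 hUV (EM_nonneg m _) (by nlinarith [sq_nonneg (a10 - a00)])
  have s9 : (a10 - a00) ^ 2 * EM m u u ≤ q * EM m u u := mul_le_mul_of_nonneg_right q1 hP
  have s10 : (a01 - a00) ^ 2 * EM m u u ≤ q * EM m u u := mul_le_mul_of_nonneg_right q2 hP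
  have hq0 : 0 ≤ q * EM m u u := mul_nonneg (Q_nonneg _) hP
  linarith [s1, s2, s3, s8, s9, s10, hq0]

/-- Interpolation. On the cell of `w` (length `n`) put, with `U = u`, `V = u ∘ swapXY` and
`a = v (Fw w c)` for the four corners `c`,
`a00 (1-U)(1-V) + a10 U (1-V) + a01 (1-U) V + a11 U V`,
and glue with `glueP` (on a common side only one of `U`, `V` varies and it has the same values from
both sides because of `hy`). The energy on the cell is at most `100 * EM m u u * Q(a)`
(`EM_add_le`, `EM_mul_le`, `EM_smul`). -/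
theorem exists_interp {u : K → ℝ} (hu : IsCross u) (hy : ∀ x, u (flipY x) = u x)
    (h01 : ∀ x, 0 ≤ u x ∧ u x ≤ 1) (n : ℕ) (v : K → ℝ) :
    ∃ f : K → ℝ, (∀ w : List Dig, w.length = n → ∀ c ∈ corners, f (Fw w c) = v (Fw w c)) ∧
      (IsCross v → IsCross f) ∧ ∀ m, EM (n + m) f f ≤ 100 * EM m u u * EM n v v := by
  obtain ⟨f, hf⟩ := glueP n (interpG u v) (fun w s hw hs x y h =>
    interp_compat hu hy v (hw.trans hs.symm) h)
  refine ⟨f, fun w hw c hc => ?_, fun hv => ⟨fun x hx => ?_, fun x hx => ?_⟩, fun m => ?_⟩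
  · rw [hf w hw, interp_at_corner hu v w hc]
  · obtain ⟨s, hs, hp, y, rfl⟩ := exists_cell_left n hx
    rw [hf s hs]
    have h1 : ∀ z : K, z.1.1 = 0 → (Fw s z).1.1 = 0 := by
      intro z hz
      rw [Fw_apply1, hp, hz]; simp
    have hy0 : y.1.1 = 0 := by
      have hx' : (Fw s y).1.1 = 0 := hx
      rw [Fw_apply1, hp] at hx'
      have h3 : (3 : ℝ) ^ s.length ≠ 0 := by positivity
      field_simp at hx'
      simpa using hx'
    have e1 : u y = 0 := hu.1 y hy0
    have e2 : v (Fw s c00) = 0 := hv.1 _ (h1 c00 rfl)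
    have e3 : v (Fw s c01) = 0 := hv.1 _ (h1 c01 rfl)
    unfold interpG
    rw [e1, e2, e3]; ring
  · obtain ⟨s, hs, hp, y, rfl⟩ := exists_cell_right n hx
    rw [hf s hs]
    have hp' : ((pos s).1 : ℝ) + 1 = 3 ^ n := by
      have : (pos s).1 + 1 = 3 ^ n := by omega
      exact_mod_cast this
    have h1 : ∀ z : K, z.1.1 = 1 → (Fw s z).1.1 = 1 := by
      intro z hz
      rw [Fw_apply1, hz, hp', hs]
      exact div_self (by positivity)
    have hy0 : y.1.1 = 1 := by
      have hx' : (Fw s y).1.1 = 1 := hx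
      rw [Fw_apply1, hs] at hx'
      have h3 : (3 : ℝ) ^ n ≠ 0 := by positivity
      rw [div_eq_one_iff_eq h3] at hx'
      linarith
    have e1 : u y = 1 := hu.2 y hy0
    have e2 : v (Fw s c10) = 1 := hv.2 _ (h1 c10 rfl)
    have e3 : v (Fw s c11) = 1 := hv.2 _ (h1 c11 rfl)
    unfold interpG
    rw [e1, e2, e3]; ring
  · rw [EM_append]
    have e : ∀ w ∈ words n, EM m (fun x => f (Fw w x)) (fun x => f (Fw w x)) ≤
        100 * EM m u u * Q (fun x => v (Fw w x)) (fun x => v (Fw w x)) := by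
      intro w hw
      have hw' := mem_words.1 hw
      have : (fun x => f (Fw w x)) = interpG u v w := funext fun x => hf w hw' x
      rw [this]
      exact interp_energy h01 m v w
    refine (Finset.sum_le_sum e).trans ?_
    rw [← Finset.mul_sum]
    exact le_rfl

theorem cap_sub (n m : ℕ) : cap (n + m) ≤ 400 * (cap n * cap m) := by
  obtain ⟨u, hu, hy, h01, he⟩ := exists_near m (cap_pos m)
  obtain ⟨v, hv, _, _, he'⟩ := exists_near n (cap_pos n)
  obtain ⟨f, _, hf, hE⟩ := exists_interp hu hy h01 n v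
  refine (cap_le (n + m) (hf hv)).trans ((hE m).trans ?_)
  have h1 : EM m u u * EM n v v ≤ (2 * cap m) * (2 * cap n) :=
    mul_le_mul (by linarith) (by linarith) (EM_nonneg n v) (by linarith [cap_pos m])
  nlinarith [h1]

end Pool.Agent.Helper67.CF
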