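import Pool.Agent.Helper67.CF.EnBasic

/-! Module Touch: horizontal and vertical crossing sets touch; reflections of crossing sets. -/

open Filter Topology Pool.Agent.Helper67.SC

noncomputable section

namespace Pool.Agent.Helper67.CF

/-! ### king paths -/

/-- joined by a king path in `S` -/
def TouchKP (S : Set (ℤ × ℤ)) (p q : ℤ × ℤ) : Prop :=
  Relation.ReflTransGen (fun u v : ℤ × ℤ => v ∈ S ∧ |v.1 - u.1| ≤ 1 ∧ |v.2 - u.2| ≤ 1) p q

theorem touchKP_seq {S : Set (ℤ × ℤ)} {s t : ℤ × ℤ} (hs : s ∈ S) (h : TouchKP S s t) :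
    ∃ (a : ℕ → ℤ × ℤ) (m : ℕ), a 0 = s ∧ a m = t ∧ (∀ i ≤ m, a i ∈ S) ∧
      ∀ i < m, |(a (i + 1)).1 - (a i).1| ≤ 1 ∧ |(a (i + 1)).2 - (a i).2| ≤ 1 := by
  induction h with
  | refl => exact ⟨fun _ => s, 0, rfl, rfl, fun _ _ => hs, fun i hi => absurd hi (Nat.not_lt_zero i)⟩
  | tail h1 h2 ih =>
    rename_i b c
    obtain ⟨a, m, h0, hm, hT, hn⟩ := ih
    refine ⟨fun i => if i ≤ m then a i else c, m + 1, ?_, ?_, fun i hi => ?_, fun i hi => ?_⟩
    · simp [h0]
    · simp
    · by_cases h : i ≤ m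
      · simp only [h, if_true]
        exact hT i h
      · simp only [h, if_false]
        exact h2.1
    · by_cases h : i < m
      · have h' : i + 1 ≤ m := h
        have h'' : i ≤ m := h.le
        simp only [h', h'', if_true]
        exact hn i h
      · have hi' : i = m := by omega
        subst hi'
        simp only [le_refl, if_true, Nat.not_succ_le_self, if_false]
        rw [hm]
        exact h2.2

theorem touchKP_of_seq {S : Set (ℤ × ℤ)} (a : ℕ → ℤ × ℤ) (m : ℕ) (hS : ∀ i ≤ m, a i ∈ S)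
    (hs : ∀ i < m, |(a (i + 1)).1 - (a i).1| ≤ 1 ∧ |(a (i + 1)).2 - (a i).2| ≤ 1) :
    TouchKP S (a 0) (a m) := by
  induction m with
  | zero => exact Relation.ReflTransGen.refl
  | succ m ih =>
    refine Relation.ReflTransGen.tail (ih (fun i hi => hS i (by omega)) fun i hi => hs i (by omega))
      ⟨hS _ le_rfl, hs m (by omega)⟩

/-- straight segments -/
theorem touchKP_right {S : Set (ℤ × ℤ)} (x y : ℤ) (s : ℕ)
    (h : ∀ r : ℤ, 0 ≤ r → r ≤ s → (x + r, y) ∈ S) : TouchKP S (x, y) (x + s, y) := by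
  have := touchKP_of_seq (S := S) (fun i => (x + (i : ℤ), y)) s
    (fun i hi => h i (by positivity) (by exact_mod_cast hi)) (fun i _ => by
      constructor
      · have : (x + ((i + 1 : ℕ) : ℤ)) - (x + (i : ℤ)) = 1 := by push_cast; ring
        simp only [this]; norm_num
      · simp)
  simpa using this

theorem touchKP_up {S : Set (ℤ × ℤ)} (x y : ℤ) (s : ℕ)
    (h : ∀ r : ℤ, 0 ≤ r → r ≤ s → (x, y + r) ∈ S) : TouchKP S (x, y) (x, y + s) := by
  have := touchKP_of_seq (S := S) (fun i => (x, y + (i : ℤ))) s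
    (fun i hi => h i (by positivity) (by exact_mod_cast hi)) (fun i _ => by
      constructor
      · simp
      · have : (y + ((i + 1 : ℕ) : ℤ)) - (y + (i : ℤ)) = 1 := by push_cast; ring
        simp only [this]; norm_num)
  simpa using this

/-- projection of the large square to the small one -/
def touchCl (N x : ℤ) : ℤ := max 0 (min N (x - 3))

theorem touchCl_sub (N x y : ℤ) : |touchCl N x - touchCl N y| ≤ |x - y| := by
  unfold touchCl
  rcases abs_cases (x - y) with ⟨h, _⟩ | ⟨h, _⟩ <;> rw [h, abs_le] <;> constructor <;>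
    (simp only [max_def, min_def]; split_ifs <;> omega)

theorem touchCl_in {N x : ℤ} (h0 : 0 ≤ x) (h1 : x ≤ N) : touchCl N (x + 3) = x := by
  unfold touchCl
  rw [add_sub_cancel_right, min_eq_right h1, max_eq_right h0]

theorem touchCl_low {N x : ℤ} (hN : 0 ≤ N) (h1 : x ≤ 3) : touchCl N x = 0 := by
  unfold touchCl
  rw [min_eq_right (by omega), max_eq_left (by omega)]

theorem touchCl_high {N x : ℤ} (hN : 0 ≤ N) (h1 : N + 3 ≤ x) : touchCl N x = N := by
  unfold touchCl
  rw [min_eq_left (by omega), max_eq_right hN]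

/-- Two king paths in the square `[0,N]²`, one from left to right, one from bottom to top, come
within distance one. (Extend both by a margin of width `3` and use `dcl` of SC/T1 in `[-3, N+3]²`,
translated.) -/
theorem dcl_cross (N : ℤ) (hN : 0 ≤ N) (a b : ℕ → ℤ × ℤ) (m n : ℕ)
    (ha : ∀ i ≤ m, 0 ≤ (a i).1 ∧ (a i).1 ≤ N ∧ 0 ≤ (a i).2 ∧ (a i).2 ≤ N)
    (hb : ∀ j ≤ n, 0 ≤ (b j).1 ∧ (b j).1 ≤ N ∧ 0 ≤ (b j).2 ∧ (b j).2 ≤ N)
    (ha' : ∀ i < m, |(a (i + 1)).1 - (a i).1| ≤ 1 ∧ |(a (i + 1)).2 - (a i).2| ≤ 1)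
    (hb' : ∀ j < n, |(b (j + 1)).1 - (b j).1| ≤ 1 ∧ |(b (j + 1)).2 - (b j).2| ≤ 1)
    (ha0 : (a 0).1 = 0) (ham : (a m).1 = N) (hb0 : (b 0).2 = 0) (hbn : (b n).2 = N) :
    ∃ i ≤ m, ∃ j ≤ n, |(a i).1 - (b j).1| ≤ 1 ∧ |(a i).2 - (b j).2| ≤ 1 := by
  by_contra hcon
  push Not at hcon
  -- the enlarged sets
  let SA : Set (ℤ × ℤ) := {p | (0 ≤ p.1 ∧ p.1 ≤ N + 6 ∧ 0 ≤ p.2 ∧ p.2 ≤ N + 6) ∧
    (p.1 = 0 ∨ ∃ i ≤ m, touchCl N p.1 = (a i).1 ∧ touchCl N p.2 = (a i).2)}
  let SB : Set (ℤ × ℤ) := {p | (0 ≤ p.1 ∧ p.1 ≤ N + 6 ∧ 0 ≤ p.2 ∧ p.2 ≤ N + 6) ∧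
    3 ≤ p.1 ∧ ∃ j ≤ n, touchCl N p.1 = (b j).1 ∧ touchCl N p.2 = (b j).2}
  have hsep : ∀ p ∈ SA, ∀ q ∈ SB, 2 ≤ max |p.1 - q.1| |p.2 - q.2| := by
    rintro p ⟨-, hp⟩ q ⟨-, hq3, j, hj, hq1, hq2⟩
    rw [le_max_iff]
    rcases hp with hp | ⟨i, hi, hp1, hp2⟩
    · left
      rw [hp, abs_sub_comm, sub_zero]
      exact le_trans (by omega) (le_abs_self _)
    · have h1 := touchCl_sub N p.1 q.1
      have h2 := touchCl_sub N p.2 q.2
      rw [hp1, hq1] at h1
      rw [hp2, hq2] at h2
      have h3 := hcon i hi j hj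
      by_cases h4 : |(a i).1 - (b j).1| ≤ 1
      · right
        have := h3 h4
        omega
      · left
        omega
  have a0 := ha 0 (Nat.zero_le _)
  have am := ha m le_rfl
  have b0 := hb 0 (Nat.zero_le _)
  have bn := hb n le_rfl
  -- the path `A`
  have hA1 : TouchKP SA (0, 0) (0, (a 0).2 + 3) := by
    have := touchKP_up (S := SA) 0 0 ((a 0).2 + 3).toNat (fun r hr0 hr1 => by
      refine ⟨⟨le_rfl, by omega, by simpa using hr0, ?_⟩, Or.inl rfl⟩
      show 0 + r ≤ N + 6
      omega)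
    have e : (0 : ℤ) + (((a 0).2 + 3).toNat : ℤ) = (a 0).2 + 3 := by omega
    rwa [e] at this
  have hA2 : TouchKP SA (0, (a 0).2 + 3) (3, (a 0).2 + 3) := by
    have := touchKP_right (S := SA) 0 ((a 0).2 + 3) 3 (fun r hr0 hr1 => by
      refine ⟨⟨?_, ?_, ?_, ?_⟩, Or.inr ⟨0, Nat.zero_le _, ?_, ?_⟩⟩
      · show 0 ≤ 0 + r
        omega
      · show 0 + r ≤ N + 6
        push_cast at hr1
        omega
      · show 0 ≤ (a 0).2 + 3
        omega
      · show (a 0).2 + 3 ≤ N + 6
        omega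
      · rw [ha0]
        exact touchCl_low hN (by push_cast at hr1; show 0 + r ≤ 3; omega)
      · exact touchCl_in a0.2.2.1 a0.2.2.2)
    simpa using this
  have hA3 : TouchKP SA (3, (a 0).2 + 3) (N + 3, (a m).2 + 3) := by
    have := touchKP_of_seq (S := SA) (fun i => ((a i).1 + 3, (a i).2 + 3)) m
      (fun i hi => by
        have h := ha i hi
        refine ⟨⟨?_, ?_, ?_, ?_⟩, Or.inr ⟨i, hi, touchCl_in h.1 h.2.1, touchCl_in h.2.2.1 h.2.2.2⟩⟩
        · show 0 ≤ (a i).1 + 3
          omega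
        · show (a i).1 + 3 ≤ N + 6
          omega
        · show 0 ≤ (a i).2 + 3
          omega
        · show (a i).2 + 3 ≤ N + 6
          omega)
      (fun i hi => by
        simp only [add_sub_add_right_eq_sub]
        exact ha' i hi)
    simp only [ha0, ham, zero_add] at this
    exact this
  have hA4 : TouchKP SA (N + 3, (a m).2 + 3) (N + 6, (a m).2 + 3) := by
    have := touchKP_right (S := SA) (N + 3) ((a m).2 + 3) 3 (fun r hr0 hr1 => by
      refine ⟨⟨?_, ?_, ?_, ?_⟩, Or.inr ⟨m, le_rfl, ?_, ?_⟩⟩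
      · show 0 ≤ N + 3 + r
        omega
      · show N + 3 + r ≤ N + 6
        push_cast at hr1
        omega
      · show 0 ≤ (a m).2 + 3
        omega
      · show (a m).2 + 3 ≤ N + 6
        omega
      · rw [ham]
        exact touchCl_high hN (by show N + 3 ≤ N + 3 + r; omega)
      · exact touchCl_in am.2.2.1 am.2.2.2)
    have e : N + 3 + ((3 : ℕ) : ℤ) = N + 6 := by push_cast; ring
    rwa [e] at this
  -- the path `B`
  have hB1 : TouchKP SB ((b 0).1 + 3, 0) ((b 0).1 + 3, 3) := by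
    have := touchKP_up (S := SB) ((b 0).1 + 3) 0 3 (fun r hr0 hr1 => by
      refine ⟨⟨?_, ?_, ?_, ?_⟩, ?_, 0, Nat.zero_le _, ?_, ?_⟩
      · show 0 ≤ (b 0).1 + 3
        omega
      · show (b 0).1 + 3 ≤ N + 6
        omega
      · show 0 ≤ 0 + r
        omega
      · show 0 + r ≤ N + 6
        push_cast at hr1
        omega
      · show 3 ≤ (b 0).1 + 3
        omega
      · exact touchCl_in b0.1 b0.2.1
      · rw [hb0]
        exact touchCl_low hN (by push_cast at hr1; show 0 + r ≤ 3; omega))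
    simpa using this
  have hB2 : TouchKP SB ((b 0).1 + 3, 3) ((b n).1 + 3, N + 3) := by
    have := touchKP_of_seq (S := SB) (fun j => ((b j).1 + 3, (b j).2 + 3)) n
      (fun j hj => by
        have h := hb j hj
        refine ⟨⟨?_, ?_, ?_, ?_⟩, ?_, j, hj, touchCl_in h.1 h.2.1, touchCl_in h.2.2.1 h.2.2.2⟩
        · show 0 ≤ (b j).1 + 3
          omega
        · show (b j).1 + 3 ≤ N + 6
          omega
        · show 0 ≤ (b j).2 + 3
          omega
        · show (b j).2 + 3 ≤ N + 6
          omega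
        · show 3 ≤ (b j).1 + 3
          omega)
      (fun j hj => by
        simp only [add_sub_add_right_eq_sub]
        exact hb' j hj)
    simp only [hb0, hbn, zero_add] at this
    exact this
  have hB3 : TouchKP SB ((b n).1 + 3, N + 3) ((b n).1 + 3, N + 6) := by
    have := touchKP_up (S := SB) ((b n).1 + 3) (N + 3) 3 (fun r hr0 hr1 => by
      refine ⟨⟨?_, ?_, ?_, ?_⟩, ?_, n, le_rfl, ?_, ?_⟩
      · show 0 ≤ (b n).1 + 3
        omega
      · show (b n).1 + 3 ≤ N + 6
        omega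
      · show 0 ≤ N + 3 + r
        omega
      · show N + 3 + r ≤ N + 6
        push_cast at hr1
        omega
      · show 3 ≤ (b n).1 + 3
        omega
      · exact touchCl_in bn.1 bn.2.1
      · rw [hbn]
        exact touchCl_high hN (by show N + 3 ≤ N + 3 + r; omega))
    have e : N + 3 + ((3 : ℕ) : ℤ) = N + 6 := by push_cast; ring
    rwa [e] at this
  have hA := ((hA1.trans hA2).trans hA3).trans hA4
  have hB := (hB1.trans hB2).trans hB3
  have hA0 : ((0, 0) : ℤ × ℤ) ∈ SA := ⟨⟨le_rfl, by show (0 : ℤ) ≤ N + 6; omega, le_rfl,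
    by show (0 : ℤ) ≤ N + 6; omega⟩, Or.inl rfl⟩
  have hB0 : (((b 0).1 + 3, 0) : ℤ × ℤ) ∈ SB := by
    refine ⟨⟨?_, ?_, le_rfl, ?_⟩, ?_, 0, Nat.zero_le _, touchCl_in b0.1 b0.2.1, ?_⟩
    · show 0 ≤ (b 0).1 + 3
      omega
    · show (b 0).1 + 3 ≤ N + 6
      omega
    · show (0 : ℤ) ≤ N + 6
      omega
    · show 3 ≤ (b 0).1 + 3
      omega
    · rw [hb0]
      exact touchCl_low hN (by norm_num)
  obtain ⟨A, M, hAs, hAe, hAS, hAn⟩ := touchKP_seq hA0 hA
  obtain ⟨B, M', hBs, hBe, hBS, hBn⟩ := touchKP_seq hB0 hB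
  have key := dcl (N + 6) (by omega) A B M M' (fun i hi => (hAS i hi).1) (fun j hj => (hBS j hj).1)
    hAn hBn (fun i hi j hj => hsep _ (hAS i hi) _ (hBS j hj)) (by rw [hAs]) (by rw [hBs])
    (by rw [hAs, hBs]; show 0 < (b 0).1 + 3; omega)
    (Or.inr (Or.inr (by rw [hAe]))) (Or.inr (Or.inl (by rw [hBe])))
  rw [hAe, hBe] at key
  unfold dtau at key
  rw [if_neg (by show N + 6 ≠ 0; omega), if_neg (by show (a m).2 + 3 ≠ N + 6; omega),
    if_neg (by show (b n).1 + 3 ≠ 0; omega), if_pos rfl] at key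
  simp only at key
  omega

/-- Horizontal and vertical crossing sets touch (`t2_seq` of SC/T2 gives sequences). -/
theorem touch {M : ℕ} {T T' : Set (List Dig)} (h : HCross M T) (h' : VCross M T') :
    ∃ a ∈ T, ∃ b ∈ T', near 1 a b := by
  obtain ⟨hl, s, hs, hs0, ⟨t, ht, htM⟩, hlink⟩ := h
  obtain ⟨hl', s', hs', hs0', ⟨t', ht', htM'⟩, hlink'⟩ := h'
  obtain ⟨a, m, ha0, ham, haT, han⟩ := t2_seq hs (hlink t ht)
  obtain ⟨b, n, hb0, hbn, hbT, hbn'⟩ := t2_seq hs' (hlink' t' ht')
  have h3 : (0 : ℤ) < 3 ^ M := by positivity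
  obtain ⟨i, hi, j, hj, h1, h2⟩ := dcl_cross (3 ^ M - 1) (by omega) (fun i => pos (a i))
    (fun j => pos (b j)) m n (fun i hi => t2_pos_bounds (hl _ (haT i hi)))
    (fun j hj => t2_pos_bounds (hl' _ (hbT j hj)))
    (fun i hi => by
      have h := han i hi
      rw [abs_sub_comm, abs_sub_comm (pos (a (i + 1))).2]
      exact h)
    (fun j hj => by
      have h := hbn' j hj
      rw [abs_sub_comm, abs_sub_comm (pos (b (j + 1))).2]
      exact h)
    (by simp only [ha0]; exact hs0) (by simp only [ham]; omega)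
    (by simp only [hb0]; exact hs0') (by simp only [hbn]; omega)
  exact ⟨a i, haT i hi, b j, hbT j hj, h1, h2⟩

/-! ### reflections -/

theorem touch_flip_flip (d : Dig) : d.flip.flip = d := by
  apply Dig.ext'
  · have h1 := Dig.flip_x d.flip
    have h2 := Dig.flip_x d
    have : ((d.flip.flip.x : ℤ) : ℝ) = ((d.x : ℤ) : ℝ) := by rw [h1, h2]; ring
    exact_mod_cast this
  · rw [Dig.flip_y, Dig.flip_y]

theorem touch_map_flip_flip (w : List Dig) : (w.map Dig.flip).map Dig.flip = w := by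
  rw [List.map_map]
  have : Dig.flip ∘ Dig.flip = id := funext touch_flip_flip
  rw [this, List.map_id]

theorem touch_map_swap_swap (w : List Dig) : (w.map Dig.swap).map Dig.swap = w := by
  rw [List.map_map]
  have : Dig.swap ∘ Dig.swap = id := funext fun d => Dig.ext' rfl rfl
  rw [this, List.map_id]

theorem touch_flip_x (d : Dig) : d.flip.x = 2 - d.x := by
  have := Dig.flip_x d
  exact_mod_cast this

theorem touch_pos_flip (w : List Dig) :
    pos (w.map Dig.flip) = (3 ^ w.length - 1 - (pos w).1, (pos w).2) := by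
  induction w with
  | nil => simp [pos]
  | cons d w ih =>
    simp only [List.map_cons, pos, ih, List.length_map, List.length_cons, touch_flip_x,
      Dig.flip_y]
    refine Prod.ext ?_ rfl
    simp only
    rw [pow_succ]
    ring

theorem touch_pos_swap (w : List Dig) :
    pos (w.map Dig.swap) = ((pos w).2, (pos w).1) := by
  induction w with
  | nil => simp [pos]
  | cons d w ih =>
    simp only [List.map_cons, pos, ih, List.length_map, Dig.swap_x, Dig.swap_y]

/-- the reflection in the horizontal axis on words -/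
def touchY (w : List Dig) : List Dig := ((w.map Dig.swap).map Dig.flip).map Dig.swap

theorem touchY_touchY (w : List Dig) : touchY (touchY w) = w := by
  unfold touchY
  rw [touch_map_swap_swap, touch_map_flip_flip, touch_map_swap_swap]

theorem touchY_length (w : List Dig) : (touchY w).length = w.length := by
  unfold touchY
  simp

theorem touchY_pos (w : List Dig) :
    pos (touchY w) = ((pos w).1, 3 ^ w.length - 1 - (pos w).2) := by
  unfold touchY
  rw [touch_pos_swap, touch_pos_flip, touch_pos_swap, List.length_map]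

/-- transport of links along an involution of the words -/
theorem touch_linked {T : Set (List Dig)} (φ : List Dig → List Dig) (hφ : ∀ w, φ (φ w) = w)
    (hn : ∀ u v, u ∈ T → v ∈ T → near 1 u v → near 1 (φ u) (φ v)) {s t : List Dig} (hs : s ∈ T)
    (h : Linked T s t) : Linked {w | φ w ∈ T} (φ s) (φ t) := by
  induction h with
  | refl => exact Relation.ReflTransGen.refl
  | tail h1 h2 ih =>
    rename_i b c
    have hb : b ∈ T := l2_linked_mem hs h1
    refine Relation.ReflTransGen.tail ih ⟨?_, hn b c hb h2.1 h2.2⟩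
    show φ (φ c) ∈ T
    rw [hφ]
    exact h2.1

/-- Reflected crossing set (`flipX_Fw`: `flipX.comp (Fw w) = (Fw (w.map Dig.flip)).comp flipX`). The set is
`{w | w.map Dig.flip ∈ T}`. -/
theorem HCross.flip {M : ℕ} {T : Set (List Dig)} (h : HCross M T) :
    HCross M {w | w.map Dig.flip ∈ T} := by
  obtain ⟨hl, s, hs, hs0, ⟨t, ht, htM⟩, hlink⟩ := h
  refine ⟨fun w hw => by simpa using hl _ hw, t.map Dig.flip, ?_, ?_, ⟨s.map Dig.flip, ?_, ?_⟩, ?_⟩
  · show (t.map Dig.flip).map Dig.flip ∈ T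
    rw [touch_map_flip_flip]
    exact ht
  · rw [touch_pos_flip, hl t ht]
    simp only
    omega
  · show (s.map Dig.flip).map Dig.flip ∈ T
    rw [touch_map_flip_flip]
    exact hs
  · rw [touch_pos_flip, hl s hs]
    simp only
    omega
  · intro a ha
    have ha' : a.map Dig.flip ∈ T := ha
    have h1 : Linked T t (a.map Dig.flip) := (l2_linked_symm hs (hlink t ht)).trans (hlink _ ha')
    have h2 := touch_linked (T := T) (fun w => w.map Dig.flip) touch_map_flip_flip
      (fun u v hu hv huv => by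
        unfold near at huv ⊢
        rw [touch_pos_flip, touch_pos_flip, hl u hu, hl v hv]
        simp only
        refine ⟨?_, huv.2⟩
        have e : (3 ^ M - 1 - (pos u).1) - (3 ^ M - 1 - (pos v).1) = -((pos u).1 - (pos v).1) := by
          ring
        rw [e, abs_neg]
        exact huv.1) ht h1
    simp only [touch_map_flip_flip] at h2
    exact h2

theorem ValNear.flip {g : K → ℝ} {T : Set (List Dig)} {a t : ℝ}
    (h : ValNear (fun x => g (flipX x)) T a t) : ValNear g {w | w.map Dig.flip ∈ T} a t := by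
  intro w hw c hc
  have h1 := h _ hw (flipX c) (flipX_corners hc)
  have h2 : flipX (Fw (w.map Dig.flip) (flipX c)) = Fw w c := by
    have h3 := congrArg (fun f : C(K, K) => f c) (flipX_Fw w)
    simp only [ContinuousMap.comp_apply] at h3
    rw [← h3, flipX_flipX]
  simp only [h2] at h1
  exact h1

/-- The same for the reflection in the horizontal axis; with `φ w = ((w.map swap).map flip).map swap`. -/
theorem VCross.flip {M : ℕ} {T : Set (List Dig)} (h : VCross M T) :
    VCross M {w | ((w.map Dig.swap).map Dig.flip).map Dig.swap ∈ T} := by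
  show VCross M {w | touchY w ∈ T}
  obtain ⟨hl, s, hs, hs0, ⟨t, ht, htM⟩, hlink⟩ := h
  refine ⟨fun w hw => by rw [← touchY_length]; exact hl _ hw, touchY t, ?_, ?_,
    ⟨touchY s, ?_, ?_⟩, ?_⟩
  · show touchY (touchY t) ∈ T
    rw [touchY_touchY]
    exact ht
  · rw [touchY_pos, hl t ht]
    simp only
    omega
  · show touchY (touchY s) ∈ T
    rw [touchY_touchY]
    exact hs
  · rw [touchY_pos, hl s hs]
    simp only
    omega
  · intro a ha
    have ha' : touchY a ∈ T := ha
    have h1 : Linked T t (touchY a) := (l2_linked_symm hs (hlink t ht)).trans (hlink _ ha')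
    have h2 := touch_linked (T := T) touchY touchY_touchY
      (fun u v hu hv huv => by
        unfold near at huv ⊢
        rw [touchY_pos, touchY_pos, hl u hu, hl v hv]
        simp only
        refine ⟨huv.1, ?_⟩
        have e : (3 ^ M - 1 - (pos u).2) - (3 ^ M - 1 - (pos v).2) = -((pos u).2 - (pos v).2) := by
          ring
        rw [e, abs_neg]
        exact huv.2) ht h1
    rw [touchY_touchY] at h2
    exact h2

theorem touch_flipY_Fw (w : List Dig) (x : K) :
    SC.flipY (Fw w x) = Fw (touchY w) (SC.flipY x) := by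
  have hs : ∀ (w : List Dig) (x : K), swapXY (Fw w x) = Fw (w.map Dig.swap) (swapXY x) :=
    fun w x => by
      have h3 := congrArg (fun f : C(K, K) => f x) (swapXY_Fw w)
      simpa only [ContinuousMap.comp_apply] using h3
  have hf : ∀ (w : List Dig) (x : K), flipX (Fw w x) = Fw (w.map Dig.flip) (flipX x) :=
    fun w x => by
      have h3 := congrArg (fun f : C(K, K) => f x) (flipX_Fw w)
      simpa only [ContinuousMap.comp_apply] using h3
  show swapXY (flipX (swapXY (Fw w x))) = Fw (touchY w) (swapXY (flipX (swapXY x)))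
  rw [hs, hf, hs]
  rfl

theorem ValNear.flipY {g : K → ℝ} {T : Set (List Dig)} {a t : ℝ}
    (h : ValNear (fun x => g (SC.flipY x)) T a t) :
    ValNear g {w | ((w.map Dig.swap).map Dig.flip).map Dig.swap ∈ T} a t := by
  intro w hw c hc
  have hw' : touchY w ∈ T := hw
  have h1 := h _ hw' (SC.flipY c) (flipY_corners hc)
  have h2 : SC.flipY (Fw (touchY w) (SC.flipY c)) = Fw w c := by
    rw [← touch_flipY_Fw, flipY_flipY]
  simp only [h2] at h1
  exact h1

/-- Values on touching sets. -/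
theorem ValNear.close {M : ℕ} {g : K → ℝ} {T T' : Set (List Dig)} {a a' t t' : ℝ}
    (hT : ∀ w ∈ T, w.length = M) (hT' : ∀ w ∈ T', w.length = M)
    (h : ValNear g T a t) (h' : ValNear g T' a' t') {u v : List Dig} (hu : u ∈ T) (hv : v ∈ T')
    (huv : near 1 u v) : |a - a'| ≤ t + t' := by
  obtain ⟨c, hc, c', hc', e⟩ := exists_common_corner ((hT u hu).trans (hT' v hv).symm) huv
  have h1 := h u hu c hc
  have h2 := h' v hv c' hc'
  rw [← e] at h2
  have h3 : a - a' = (g (Fw u c) - a') - (g (Fw u c) - a) := by ring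
  rw [h3]
  refine (abs_sub _ _).trans ?_
  linarith

end Pool.Agent.Helper67.CF
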