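import Pool.Agent.Helper67.CF.Cross
import Pool.Agent.Helper67.CF.Touch
import Pool.Agent.Helper67.CF.Glue

/-! Module Morrey: oscillation on vertices is controlled by the energy. -/

open Filter Topology Pool.Agent.Helper67.SC

noncomputable section

namespace Pool.Agent.Helper67.CF

theorem mo_ne_x {d e : Dig} (hx : e.x = d.x + 1) : d ≠ e := by
  rintro rfl; omega

theorem mo_ne_y {d e : Dig} (hy : e.y = d.y + 1) : d ≠ e := by
  rintro rfl; omega

/-- The right side of `F d` is the left side of `F e`. -/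
theorem mo_F_right {d e : Dig} (hx : e.x = d.x + 1) (hy : e.y = d.y) {x : K} (h : x ∈ right) :
    F d x = F e (flipX x) := by
  have h1 : x.1.1 = 1 := h
  apply K_ext
  · rw [F_apply1, F_apply1, flipX_apply, hx, h1]
    push_cast
    ring
  · rw [F_apply2, F_apply2, flipX_apply, hy]

theorem mo_F_top {d e : Dig} (hx : e.x = d.x) (hy : e.y = d.y + 1) {x : K} (h : x ∈ top) :
    F d x = F e (flipY x) := by
  have h1 : x.1.2 = 1 := h
  apply K_ext
  · rw [F_apply1, F_apply1, flipY_apply, hx]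
  · rw [F_apply2, F_apply2, flipY_apply, hy, h1]
    push_cast
    ring

/-- Horizontally adjacent children: their vertical crossing values are close. -/
theorem link_h (M : ℕ) (g : K → ℝ) {d e : Dig} (hx : e.x = d.x + 1) (hy : e.y = d.y) {t a b : ℝ}
    (ht : 0 < t) (h : 32 * EM (M + 1) g g < t ^ 2 * cap M)
    {T T' : Set (List Dig)} (hT : VCross M T) (hT' : VCross M T')
    (ha : ValNear (fun x => g (F d x)) T a t) (hb : ValNear (fun x => g (F e x)) T' b t) :
    |a - b| ≤ 4 * t := by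
  obtain ⟨T0, hT0, x, hx', hv1, hv2⟩ := exists_hcross M (fun x => g (F d x))
    (fun x => g (F e (flipX x))) ht (by
      rw [EM_flipX M (fun x => g (F e x)) (fun x => g (F e x))]
      exact lt_of_le_of_lt (mul_le_mul_of_nonneg_left (EM_two_le M g (mo_ne_x hx))
        (by norm_num)) h)
  obtain ⟨u, hu, v, hv, huv⟩ := touch hT0 hT
  have h1 := ValNear.close hT0.1 hT.1 hv1 ha hu hv huv
  obtain ⟨u', hu', v', hv', huv'⟩ := touch hT0.flip hT'
  have h2 := ValNear.close hT0.flip.1 hT'.1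
    (ValNear.flip (g := fun x => g (F e x)) hv2) hb hu' hv' huv'
  have h3 : g (F d x) = g (F e (flipX x)) := by rw [mo_F_right hx hy hx']
  rw [← h3] at h2
  rw [abs_le] at h1 h2 ⊢
  constructor <;> linarith [h1.1, h1.2, h2.1, h2.2]

/-- Vertically adjacent children: the horizontal crossing values are close. -/
theorem link_v (M : ℕ) (g : K → ℝ) {d e : Dig} (hx : e.x = d.x) (hy : e.y = d.y + 1) {t a b : ℝ}
    (ht : 0 < t) (h : 32 * EM (M + 1) g g < t ^ 2 * cap M)
    {T T' : Set (List Dig)} (hT : HCross M T) (hT' : HCross M T')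
    (ha : ValNear (fun x => g (F d x)) T a t) (hb : ValNear (fun x => g (F e x)) T' b t) :
    |a - b| ≤ 4 * t := by
  obtain ⟨T0, hT0, x, hx', hv1, hv2⟩ := exists_vcross M (fun x => g (F d x))
    (fun x => g (F e (flipY x))) ht (by
      rw [EM_flipY M (fun x => g (F e x)) (fun x => g (F e x))]
      exact lt_of_le_of_lt (mul_le_mul_of_nonneg_left (EM_two_le M g (mo_ne_y hy))
        (by norm_num)) h)
  obtain ⟨u, hu, v, hv, huv⟩ := touch hT hT0
  have h1 := ValNear.close hT.1 hT0.1 ha hv1 hu hv huv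
  obtain ⟨u', hu', v', hv', huv'⟩ := touch hT' hT0.flip
  have h2 := ValNear.close hT'.1 hT0.flip.1 hb
    (ValNear.flipY (g := fun x => g (F e x)) hv2) hu' hv' huv'
  have h3 : g (F d x) = g (F e (flipY x)) := by rw [mo_F_top hx hy hx']
  rw [← h3] at h2
  rw [abs_le] at h1 h2 ⊢
  constructor <;> linarith [h1.1, h1.2, h2.1, h2.2]

theorem HCross.linked {M : ℕ} {T : Set (List Dig)} (h : HCross M T) {a b : List Dig}
    (ha : a ∈ T) (hb : b ∈ T) : Linked T a b := by
  obtain ⟨_, s, hs, _, _, hl⟩ := h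
  exact (l2_linked_symm hs (hl a ha)).trans (hl b hb)

theorem VCross.linked {M : ℕ} {T : Set (List Dig)} (h : VCross M T) {a b : List Dig}
    (ha : a ∈ T) (hb : b ∈ T) : Linked T a b := by
  obtain ⟨_, s, hs, _, _, hl⟩ := h
  exact (l2_linked_symm hs (hl a ha)).trans (hl b hb)

theorem mo_near_cons (d : Dig) {u v : List Dig} (h : u.length = v.length) (h' : near 1 u v) :
    near 1 (d :: u) (d :: v) :=
  (near_append_left [d] u v h).2 h'

theorem mo_linked_cons {M : ℕ} {T T' : Set (List Dig)} (d : Dig) (hT : ∀ w ∈ T, w.length = M)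
    (h : ∀ w ∈ T, d :: w ∈ T') {s a : List Dig} (hs : s.length = M) (hsa : Linked T s a) :
    Linked T' (d :: s) (d :: a) := by
  have key : a.length = M ∧ Linked T' (d :: s) (d :: a) := by
    induction hsa with
    | refl => exact ⟨hs, Relation.ReflTransGen.refl⟩
    | tail h1 h2 ih =>
      rename_i b c
      exact ⟨hT _ h2.1, ih.2.tail ⟨h _ h2.1, mo_near_cons d (ih.1.trans (hT _ h2.1).symm) h2.2⟩⟩
  exact key.2

theorem mo_flip_flip (d : Dig) : d.flip.flip = d := by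
  apply Dig.ext'
  · have h1 := Dig.flip_x d.flip
    have h2 := Dig.flip_x d
    have h3 : ((d.flip.flip.x : ℤ) : ℝ) = d.x := by rw [h1, h2]; ring
    exact_mod_cast h3
  · rfl

theorem mo_map_flip_flip (w : List Dig) : (w.map Dig.flip).map Dig.flip = w := by
  rw [List.map_map]
  have : Dig.flip ∘ Dig.flip = id := funext mo_flip_flip
  rw [this, List.map_id]

/-- Words at the common side of two horizontally adjacent children. -/
theorem mo_near_edge {M : ℕ} {d e : Dig} (hx : e.x = d.x + 1) (hy : e.y = d.y) {t : List Dig}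
    (ht : t.length = M) (hp : (pos t).1 + 1 = 3 ^ M) : near 1 (d :: t) (e :: t.map Dig.flip) := by
  have hr : Fw t c10 ∈ right := by
    change (Fw t c10).1.1 = 1
    rw [Fw_apply1]
    have h1 : ((pos t).1 : ℝ) + 1 = 3 ^ M := by exact_mod_cast hp
    have h2 : (c10.1.1 : ℝ) = 1 := rfl
    rw [h2, h1, ht]
    exact div_self (by positivity)
  have h1 : Fw (d :: t) c10 = Fw (e :: t.map Dig.flip) (flipX c10) := by
    change F d (Fw t c10) = F e (Fw (t.map Dig.flip) (flipX c10))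
    rw [mo_F_right hx hy hr]
    congr 1
    exact congrArg (fun f : C(K, K) => f c10) (flipX_Fw t)
  exact near_of_mem (x := Fw (d :: t) c10) (by simp) ⟨c10, rfl⟩ ⟨flipX c10, h1.symm⟩

/-- The bottom row: a horizontal crossing set of level `M + 1` on which `g` is close to `a`, the value on a
vertical crossing set of the child `(1,0)`. -/
theorem row_cross (M : ℕ) (g : K → ℝ) {t a : ℝ} (ht : 0 < t)
    (h : 32 * EM (M + 1) g g < t ^ 2 * cap M) {T : Set (List Dig)} (hT : VCross M T)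
    (ha : ValNear (fun x => g (F (dg 1 0) x)) T a t) :
    ∃ T', HCross (M + 1) T' ∧ ValNear g T' a (3 * t) := by
  have hx1 : (dg 1 0).x = (dg 0 0).x + 1 := by decide
  have hy1 : (dg 1 0).y = (dg 0 0).y := by decide
  have hx2 : (dg 2 0).x = (dg 1 0).x + 1 := by decide
  have hy2 : (dg 2 0).y = (dg 1 0).y := by decide
  obtain ⟨T1, hT1, x1, hx1', hv1, hw1⟩ := exists_hcross M (fun x => g (F (dg 0 0) x))
    (fun x => g (F (dg 1 0) (flipX x))) ht (by
      rw [EM_flipX M (fun x => g (F (dg 1 0) x)) (fun x => g (F (dg 1 0) x))]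
      exact lt_of_le_of_lt (mul_le_mul_of_nonneg_left (EM_two_le M g (mo_ne_x hx1))
        (by norm_num)) h)
  obtain ⟨T2, hT2, x2, hx2', hv2, hw2⟩ := exists_hcross M (fun x => g (F (dg 1 0) x))
    (fun x => g (F (dg 2 0) (flipX x))) ht (by
      rw [EM_flipX M (fun x => g (F (dg 2 0) x)) (fun x => g (F (dg 2 0) x))]
      exact lt_of_le_of_lt (mul_le_mul_of_nonneg_left (EM_two_le M g (mo_ne_x hx2))
        (by norm_num)) h)
  have hw1' := ValNear.flip (g := fun x => g (F (dg 1 0) x)) hw1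
  have hw2' := ValNear.flip (g := fun x => g (F (dg 2 0) x)) hw2
  have e1 : g (F (dg 0 0) x1) = g (F (dg 1 0) (flipX x1)) := by rw [mo_F_right hx1 hy1 hx1']
  have e2 : g (F (dg 1 0) x2) = g (F (dg 2 0) (flipX x2)) := by rw [mo_F_right hx2 hy2 hx2']
  -- the sets touch
  obtain ⟨u1, hu1, v1, hv1', huv1⟩ := touch hT1.flip hT
  obtain ⟨u2, hu2, v2, hv2', huv2⟩ := touch hT2 hT
  have c1 : |g (F (dg 0 0) x1) - a| ≤ 2 * t := by
    have := ValNear.close hT1.flip.1 hT.1 hw1' ha hu1 hv1' huv1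
    rw [← e1] at this
    linarith
  have c2 : |g (F (dg 1 0) x2) - a| ≤ 2 * t := by
    have := ValNear.close hT2.1 hT.1 hv2 ha hu2 hv2' huv2
    linarith
  set U1 : Set (List Dig) := {w | w.map Dig.flip ∈ T1} with hU1
  set U2 : Set (List Dig) := {w | w.map Dig.flip ∈ T2} with hU2
  have hU1c : HCross M U1 := hT1.flip
  have hU2c : HCross M U2 := hT2.flip
  set T' : Set (List Dig) := {w | (∃ v ∈ T1, w = dg 0 0 :: v) ∨ (∃ v ∈ U1, w = dg 1 0 :: v) ∨
    (∃ v ∈ T, w = dg 1 0 :: v) ∨ (∃ v ∈ T2, w = dg 1 0 :: v) ∨ (∃ v ∈ U2, w = dg 2 0 :: v)} with hT'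
  have m1 : ∀ v ∈ T1, dg 0 0 :: v ∈ T' := fun v hv => Or.inl ⟨v, hv, rfl⟩
  have m2 : ∀ v ∈ U1, dg 1 0 :: v ∈ T' := fun v hv => Or.inr (Or.inl ⟨v, hv, rfl⟩)
  have m3 : ∀ v ∈ T, dg 1 0 :: v ∈ T' := fun v hv => Or.inr (Or.inr (Or.inl ⟨v, hv, rfl⟩))
  have m4 : ∀ v ∈ T2, dg 1 0 :: v ∈ T' :=
    fun v hv => Or.inr (Or.inr (Or.inr (Or.inl ⟨v, hv, rfl⟩)))
  have m5 : ∀ v ∈ U2, dg 2 0 :: v ∈ T' :=
    fun v hv => Or.inr (Or.inr (Or.inr (Or.inr ⟨v, hv, rfl⟩)))
  obtain ⟨l1, s1, hs1, hs1p, ⟨r1, hr1, hr1p⟩, -⟩ := id hT1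
  obtain ⟨l2, s2, hs2, hs2p, ⟨r2, hr2, hr2p⟩, -⟩ := id hT2
  obtain ⟨l3, s3, hs3, hs3p, ⟨r3, hr3, hr3p⟩, -⟩ := id hU2c
  have lU1 : ∀ w ∈ U1, w.length = M := hU1c.1
  have lT : ∀ w ∈ T, w.length = M := hT.1
  have fr1 : r1.map Dig.flip ∈ U1 := by
    change (r1.map Dig.flip).map Dig.flip ∈ T1
    rw [mo_map_flip_flip]; exact hr1
  have fr2 : r2.map Dig.flip ∈ U2 := by
    change (r2.map Dig.flip).map Dig.flip ∈ T2
    rw [mo_map_flip_flip]; exact hr2
  -- links
  have L1 : ∀ v ∈ T1, Linked T' (dg 0 0 :: s1) (dg 0 0 :: v) := fun v hv =>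
    mo_linked_cons _ l1 m1 (l1 _ hs1) (hT1.linked hs1 hv)
  have L2 : Linked T' (dg 0 0 :: s1) (dg 1 0 :: r1.map Dig.flip) :=
    (L1 r1 hr1).tail ⟨m2 _ fr1, mo_near_edge hx1 hy1 (l1 _ hr1) hr1p⟩
  have L3 : ∀ v ∈ U1, Linked T' (dg 0 0 :: s1) (dg 1 0 :: v) := fun v hv =>
    L2.trans (mo_linked_cons _ lU1 m2 (lU1 _ fr1) (hU1c.linked fr1 hv))
  have L4 : Linked T' (dg 0 0 :: s1) (dg 1 0 :: v1) :=
    (L3 u1 hu1).tail ⟨m3 _ hv1', mo_near_cons _ ((lU1 _ hu1).trans (lT _ hv1').symm) huv1⟩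
  have L5 : ∀ v ∈ T, Linked T' (dg 0 0 :: s1) (dg 1 0 :: v) := fun v hv =>
    L4.trans (mo_linked_cons _ lT m3 (lT _ hv1') (hT.linked hv1' hv))
  have L6 : Linked T' (dg 0 0 :: s1) (dg 1 0 :: u2) :=
    (L5 v2 hv2').tail ⟨m4 _ hu2, near_symm (mo_near_cons _ ((l2 _ hu2).trans (lT _ hv2').symm) huv2)⟩
  have L7 : ∀ v ∈ T2, Linked T' (dg 0 0 :: s1) (dg 1 0 :: v) := fun v hv =>
    L6.trans (mo_linked_cons _ l2 m4 (l2 _ hu2) (hT2.linked hu2 hv))
  have L8 : Linked T' (dg 0 0 :: s1) (dg 2 0 :: r2.map Dig.flip) :=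
    (L7 r2 hr2).tail ⟨m5 _ fr2, mo_near_edge hx2 hy2 (l2 _ hr2) hr2p⟩
  have L9 : ∀ v ∈ U2, Linked T' (dg 0 0 :: s1) (dg 2 0 :: v) := fun v hv =>
    L8.trans (mo_linked_cons _ l3 m5 (l3 _ fr2) (hU2c.linked fr2 hv))
  refine ⟨T', ⟨?_, dg 0 0 :: s1, m1 _ hs1, ?_, ⟨dg 2 0 :: r3, m5 _ hr3, ?_⟩, ?_⟩, ?_⟩
  · rintro w (⟨v, hv, rfl⟩ | ⟨v, hv, rfl⟩ | ⟨v, hv, rfl⟩ | ⟨v, hv, rfl⟩ | ⟨v, hv, rfl⟩)
    · rw [List.length_cons, l1 v hv]
    · rw [List.length_cons, lU1 v hv]
    · rw [List.length_cons, lT v hv]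
    · rw [List.length_cons, l2 v hv]
    · rw [List.length_cons, l3 v hv]
  · change 3 ^ s1.length * (dg 0 0).x + (pos s1).1 = 0
    rw [hs1p]
    have : (dg 0 0).x = 0 := by decide
    rw [this]; ring
  · change 3 ^ r3.length * (dg 2 0).x + (pos r3).1 + 1 = 3 ^ (M + 1)
    have : (dg 2 0).x = 2 := by decide
    rw [this, l3 _ hr3, add_assoc, hr3p]
    ring
  · rintro w (⟨v, hv, rfl⟩ | ⟨v, hv, rfl⟩ | ⟨v, hv, rfl⟩ | ⟨v, hv, rfl⟩ | ⟨v, hv, rfl⟩)
    · exact L1 v hv
    · exact L3 v hv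
    · exact L5 v hv
    · exact L7 v hv
    · exact L9 v hv
  · rintro w (⟨v, hv, rfl⟩ | ⟨v, hv, rfl⟩ | ⟨v, hv, rfl⟩ | ⟨v, hv, rfl⟩ | ⟨v, hv, rfl⟩) c hc
    · have := hv1 v hv c hc
      change |g (F (dg 0 0) (Fw v c)) - a| ≤ 3 * t
      simp only at this
      rw [abs_le] at this c1 ⊢
      constructor <;> linarith [this.1, this.2, c1.1, c1.2]
    · have := hw1' v hv c hc
      change |g (F (dg 1 0) (Fw v c)) - a| ≤ 3 * t
      simp only at this
      rw [← e1] at this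
      rw [abs_le] at this c1 ⊢
      constructor <;> linarith [this.1, this.2, c1.1, c1.2]
    · have := ha v hv c hc
      change |g (F (dg 1 0) (Fw v c)) - a| ≤ 3 * t
      simp only at this
      linarith
    · have := hv2 v hv c hc
      change |g (F (dg 1 0) (Fw v c)) - a| ≤ 3 * t
      simp only at this
      rw [abs_le] at this c2 ⊢
      constructor <;> linarith [this.1, this.2, c2.1, c2.2]
    · have := hw2' v hv c hc
      change |g (F (dg 2 0) (Fw v c)) - a| ≤ 3 * t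
      simp only at this
      rw [← e2] at this
      rw [abs_le] at this c2 ⊢
      constructor <;> linarith [this.1, this.2, c2.1, c2.2]

theorem mo_digits : ∀ d : Dig, d = dg 0 0 ∨ d = dg 1 0 ∨ d = dg 2 0 ∨ d = dg 0 1 ∨ d = dg 2 1 ∨
    d = dg 0 2 ∨ d = dg 1 2 ∨ d = dg 2 2 := by decide

theorem mo_near_nil : VCross 0 {[]} := by
  refine ⟨?_, [], rfl, rfl, ⟨[], rfl, ?_⟩, ?_⟩
  · intro w hw
    rw [Set.mem_singleton_iff.1 hw]
    rfl
  · simp [pos]
  · intro a ha
    rw [Set.mem_singleton_iff.1 ha]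
    exact Relation.ReflTransGen.refl

/-- Induction on `M` (with `t' = 13/14 t` for the children, `cap_succ_le`, `(13/14)^2 > 6/7`). -/
theorem morrey_aux (M : ℕ) : ∀ (g : K → ℝ) (t : ℝ), 0 < t → 64 * EM M g g < t ^ 2 * cap M →
    ∃ a : ℝ, (∃ T, VCross M T ∧ ValNear g T a t) ∧
      ∀ w ∈ words M, ∀ c ∈ corners, |g (Fw w c) - a| ≤ 400 * t := by
  induction M with
  | zero =>
    intro g t ht h
    have h00 : c00 ∈ corners := by simp [corners]
    have hQ : Q g g ≤ t ^ 2 := by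
      have h1 := cap_zero_le
      have h2 := EM_zero g g
      have h3 : t ^ 2 * cap 0 ≤ t ^ 2 * 8 := by gcongr
      have h4 := sq_nonneg t
      linarith
    have key : ∀ c ∈ corners, |g c - g c00| ≤ t := fun c hc => by
      have h5 := (sq_le_Q g hc h00).trans hQ
      exact abs_le_of_sq_le_sq h5 ht.le
    refine ⟨g c00, ⟨{[]}, mo_near_nil, ?_⟩, ?_⟩
    · intro w hw c hc
      rw [Set.mem_singleton_iff.1 hw]
      exact key c hc
    · intro w hw c hc
      rw [mem_words, List.length_eq_zero_iff] at hw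
      rw [hw]
      exact (key c hc).trans (by linarith)
  | succ M ih =>
    intro g t ht h
    set t' : ℝ := 13 / 14 * t with ht'
    have ht'0 : 0 < t' := by positivity
    have hE0 : 0 ≤ EM (M + 1) g g := EM_nonneg _ _
    have key : 64 * EM (M + 1) g g < t' ^ 2 * cap M := by
      have h1 := cap_succ_le M
      have h2 := cap_pos M
      have h3 : t ^ 2 * cap (M + 1) ≤ t ^ 2 * (6 / 7 * cap M) := by gcongr
      have h4 : t' ^ 2 * cap M = t ^ 2 * (169 / 196 * cap M) := by rw [ht']; ring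
      have h5 : t ^ 2 * (6 / 7 * cap M) ≤ t ^ 2 * (169 / 196 * cap M) :=
        mul_le_mul_of_nonneg_left (by linarith) (sq_nonneg t)
      linarith
    have key2 : 32 * EM (M + 1) g g < t' ^ 2 * cap M := by linarith
    have hch : ∀ d : Dig, EM M (fun x => g (F d x)) (fun x => g (F d x)) ≤ EM (M + 1) g g := by
      intro d
      have h1 := EM_cell_le 1 M g (w := [d]) rfl
      rw [add_comm 1 M] at h1
      exact h1
    have hV : ∀ d : Dig, ∃ a : ℝ, (∃ T, VCross M T ∧ ValNear (fun x => g (F d x)) T a t') ∧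
        ∀ w ∈ words M, ∀ c ∈ corners, |g (F d (Fw w c)) - a| ≤ 400 * t' := fun d =>
      ih _ t' ht'0 (lt_of_le_of_lt (mul_le_mul_of_nonneg_left (hch d) (by norm_num)) key)
    choose a hT hval using hV
    choose T hTV hTn using hT
    have hH : ∀ d : Dig, ∃ b : ℝ, ∃ T, HCross M T ∧ ValNear (fun x => g (F d x)) T b t' := by
      intro d
      obtain ⟨T0, hT0, x, -, hv, -⟩ := exists_hcross M (fun x => g (F d x)) (fun x => g (F d x))
        ht'0 (by
          have := hch d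
          linarith)
      exact ⟨_, T0, hT0, hv⟩
    choose b T1 hT1 hb using hH
    have hab : ∀ d, |b d - a d| ≤ 2 * t' := by
      intro d
      obtain ⟨u, hu, v, hv, huv⟩ := touch (hT1 d) (hTV d)
      have := ValNear.close (hT1 d).1 (hTV d).1 (hb d) (hTn d) hu hv huv
      linarith
    have hh : ∀ d e : Dig, e.x = d.x + 1 → e.y = d.y → |a d - a e| ≤ 4 * t' := fun d e hx hy =>
      link_h M g hx hy ht'0 key2 (hTV d) (hTV e) (hTn d) (hTn e)
    have hv : ∀ d e : Dig, e.x = d.x → e.y = d.y + 1 → |a d - a e| ≤ 8 * t' := by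
      intro d e hx hy
      have h1 := link_v M g hx hy ht'0 key2 (hT1 d) (hT1 e) (hb d) (hb e)
      have h2 := hab d
      have h3 := hab e
      rw [abs_le] at h1 h2 h3 ⊢
      constructor <;> linarith [h1.1, h1.2, h2.1, h2.2, h3.1, h3.2]
    have h00 := hh (dg 0 0) (dg 1 0) (by decide) (by decide)
    have h20 := hh (dg 1 0) (dg 2 0) (by decide) (by decide)
    have h01 := hv (dg 0 0) (dg 0 1) (by decide) (by decide)
    have h02 := hv (dg 0 1) (dg 0 2) (by decide) (by decide)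
    have h12 := hh (dg 0 2) (dg 1 2) (by decide) (by decide)
    have h21 := hv (dg 2 0) (dg 2 1) (by decide) (by decide)
    have h22 := hv (dg 2 1) (dg 2 2) (by decide) (by decide)
    have hall : ∀ d : Dig, |a d - a (dg 1 0)| ≤ 24 * t' := by
      intro d
      rw [abs_le] at h00 h20 h01 h02 h12 h21 h22 ⊢
      obtain ⟨p1, p2⟩ := h00
      obtain ⟨q1, q2⟩ := h20
      obtain ⟨r1, r2⟩ := h01
      obtain ⟨s1, s2⟩ := h02
      obtain ⟨u1, u2⟩ := h12
      obtain ⟨v1, v2⟩ := h21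
      obtain ⟨w1, w2⟩ := h22
      rcases mo_digits d with rfl | rfl | rfl | rfl | rfl | rfl | rfl | rfl <;>
        constructor <;> linarith
    obtain ⟨T2, hT2, x, -, hx, -⟩ := exists_vcross (M + 1) g g ht (by linarith)
    obtain ⟨T3, hT3, hT3v⟩ := row_cross M g ht'0 key2 (hTV (dg 1 0)) (hTn (dg 1 0))
    obtain ⟨u, hu, v, hv', huv⟩ := touch hT3 hT2
    have hfin := ValNear.close hT3.1 hT2.1 hT3v hx hu hv' huv
    refine ⟨g x, ⟨T2, hT2, hx⟩, ?_⟩
    intro w hw c hc
    rw [mem_words] at hw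
    match w, hw with
    | d :: w', hw =>
      have hw' : w' ∈ words M := by
        rw [mem_words]
        simpa using hw
      have h1 := hval d w' hw' c hc
      have h2 := hall d
      change |g (F d (Fw w' c)) - g x| ≤ 400 * t
      have h3 : t' = 13 / 14 * t := ht'
      rw [abs_le] at h1 h2 hfin ⊢
      constructor <;> linarith [h1.1, h1.2, h2.1, h2.2, hfin.1, hfin.2]

/-- The vertices of level `M`: oscillation bounded by energy, uniformly in `M`. -/
theorem morrey (M : ℕ) (g : K → ℝ) {w w' : List Dig} (hw : w.length = M) (hw' : w'.length = M)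
    {c c' : K} (hc : c ∈ corners) (hc' : c' ∈ corners) :
    (g (Fw w c) - g (Fw w' c')) ^ 2 * cap M ≤ 40960000 * EM M g g := by
  have hcap := cap_pos M
  have hE := EM_nonneg M g
  refine le_of_forall_pos_le_add fun ε hε => ?_
  set t : ℝ := Real.sqrt ((64 * EM M g g + ε / 640000) / cap M) with ht
  have hpos : 0 < (64 * EM M g g + ε / 640000) / cap M := by positivity
  have ht0 : 0 < t := Real.sqrt_pos.2 hpos
  have ht2 : t ^ 2 = (64 * EM M g g + ε / 640000) / cap M := Real.sq_sqrt hpos.le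
  have ht3 : t ^ 2 * cap M = 64 * EM M g g + ε / 640000 := by
    rw [ht2]; field_simp
  obtain ⟨a, -, ha⟩ := morrey_aux M g t ht0 (by
    rw [ht3]
    have : 0 < ε / 640000 := by positivity
    linarith)
  have h1 := ha w (mem_words.2 hw) c hc
  have h2 := ha w' (mem_words.2 hw') c' hc'
  have h3 : |g (Fw w c) - g (Fw w' c')| ≤ 800 * t := by
    rw [abs_le] at h1 h2 ⊢
    constructor <;> linarith [h1.1, h1.2, h2.1, h2.2]
  have h4 : (g (Fw w c) - g (Fw w' c')) ^ 2 ≤ (800 * t) ^ 2 := by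
    rw [← sq_abs]
    gcongr
  calc (g (Fw w c) - g (Fw w' c')) ^ 2 * cap M ≤ (800 * t) ^ 2 * cap M := by gcongr
    _ = 640000 * (t ^ 2 * cap M) := by ring
    _ = 40960000 * EM M g g + ε := by rw [ht3]; ring

end Pool.Agent.Helper67.CF
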