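import Pool.Agent.Helper67.CF.Morrey
import Pool.Agent.Helper67.CF.Interp

/-! Module Rho: the scaling factor. -/

open Filter Topology Pool.Agent.Helper67.SC

noncomputable section

namespace Pool.Agent.Helper67.CF

/-- Every corner is a vertex of level `m`. -/
theorem rho_exists_word (m : ℕ) {c : K} (hc : c ∈ corners) :
    ∃ w : List Dig, w.length = m ∧ Fw w c = c := by
  have hd : ∃ d : Dig, F d c = c := by
    rw [mem_corners] at hc
    obtain ⟨h1, h2⟩ := hc
    have hkey : ∀ i j : Fin 3, (i, j) ≠ ((1 : Fin 3), (1 : Fin 3)) →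
        (dg i j).x = (i : ℤ) ∧ (dg i j).y = (j : ℤ) := by
      intro i j h
      unfold dg
      rw [dif_pos h]
      exact ⟨rfl, rfl⟩
    rcases h1 with h1 | h1 <;> rcases h2 with h2 | h2
    · refine ⟨dg 0 0, K_ext ?_ ?_⟩
      · rw [F_apply1, (hkey 0 0 (by decide)).1, h1]; norm_num
      · rw [F_apply2, (hkey 0 0 (by decide)).2, h2]; norm_num
    · refine ⟨dg 0 2, K_ext ?_ ?_⟩
      · rw [F_apply1, (hkey 0 2 (by decide)).1, h1]; norm_num
      · rw [F_apply2, (hkey 0 2 (by decide)).2, h2]; norm_num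
    · refine ⟨dg 2 0, K_ext ?_ ?_⟩
      · rw [F_apply1, (hkey 2 0 (by decide)).1, h1]; norm_num
      · rw [F_apply2, (hkey 2 0 (by decide)).2, h2]; norm_num
    · refine ⟨dg 2 2, K_ext ?_ ?_⟩
      · rw [F_apply1, (hkey 2 2 (by decide)).1, h1]; norm_num
      · rw [F_apply2, (hkey 2 2 (by decide)).2, h2]; norm_num
  obtain ⟨d, hd⟩ := hd
  refine ⟨List.replicate m d, List.length_replicate, ?_⟩
  induction m with
  | zero => rfl
  | succ m ih =>
    show F d (Fw (List.replicate m d) c) = c
    rw [ih, hd]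

/-- From `morrey` on the corners of each cell of level `n`, and `EM_append`. -/
theorem EM_le_EM (n m : ℕ) (f : K → ℝ) :
    EM n f f * cap m ≤ 655360000 * EM (n + m) f f := by
  rw [EM_append n m]
  unfold EM
  rw [Finset.sum_mul, Finset.mul_sum]
  refine Finset.sum_le_sum fun w _ => ?_
  have hcm := cap_pos m
  have h := Q_le (fun x => f (Fw w x))
    (B := 40960000 * EM m (fun x => f (Fw w x)) (fun x => f (Fw w x)) / cap m) (by
      intro c hc c' hc'
      rw [le_div_iff₀ hcm]
      obtain ⟨v, hv, hvc⟩ := rho_exists_word m hc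
      obtain ⟨v', hv', hvc'⟩ := rho_exists_word m hc'
      have := morrey m (fun x => f (Fw w x)) hv hv' hc hc'
      rw [hvc, hvc'] at this
      exact this)
  have h2 : Q (fun x => f (Fw w x)) (fun x => f (Fw w x)) * cap m ≤
      (16 * (40960000 * EM m (fun x => f (Fw w x)) (fun x => f (Fw w x)) / cap m)) * cap m :=
    mul_le_mul_of_nonneg_right h hcm.le
  refine h2.trans (le_of_eq ?_)
  unfold EM
  field_simp
  ring

/-- Near minimisers for `cap (n + m)` in `EM_le_EM`. -/
theorem cap_super (n m : ℕ) : cap n * cap m ≤ 655360000 * cap (n + m) := by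
  have h : cap n * cap m / 655360000 ≤ cap (n + m) := by
    refine le_csInf ⟨_, _, isCross_fst, rfl⟩ ?_
    rintro e ⟨f, hf, rfl⟩
    rw [div_le_iff₀ (by norm_num)]
    have h1 := EM_le_EM n m f
    have h2 := mul_le_mul_of_nonneg_right (cap_le n hf) (cap_pos m).le
    linarith
  rw [div_le_iff₀ (by norm_num)] at h
  linarith

/-- `cap_sub`, `cap_super`, and Fekete (`Subadditive.tendsto_lim` for `n ↦ log (400 * cap n)`, and the
lower bound from superadditivity), then `EM_le_EM`. -/
theorem scaling : ∃ ρ C : ℝ, 0 < ρ ∧ 0 < C ∧ (∀ n, ρ ^ n * cap n ≤ C) ∧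
    (∀ n, 1 ≤ C * (ρ ^ n * cap n)) ∧
    ∀ (n m : ℕ) (f : K → ℝ), ρ ^ n * EM n f f ≤ C * (ρ ^ (n + m) * EM (n + m) f f) := by
  set a : ℕ → ℝ := fun n => Real.log (cap n) with ha
  have hexp : ∀ n, Real.exp (a n) = cap n := fun n => Real.exp_log (cap_pos n)
  have hsub : ∀ n m, a (n + m) ≤ a n + a m + Real.log 400 := by
    intro n m
    have h := Real.log_le_log (cap_pos (n + m)) (cap_sub n m)
    rw [Real.log_mul (by norm_num) (mul_pos (cap_pos n) (cap_pos m)).ne',
      Real.log_mul (cap_pos n).ne' (cap_pos m).ne'] at h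
    simp only [ha]
    linarith
  have hsup : ∀ n m, a n + a m ≤ a (n + m) + Real.log 655360000 := by
    intro n m
    have h := Real.log_le_log (mul_pos (cap_pos n) (cap_pos m)) (cap_super n m)
    rw [Real.log_mul (cap_pos n).ne' (cap_pos m).ne',
      Real.log_mul (by norm_num) (cap_pos (n + m)).ne'] at h
    simp only [ha]
    linarith
  set L4 := Real.log 400 with hL4
  set L6 := Real.log 655360000 with hL6
  have hL4pos : 0 ≤ L4 := Real.log_nonneg (by norm_num)
  have hL6pos : 0 ≤ L6 := Real.log_nonneg (by norm_num)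
  set u : ℕ → ℝ := fun n => a n + L4 with hu
  set v : ℕ → ℝ := fun n => L6 - a n with hv
  have husub : Subadditive u := by
    intro m n
    simp only [hu]
    linarith [hsub m n]
  have hvsub : Subadditive v := by
    intro m n
    simp only [hv]
    linarith [hsup m n]
  -- linear bounds
  have hlin : ∀ (z : ℕ → ℝ), Subadditive z → ∀ n : ℕ, z (n + 1) ≤ (n + 1) * z 1 := by
    intro z hz n
    induction n with
    | zero => simp
    | succ n ih =>
      have := hz (n + 1) 1
      push_cast at *
      linarith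
  have hubdd : BddBelow (Set.range fun n => u n / n) := by
    refine ⟨min 0 (-v 1), ?_⟩
    rintro _ ⟨n, rfl⟩
    rcases n with _ | n
    · simp
    · refine (min_le_right _ _).trans ?_
      simp only
      rw [le_div_iff₀ (by positivity)]
      have := hlin v hvsub n
      have h2 : u (n + 1) = L4 + L6 - v (n + 1) := by simp only [hu, hv]; ring
      rw [h2]
      push_cast
      nlinarith
  have hvbdd : BddBelow (Set.range fun n => v n / n) := by
    refine ⟨min 0 (-u 1), ?_⟩
    rintro _ ⟨n, rfl⟩
    rcases n with _ | n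
    · simp
    · refine (min_le_right _ _).trans ?_
      simp only
      rw [le_div_iff₀ (by positivity)]
      have := hlin u husub n
      have h2 : v (n + 1) = L4 + L6 - u (n + 1) := by simp only [hu, hv]; ring
      rw [h2]
      push_cast
      nlinarith
  have hut := husub.tendsto_lim hubdd
  have hvt := hvsub.tendsto_lim hvbdd
  have hlim : husub.lim + hvsub.lim = 0 := by
    have h1 : Tendsto (fun n : ℕ => u n / n + v n / n) atTop (𝓝 (husub.lim + hvsub.lim)) :=
      hut.add hvt
    have h2 : Tendsto (fun n : ℕ => (L4 + L6) / (n : ℝ)) atTop (𝓝 0) :=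
      tendsto_const_div_atTop_nhds_zero_nat _
    have h3 : (fun n : ℕ => u n / n + v n / n) = fun n : ℕ => (L4 + L6) / (n : ℝ) := by
      funext n
      simp only [hu, hv]
      ring
    rw [h3] at h1
    exact tendsto_nhds_unique h1 h2
  set l := husub.lim with hl
  have hlow : ∀ n : ℕ, (n : ℝ) * l ≤ u n := by
    intro n
    rcases Nat.eq_zero_or_pos n with rfl | hn
    · have := husub 0 0
      simp only [add_zero] at this
      simp
      linarith
    · have := husub.lim_le_div hubdd hn.ne'
      rw [le_div_iff₀ (by exact_mod_cast hn)] at this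
      linarith
  have hup : ∀ n : ℕ, -((n : ℝ) * l) ≤ v n := by
    intro n
    rcases Nat.eq_zero_or_pos n with rfl | hn
    · have := hvsub 0 0
      simp only [add_zero] at this
      simp
      linarith
    · have := hvsub.lim_le_div hvbdd hn.ne'
      rw [le_div_iff₀ (by exact_mod_cast hn)] at this
      have h2 : hvsub.lim = -l := by linarith
      rw [h2] at this
      linarith
  set ρ := Real.exp (-l) with hρ
  have hρpos : 0 < ρ := Real.exp_pos _
  have hρn : ∀ n : ℕ, ρ ^ n * cap n = Real.exp (a n - n * l) := by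
    intro n
    rw [hρ, ← Real.exp_nat_mul, ← hexp n, ← Real.exp_add]
    congr 1
    ring
  have hcapup : ∀ n : ℕ, ρ ^ n * cap n ≤ 655360000 := by
    intro n
    rw [hρn]
    have h1 : a n - n * l ≤ L6 := by
      have := hup n
      simp only [hv] at this
      linarith
    calc Real.exp (a n - n * l) ≤ Real.exp L6 := Real.exp_le_exp.2 h1
      _ = 655360000 := by rw [hL6, Real.exp_log (by norm_num)]
  have hcaplow : ∀ n : ℕ, 1 ≤ 400 * (ρ ^ n * cap n) := by
    intro n
    rw [hρn]
    have h1 : -L4 ≤ a n - n * l := by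
      have := hlow n
      simp only [hu] at this
      linarith
    have h2 : Real.exp (-L4) ≤ Real.exp (a n - n * l) := Real.exp_le_exp.2 h1
    have h3 : Real.exp (-L4) = 1 / 400 := by
      rw [Real.exp_neg, hL4, Real.exp_log (by norm_num)]
      norm_num
    rw [h3] at h2
    linarith
  refine ⟨ρ, 400 * 655360000, hρpos, by norm_num, ?_, ?_, ?_⟩
  · intro n
    exact (hcapup n).trans (by norm_num)
  · intro n
    have h0 : 0 ≤ ρ ^ n * cap n := (mul_pos (pow_pos hρpos n) (cap_pos n)).le
    have := hcaplow n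
    linarith
  · intro n m f
    have h1 := EM_le_EM n m f
    have h2 := hcaplow m
    have hn : 0 ≤ ρ ^ n * EM n f f := mul_nonneg (pow_nonneg hρpos.le n) (EM_nonneg n f)
    have h3 : (ρ ^ n * ρ ^ m) * (EM n f f * cap m) ≤
        (ρ ^ n * ρ ^ m) * (655360000 * EM (n + m) f f) :=
      mul_le_mul_of_nonneg_left h1 (mul_nonneg (pow_nonneg hρpos.le n) (pow_nonneg hρpos.le m))
    have h4 : (ρ ^ n * EM n f f) * 1 ≤ (ρ ^ n * EM n f f) * (400 * (ρ ^ m * cap m)) :=
      mul_le_mul_of_nonneg_left h2 hn
    rw [pow_add]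
    calc ρ ^ n * EM n f f = (ρ ^ n * EM n f f) * 1 := by ring
      _ ≤ (ρ ^ n * EM n f f) * (400 * (ρ ^ m * cap m)) := h4
      _ = 400 * ((ρ ^ n * ρ ^ m) * (EM n f f * cap m)) := by ring
      _ ≤ 400 * ((ρ ^ n * ρ ^ m) * (655360000 * EM (n + m) f f)) := by linarith
      _ = 400 * 655360000 * (ρ ^ n * ρ ^ m * EM (n + m) f f) := by ring

end Pool.Agent.Helper67.CF
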